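import Mathlib

set_option autoImplicit false

open Equiv Finset
open scoped Classical

namespace Pool.Agent.H66.MO

/-! ### Sequences -/

/-- prefix and suffix of length `k` of the sequence `f` of length `n` have the same order -/
def Ov (f : ℕ → ℕ) (n k : ℕ) : Prop :=
  ∀ i < k, ∀ j < k, (f i < f j ↔ f (n - k + i) < f (n - k + j))

/-- minimal overlapping, for sequences -/
def MOs (f : ℕ → ℕ) (n : ℕ) : Prop := ∀ k, 2 ≤ k → k < n → ¬ Ov f n k

lemma ov_congr {f g : ℕ → ℕ} {n k : ℕ} (hk : k ≤ n)
    (h : ∀ i < n, ∀ j < n, (f i < f j ↔ g i < g j)) : Ov f n k ↔ Ov g n k := by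
  unfold Ov
  constructor
  · intro H i hi j hj
    rw [← h i (by omega) j (by omega), ← h _ (by omega) _ (by omega)]
    exact H i hi j hj
  · intro H i hi j hj
    rw [h i (by omega) j (by omega), h _ (by omega) _ (by omega)]
    exact H i hi j hj

lemma mos_congr {f g : ℕ → ℕ} {n : ℕ}
    (h : ∀ i < n, ∀ j < n, (f i < f j ↔ g i < g j)) : MOs f n ↔ MOs g n := by
  unfold MOs
  constructor
  · intro H k hk hkn
    rw [← ov_congr hkn.le h]
    exact H k hk hkn
  · intro H k hk hkn
    rw [ov_congr hkn.le h]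
    exact H k hk hkn

/-- a shortest overlap is at most half -/
lemma ov_short {f : ℕ → ℕ} {n k : ℕ} (hkn : k < n) (h : Ov f n k) (h2 : n + 2 ≤ 2 * k) :
    Ov f n (2 * k - n) := by
  intro i hi j hj
  have h1 := h i (by omega) j (by omega)
  have h3 := h (n - k + i) (by omega) (n - k + j) (by omega)
  rw [h1, h3]
  have e1 : n - k + (n - k + i) = n - (2 * k - n) + i := by omega
  have e2 : n - k + (n - k + j) = n - (2 * k - n) + j := by omega
  rw [e1, e2]

lemma ov_iff_of_ov {f : ℕ → ℕ} {n k j : ℕ} (hkn : k < n) (hjk : j < k) (h : Ov f n k) :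
    Ov f n j ↔ Ov f k j := by
  constructor
  · intro H a ha b hb
    rw [H a ha b hb]
    have := h (k - j + a) (by omega) (k - j + b) (by omega)
    rw [this]
    have e1 : n - k + (k - j + a) = n - j + a := by omega
    have e2 : n - k + (k - j + b) = n - j + b := by omega
    rw [e1, e2]
  · intro H a ha b hb
    rw [H a ha b hb]
    have := h (k - j + a) (by omega) (k - j + b) (by omega)
    rw [this]
    have e1 : n - k + (k - j + a) = n - j + a := by omega
    have e2 : n - k + (k - j + b) = n - j + b := by omega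
    rw [e1, e2]

/-- the shortest overlap of `f` is `k` -/
def Sh (f : ℕ → ℕ) (n k : ℕ) : Prop := Ov f n k ∧ ∀ j, 2 ≤ j → j < k → ¬ Ov f n j

lemma sh_iff {f : ℕ → ℕ} {n k : ℕ} (hkn : k < n) : Sh f n k ↔ Ov f n k ∧ MOs f k := by
  unfold Sh MOs
  constructor
  · rintro ⟨h1, h2⟩
    refine ⟨h1, fun j hj hjk => ?_⟩
    rw [← ov_iff_of_ov hkn hjk h1]
    exact h2 j hj hjk
  · rintro ⟨h1, h2⟩
    refine ⟨h1, fun j hj hjk => ?_⟩
    rw [ov_iff_of_ov hkn hjk h1]
    exact h2 j hj hjk

lemma sh_half {f : ℕ → ℕ} {n k : ℕ} (hkn : k < n) (h : Sh f n k) : 2 * k ≤ n + 1 := by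
  by_contra hc
  exact h.2 (2 * k - n) (by omega) (by omega) (ov_short hkn h.1 (by omega))

/-! ### Relative order permutations -/

lemma perm_ext_of_lt {r : ℕ} {α β : Perm (Fin r)} (h : ∀ i j, α i < α j ↔ β i < β j) : α = β := by
  have h1 : StrictMono (fun i => α (β⁻¹ i)) := by
    intro i j hij
    show α (β⁻¹ i) < α (β⁻¹ j)
    rw [h]
    simpa using hij
  have h2 : StrictMono (fun i : Fin r => i) := fun i j hij => hij
  have h3 : (fun i => α (β⁻¹ i)) = fun i : Fin r => i := by
    rw [← StrictMono.range_inj h1 h2]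
    have : Function.Surjective (fun i => α (β⁻¹ i)) := (α * β⁻¹).surjective
    rw [this.range_eq]
    simp
  ext i
  have := congrFun h3 (β i)
  simp at this
  rw [this]

/-- rank permutation of an injective word -/
noncomputable def rk {r : ℕ} {ι : Type*} [LinearOrder ι] (g : Fin r → ι) : Perm (Fin r) := (Tuple.sort g)⁻¹

lemma rk_lt {r : ℕ} {ι : Type*} [LinearOrder ι] {g : Fin r → ι} (hg : Function.Injective g) (i j : Fin r) :
    g i < g j ↔ rk g i < rk g j := by
  have h1 : StrictMono (g ∘ Tuple.sort g) :=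
    (Tuple.monotone_sort g).strictMono_of_injective (hg.comp (Tuple.sort g).injective)
  have h2 := h1.lt_iff_lt (a := (Tuple.sort g)⁻¹ i) (b := (Tuple.sort g)⁻¹ j)
  have e : ∀ x, Tuple.sort g ((Tuple.sort g)⁻¹ x) = x := fun x => (Tuple.sort g).apply_symm_apply x
  simp only [Function.comp_apply, e] at h2
  exact h2

/-! ### Block action -/

/-- extension of a permutation of a block of positions -/
noncomputable def ex {r n : ℕ} (v : Fin r ↪ Fin n) (π : Perm (Fin r)) : Perm (Fin n) := π.viaEmbedding v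

lemma ex_apply {r n : ℕ} (v : Fin r ↪ Fin n) (π : Perm (Fin r)) (i : Fin r) : ex v π (v i) = v (π i) :=
  Perm.viaEmbedding_apply π v i

lemma ex_apply_of {r n : ℕ} (v : Fin r ↪ Fin n) (π : Perm (Fin r)) (x : Fin n) (hx : ∀ i, v i ≠ x) :
    ex v π x = x := by
  apply Perm.viaEmbedding_apply_of_notMem
  rintro ⟨i, hi⟩
  exact hx i hi

/-- double counting: among the rearrangements of the block `v`, exactly one matches the block `u` -/
lemma dc {r n : ℕ} (u v : Fin r ↪ Fin n) (hd : ∀ i j, v i ≠ u j) (X : Finset (Perm (Fin n)))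
    (hX : ∀ τ ∈ X, ∀ π : Perm (Fin r), τ * ex v π ∈ X) :
    (X.filter (fun τ => ∀ i j, τ (u i) < τ (u j) ↔ τ (v i) < τ (v j))).card * r.factorial = X.card := by
  classical
  set P : Perm (Fin n) → Prop := fun τ => ∀ i j, τ (u i) < τ (u j) ↔ τ (v i) < τ (v j) with hP
  have hinv : ∀ π : Perm (Fin r), ∀ τ, τ * ex v π ∈ X → τ ∈ X := by
    intro π τ h
    have := hX _ h π⁻¹
    have e : τ * ex v π * ex v π⁻¹ = τ := by
      ext x
      by_cases hx : ∃ i, v i = x
      · obtain ⟨i, rfl⟩ := hx
        simp [ex_apply]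
      · push Not at hx
        simp [ex_apply_of v _ x hx]
    rwa [e] at this
  have h1 : ∀ π : Perm (Fin r), (X.filter (fun τ => P (τ * ex v π))).card = (X.filter P).card := by
    intro π
    apply Finset.card_bij (fun τ _ => τ * ex v π)
    · intro τ hτ
      rw [Finset.mem_filter] at hτ ⊢
      exact ⟨hX τ hτ.1 π, hτ.2⟩
    · intro a _ b _ hab
      exact mul_right_cancel hab
    · intro b hb
      rw [Finset.mem_filter] at hb
      refine ⟨b * (ex v π)⁻¹, ?_, by simp⟩
      rw [Finset.mem_filter]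
      have e : b * (ex v π)⁻¹ * ex v π = b := by simp
      exact ⟨hinv π _ (by rw [e]; exact hb.1), by rw [e]; exact hb.2⟩
  have h2 : ∀ τ ∈ X, (Finset.univ.filter (fun π : Perm (Fin r) => P (τ * ex v π))).card = 1 := by
    intro τ _
    rw [Finset.card_eq_one]
    have hu : Function.Injective (fun i => τ (u i)) := τ.injective.comp u.injective
    have hv : Function.Injective (fun i => τ (v i)) := τ.injective.comp v.injective
    refine ⟨(rk (fun i => τ (v i)))⁻¹ * rk (fun i => τ (u i)), ?_⟩
    ext π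
    simp only [Finset.mem_filter, Finset.mem_univ, true_and, Finset.mem_singleton, hP]
    have key : (∀ i j, (τ * ex v π) (u i) < (τ * ex v π) (u j) ↔ (τ * ex v π) (v i) < (τ * ex v π) (v j)) ↔
        ∀ i j, rk (fun i => τ (u i)) i < rk (fun i => τ (u i)) j ↔
          (rk (fun i => τ (v i)) * π) i < (rk (fun i => τ (v i)) * π) j := by
      apply forall_congr'
      intro i
      apply forall_congr'
      intro j
      rw [Perm.mul_apply, Perm.mul_apply, Perm.mul_apply, Perm.mul_apply,
        ex_apply_of v π (u i) (fun a => hd a i), ex_apply_of v π (u j) (fun a => hd a j),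
        ex_apply, ex_apply]
      rw [Perm.mul_apply, Perm.mul_apply, ← rk_lt hu i j, ← rk_lt hv (π i) (π j)]
    rw [key]
    constructor
    · intro h
      have := perm_ext_of_lt h
      rw [this]; simp
    · intro h
      subst h
      simp
  have h3 : ∑ π : Perm (Fin r), (X.filter (fun τ => P (τ * ex v π))).card =
      ∑ τ ∈ X, (Finset.univ.filter (fun π : Perm (Fin r) => P (τ * ex v π))).card := by
    simp only [Finset.card_filter]
    rw [Finset.sum_comm]
  rw [Finset.sum_congr rfl h2, Finset.sum_congr rfl (fun π _ => h1 π)] at h3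
  simp only [Finset.sum_const, Finset.card_univ, Fintype.card_perm, Fintype.card_fin, smul_eq_mul,
    mul_one] at h3
  rw [mul_comm]
  exact h3

/-! ### Counting -/

/-- the word of a permutation as a sequence (0-based values) -/
def sq {n : ℕ} (τ : Perm (Fin n)) : ℕ → ℕ := fun i => if h : i < n then (τ ⟨i, h⟩ : ℕ) else 0

lemma sq_of_lt {n : ℕ} (τ : Perm (Fin n)) {i : ℕ} (h : i < n) : sq τ i = (τ ⟨i, h⟩ : ℕ) := by
  simp [sq, h]

/-- permutations with prescribed first value -/
def A (N : ℕ) (a : Fin (N + 1)) : Finset (Perm (Fin (N + 1))) :=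
  Finset.univ.filter (fun τ => τ 0 = a)

lemma card_A (N : ℕ) (a : Fin (N + 1)) : (A N a).card = N.factorial := by
  have h0 : N.factorial = (Finset.univ : Finset (Perm (Fin N))).card := by
    rw [Finset.card_univ, Fintype.card_perm, Fintype.card_fin]
  rw [h0]
  symm
  apply Finset.card_bij (fun e _ => Equiv.Perm.decomposeFin.symm (a, e))
  · intro e _
    simp [A]
  · intro e _ e' _ h
    have := Equiv.Perm.decomposeFin.symm.injective h
    exact (Prod.ext_iff.1 this).2
  · intro τ hτ
    simp only [A, Finset.mem_filter, Finset.mem_univ, true_and] at hτ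
    refine ⟨(Equiv.Perm.decomposeFin τ).2, Finset.mem_univ _, ?_⟩
    have h1 : Equiv.Perm.decomposeFin.symm (Equiv.Perm.decomposeFin τ) = τ := by simp
    have h2 : (Equiv.Perm.decomposeFin τ).1 = a := by
      rw [← hτ]
      conv_rhs => rw [← h1]
      rw [← Prod.mk.eta (p := Equiv.Perm.decomposeFin τ), Equiv.Perm.decomposeFin_symm_apply_zero]
    rw [← h2]
    exact h1

/-- block of `r` consecutive positions starting at `s` -/
def blk (n r s : ℕ) (h : s + r ≤ n) : Fin r ↪ Fin n :=
  ⟨fun i => ⟨s + i, by omega⟩, fun i j hij => by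
    simp only [Fin.mk.injEq] at hij
    exact Fin.ext (by omega)⟩

lemma blk_val {n r s : ℕ} (h : s + r ≤ n) (i : Fin r) : ((blk n r s h i : Fin n) : ℕ) = s + i := rfl

lemma A_inv {N : ℕ} (a : Fin (N + 1)) {r s : ℕ} (h : s + r ≤ N + 1) (hs : 1 ≤ s)
    {τ : Perm (Fin (N + 1))} (hτ : τ ∈ A N a) (π : Perm (Fin r)) : τ * ex (blk _ r s h) π ∈ A N a := by
  simp only [A, Finset.mem_filter, Finset.mem_univ, true_and] at hτ ⊢
  rw [Perm.mul_apply, ex_apply_of, hτ]
  intro i hi
  have := congrArg Fin.val hi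
  rw [blk_val] at this
  simp at this
  omega

lemma tail_bound {N : ℕ} (a : Fin (N + 1)) {k : ℕ} (hk : 2 ≤ k) (hkN : 2 * k ≤ N + 2) :
    ((A N a).filter (fun τ => Ov (sq τ) (N + 1) k)).card * (k - 1).factorial ≤ N.factorial := by
  classical
  have hu : 1 + (k - 1) ≤ N + 1 := by omega
  have hv : (N + 1 - (k - 1)) + (k - 1) ≤ N + 1 := by omega
  have h := dc (blk (N + 1) (k - 1) 1 hu) (blk (N + 1) (k - 1) (N + 1 - (k - 1)) hv)
    (by
      intro i j hij
      have := congrArg Fin.val hij
      rw [blk_val, blk_val] at this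
      omega) (A N a) (fun τ hτ π => A_inv a hv (by omega) hτ π)
  rw [card_A] at h
  rw [← h]
  apply Nat.mul_le_mul_right
  apply Finset.card_le_card
  intro τ hτ
  rw [Finset.mem_filter] at hτ ⊢
  refine ⟨hτ.1, fun i j => ?_⟩
  have := hτ.2 (1 + i) (by omega) (1 + j) (by omega)
  rw [sq_of_lt τ (show 1 + (i : ℕ) < N + 1 by omega), sq_of_lt τ (show 1 + (j : ℕ) < N + 1 by omega),
    sq_of_lt τ (show N + 1 - k + (1 + (i : ℕ)) < N + 1 by omega),
    sq_of_lt τ (show N + 1 - k + (1 + (j : ℕ)) < N + 1 by omega)] at this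
  have e1 : (blk (N + 1) (k - 1) (N + 1 - (k - 1)) hv i) = ⟨N + 1 - k + (1 + (i : ℕ)), by omega⟩ := by
    apply Fin.ext
    rw [blk_val]
    simp only
    omega
  have e2 : (blk (N + 1) (k - 1) (N + 1 - (k - 1)) hv j) = ⟨N + 1 - k + (1 + (j : ℕ)), by omega⟩ := by
    apply Fin.ext
    rw [blk_val]
    simp only
    omega
  rw [e1, e2]
  exact this

lemma exact_count {N : ℕ} (a : Fin (N + 1)) {k : ℕ} (hk : 1 ≤ k) (hkN : 2 * k ≤ N + 1) :
    ((A N a).filter (fun τ => MOs (sq τ) k ∧ Ov (sq τ) (N + 1) k)).card * k.factorial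
      = ((A N a).filter (fun τ => MOs (sq τ) k)).card := by
  classical
  have hu : 0 + k ≤ N + 1 := by omega
  have hv : (N + 1 - k) + k ≤ N + 1 := by omega
  have h := dc (blk (N + 1) k 0 hu) (blk (N + 1) k (N + 1 - k) hv)
    (by
      intro i j hij
      have := congrArg Fin.val hij
      rw [blk_val, blk_val] at this
      omega) ((A N a).filter (fun τ => MOs (sq τ) k))
    (by
      intro τ hτ π
      rw [Finset.mem_filter] at hτ ⊢
      refine ⟨A_inv a hv (by omega) hτ.1 π, ?_⟩
      refine (mos_congr ?_).1 hτ.2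
      intro i hi j hj
      rw [sq_of_lt _ (show i < N + 1 by omega), sq_of_lt _ (show j < N + 1 by omega),
        sq_of_lt _ (show i < N + 1 by omega), sq_of_lt _ (show j < N + 1 by omega), Perm.mul_apply,
        Perm.mul_apply, ex_apply_of, ex_apply_of]
      · intro l hl
        have := congrArg Fin.val hl
        rw [blk_val] at this
        simp only at this
        omega
      · intro l hl
        have := congrArg Fin.val hl
        rw [blk_val] at this
        simp only at this
        omega)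
  rw [← h, Finset.filter_filter]
  congr 2
  ext τ
  simp only [Finset.mem_filter]
  apply and_congr_right
  intro hτ
  apply and_congr_right
  intro hm
  constructor
  · intro H i j
    have := H i i.2 j j.2
    rw [sq_of_lt τ (show (i : ℕ) < N + 1 by omega), sq_of_lt τ (show (j : ℕ) < N + 1 by omega),
      sq_of_lt τ (show N + 1 - k + (i : ℕ) < N + 1 by omega),
      sq_of_lt τ (show N + 1 - k + (j : ℕ) < N + 1 by omega)] at this
    have e0 : ∀ l : Fin k, (blk (N + 1) k 0 hu l) = ⟨(l : ℕ), by omega⟩ := by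
      intro l
      apply Fin.ext
      rw [blk_val]
      simp
    rw [e0, e0]
    exact this
  · intro H i hi j hj
    have := H ⟨i, hi⟩ ⟨j, hj⟩
    rw [sq_of_lt τ (show (i : ℕ) < N + 1 by omega), sq_of_lt τ (show (j : ℕ) < N + 1 by omega),
      sq_of_lt τ (show N + 1 - k + (i : ℕ) < N + 1 by omega),
      sq_of_lt τ (show N + 1 - k + (j : ℕ) < N + 1 by omega)]
    have e0 : ∀ l : Fin k, (blk (N + 1) k 0 hu l) = ⟨(l : ℕ), by omega⟩ := by
      intro l
      apply Fin.ext
      rw [blk_val]
      simp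
    rw [e0, e0] at this
    exact this

lemma blk0_eq {n r : ℕ} (h : 0 + r ≤ n) (i : Fin r) : blk n r 0 h i = ⟨(i : ℕ), by omega⟩ := by
  apply Fin.ext
  rw [blk_val]
  simp

/-- the first value is the minimum of the first `k` -/
def MF {n : ℕ} (τ : Perm (Fin n)) (k : ℕ) : Prop := ∀ i, 1 ≤ i → i < k → sq τ 0 < sq τ i

/-- permutations with prescribed first value, which is the minimum of the first `k` -/
noncomputable def X (N : ℕ) (a : Fin (N + 1)) (k : ℕ) : Finset (Perm (Fin (N + 1))) :=
  (A N a).filter (fun τ => MF τ k)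

/-- number of minimal overlapping permutations of size `K + 1` with first value the smallest one -/
noncomputable def M (K : ℕ) : ℕ := ((A K 0).filter (fun τ => MOs (sq τ) (K + 1))).card

lemma ex_inv_mul {r n : ℕ} (v : Fin r ↪ Fin n) (π : Perm (Fin r)) (τ : Perm (Fin n)) :
    τ * ex v π⁻¹ * ex v π = τ := by
  ext x
  by_cases hx : ∃ i, v i = x
  · obtain ⟨i, rfl⟩ := hx
    simp [ex_apply]
  · push Not at hx
    simp [ex_apply_of v _ x hx]

lemma X_inv {N : ℕ} (a : Fin (N + 1)) {K : ℕ} (h : 0 + (K + 1) ≤ N + 1)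
    {τ : Perm (Fin (N + 1))} (hτ : τ ∈ X N a (K + 1)) {π : Perm (Fin (K + 1))} (hπ : π ∈ A K 0) :
    τ * ex (blk _ (K + 1) 0 h) π ∈ X N a (K + 1) := by
  simp only [X, A, Finset.mem_filter, Finset.mem_univ, true_and] at hτ hπ ⊢
  unfold MF at hτ ⊢
  have e : ∀ i : ℕ, (hi : i < K + 1) → sq (τ * ex (blk _ (K + 1) 0 h) π) i = sq τ (π ⟨i, hi⟩ : ℕ) := by
    intro i hi
    have e1 : (⟨i, by omega⟩ : Fin (N + 1)) = blk _ (K + 1) 0 h ⟨i, hi⟩ := by rw [blk0_eq]
    rw [sq_of_lt _ (show i < N + 1 by omega), sq_of_lt _ (show (π ⟨i, hi⟩ : ℕ) < N + 1 by omega),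
      Perm.mul_apply, e1, ex_apply, blk0_eq]
  have e0 : sq (τ * ex (blk _ (K + 1) 0 h) π) 0 = sq τ 0 := by
    rw [e 0 (by omega)]
    have : π ⟨0, by omega⟩ = 0 := hπ
    rw [this]
    rfl
  constructor
  · have h1 := e0
    rw [sq_of_lt _ (show 0 < N + 1 by omega), sq_of_lt _ (show 0 < N + 1 by omega)] at h1
    rw [← hτ.1]
    exact Fin.ext h1
  · intro i h1 h2
    rw [e0, e i h2]
    apply hτ.2
    · by_contra hc
      have hz : π ⟨i, h2⟩ = π 0 := by
        rw [hπ]
        apply Fin.ext
        simp only [Fin.val_zero]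
        omega
      have := π.injective hz
      have := congrArg Fin.val this
      simp at this
      omega
    · exact (π ⟨i, h2⟩).2

lemma prefix_count {N : ℕ} (a : Fin (N + 1)) {K : ℕ} (h : 0 + (K + 1) ≤ N + 1) :
    ((X N a (K + 1)).filter (fun τ => MOs (sq τ) (K + 1))).card * K.factorial
      = (X N a (K + 1)).card * M K := by
  set v := blk (N + 1) (K + 1) 0 h with hv
  have h1 : ∀ π ∈ A K 0, ((X N a (K + 1)).filter (fun τ => MOs (sq (τ * ex v π)) (K + 1))).card
      = ((X N a (K + 1)).filter (fun τ => MOs (sq τ) (K + 1))).card := by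
    intro π hπ
    apply Finset.card_bij (fun τ _ => τ * ex v π)
    · intro τ hτ
      rw [Finset.mem_filter] at hτ ⊢
      exact ⟨X_inv a h hτ.1 hπ, hτ.2⟩
    · intro a _ b _ hab
      exact mul_right_cancel hab
    · intro b hb
      rw [Finset.mem_filter] at hb
      refine ⟨b * ex v π⁻¹, ?_, ex_inv_mul v π b⟩
      rw [Finset.mem_filter]
      refine ⟨X_inv a h hb.1 ?_, by rw [ex_inv_mul v π b]; exact hb.2⟩
      simp only [A, Finset.mem_filter, Finset.mem_univ, true_and] at hπ ⊢
      rw [Perm.inv_eq_iff_eq, hπ]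
  have h2 : ∀ τ ∈ X N a (K + 1), ((A K 0).filter (fun π => MOs (sq (τ * ex v π)) (K + 1))).card = M K := by
    intro τ hτ
    have hinj : Function.Injective (fun i => τ (v i)) := τ.injective.comp v.injective
    set α := rk (fun i => τ (v i)) with hα
    have hα0 : α 0 = 0 := by
      by_contra hc
      obtain ⟨i, hi⟩ := α.surjective 0
      have hi0 : i ≠ 0 := by
        rintro rfl
        exact hc hi
      have hlt : τ (v 0) < τ (v i) := by
        simp only [X, Finset.mem_filter] at hτ
        unfold MF at hτ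
        have hi1 : (i : ℕ) ≠ 0 := fun h => hi0 (Fin.ext h)
        have := hτ.2 i (by omega) i.2
        rw [sq_of_lt _ (show 0 < N + 1 by omega), sq_of_lt _ (show (i : ℕ) < N + 1 by omega)] at this
        rw [hv, blk0_eq, blk0_eq]
        exact this
      have := (rk_lt hinj 0 i).1 hlt
      rw [← hα, hi] at this
      exact absurd this (by simp)
    have h3 : ∀ π : Perm (Fin (K + 1)), MOs (sq (τ * ex v π)) (K + 1) ↔ MOs (sq (α * π)) (K + 1) := by
      intro π
      apply mos_congr
      intro i hi j hj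
      have e1 : ∀ l : ℕ, (hl : l < K + 1) → (⟨l, by omega⟩ : Fin (N + 1)) = v ⟨l, hl⟩ := by
        intro l hl
        rw [hv, blk0_eq]
      rw [sq_of_lt _ (show i < N + 1 by omega), sq_of_lt _ (show j < N + 1 by omega),
        sq_of_lt _ hi, sq_of_lt _ hj, Perm.mul_apply, Perm.mul_apply, e1 i hi, e1 j hj, ex_apply, ex_apply]
      rw [Perm.mul_apply, Perm.mul_apply]
      exact rk_lt hinj _ _
    unfold M
    apply Finset.card_bij (fun π _ => α * π)
    · intro π hπ
      rw [Finset.mem_filter] at hπ ⊢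
      refine ⟨?_, (h3 π).1 hπ.2⟩
      have := hπ.1
      simp only [A, Finset.mem_filter, Finset.mem_univ, true_and] at this ⊢
      rw [Perm.mul_apply, this, hα0]
    · intro a _ b _ hab
      exact mul_left_cancel hab
    · intro b hb
      rw [Finset.mem_filter] at hb
      refine ⟨α⁻¹ * b, ?_, by simp⟩
      rw [Finset.mem_filter]
      have := hb.1
      simp only [A, Finset.mem_filter, Finset.mem_univ, true_and] at this ⊢
      refine ⟨?_, ?_⟩
      · rw [Perm.mul_apply, this, Perm.inv_eq_iff_eq, hα0]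
      · rw [h3]
        simpa using hb.2
  have h3 : ∑ π ∈ A K 0, ((X N a (K + 1)).filter (fun τ => MOs (sq (τ * ex v π)) (K + 1))).card =
      ∑ τ ∈ X N a (K + 1), ((A K 0).filter (fun π => MOs (sq (τ * ex v π)) (K + 1))).card := by
    simp only [Finset.card_filter]
    rw [Finset.sum_comm]
  rw [Finset.sum_congr rfl h2, Finset.sum_congr rfl h1] at h3
  simp only [Finset.sum_const, card_A, smul_eq_mul] at h3
  rw [mul_comm]
  exact h3

lemma cnt_lt {N : ℕ} (a : Fin (N + 1)) (i : Fin (N + 1)) (hi : i ≠ 0) :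
    ((A N a).filter (fun τ => τ i < a)).card * N = a * N.factorial := by
  have h1 : ∀ j ∈ (Finset.univ.erase (0 : Fin (N + 1))),
      ((A N a).filter (fun τ => τ j < a)).card = ((A N a).filter (fun τ => τ i < a)).card := by
    intro j hj
    have hj0 : j ≠ 0 := by simpa using hj
    have hs : Equiv.swap i j 0 = 0 := Equiv.swap_apply_of_ne_of_ne hi.symm hj0.symm
    apply Finset.card_bij (fun τ _ => τ * Equiv.swap i j)
    · intro τ hτ
      simp only [A, Finset.mem_filter, Finset.mem_univ, true_and, Perm.mul_apply] at hτ ⊢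
      rw [hs, Equiv.swap_apply_left]
      exact hτ
    · intro a _ b _ hab
      exact mul_right_cancel hab
    · intro b hb
      refine ⟨b * Equiv.swap i j, ?_, by rw [mul_assoc, Equiv.swap_mul_self, mul_one]⟩
      simp only [A, Finset.mem_filter, Finset.mem_univ, true_and, Perm.mul_apply] at hb ⊢
      rw [hs, Equiv.swap_apply_right]
      exact hb
  have h2 : ∀ τ ∈ A N a, ((Finset.univ.erase (0 : Fin (N + 1))).filter (fun j => τ j < a)).card = a := by
    intro τ hτ
    simp only [A, Finset.mem_filter, Finset.mem_univ, true_and] at hτ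
    have : ((Finset.univ.erase (0 : Fin (N + 1))).filter (fun j => τ j < a)).card
        = (Finset.univ.filter (fun v : Fin (N + 1) => v < a)).card := by
      apply Finset.card_bij (fun j _ => τ j)
      · intro j hj
        simp only [Finset.mem_filter, Finset.mem_erase, Finset.mem_univ, true_and] at hj ⊢
        exact hj.2
      · intro a _ b _ hab
        exact τ.injective hab
      · intro b hb
        simp only [Finset.mem_filter, Finset.mem_univ, true_and] at hb
        refine ⟨τ⁻¹ b, ?_, by simp⟩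
        simp only [Finset.mem_filter, Finset.mem_erase, Finset.mem_univ, and_true]
        refine ⟨?_, by simpa using hb⟩
        intro hc
        rw [Perm.inv_eq_iff_eq, hτ] at hc
        exact absurd hb (by rw [hc]; simp)
    rw [this, show (Finset.univ.filter (fun v : Fin (N + 1) => v < a)) = Finset.Iio a by ext; simp,
      Fin.card_Iio]
  have h3 : ∑ j ∈ Finset.univ.erase (0 : Fin (N + 1)), ((A N a).filter (fun τ => τ j < a)).card =
      ∑ τ ∈ A N a, ((Finset.univ.erase (0 : Fin (N + 1))).filter (fun j => τ j < a)).card := by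
    simp only [Finset.card_filter]
    rw [Finset.sum_comm]
  rw [Finset.sum_congr rfl h2, Finset.sum_congr rfl h1] at h3
  simp only [Finset.sum_const, card_A, smul_eq_mul, Finset.card_erase_of_mem (Finset.mem_univ _),
    Finset.card_univ, Fintype.card_fin, Nat.add_sub_cancel] at h3
  rw [mul_comm, h3, mul_comm]

lemma notMF {N : ℕ} (a : Fin (N + 1)) {K : ℕ} (h : K ≤ N) (τ : Perm (Fin (N + 1))) (hτ : τ 0 = a)
    (hm : ¬ MF τ (K + 1)) : ∃ i : Fin K, τ ⟨(i : ℕ) + 1, by omega⟩ < a := by
  unfold MF at hm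
  push Not at hm
  obtain ⟨i, hi1, hi2, hi3⟩ := hm
  obtain ⟨j, rfl⟩ : ∃ j, i = j + 1 := ⟨i - 1, by omega⟩
  refine ⟨⟨j, by omega⟩, ?_⟩
  rw [sq_of_lt _ (show 0 < N + 1 by omega), sq_of_lt _ (show j + 1 < N + 1 by omega)] at hi3
  have h0 : (⟨0, by omega⟩ : Fin (N + 1)) = 0 := rfl
  rw [h0, hτ] at hi3
  have h1 : (τ ⟨j + 1, by omega⟩ : Fin (N + 1)) ≠ a := by
    intro hc
    rw [← hτ] at hc
    have := congrArg Fin.val (τ.injective hc)
    simp at this
  have h2 : (τ ⟨j + 1, by omega⟩ : Fin (N + 1)) ≤ a := hi3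
  exact lt_of_le_of_ne h2 h1

lemma card_notX {N : ℕ} (a : Fin (N + 1)) {K : ℕ} (h : K ≤ N) :
    ((A N a).filter (fun τ => ¬ MF τ (K + 1))).card * N ≤ K * ((a : ℕ) * N.factorial) := by
  have h1 : ((A N a).filter (fun τ => ¬ MF τ (K + 1))) ⊆
      (Finset.univ : Finset (Fin K)).biUnion
        (fun i => (A N a).filter (fun τ => τ ⟨(i : ℕ) + 1, by omega⟩ < a)) := by
    intro τ hτ
    rw [Finset.mem_filter] at hτ
    have h2 : τ 0 = a := by simpa [A] using hτ.1
    obtain ⟨i, hi⟩ := notMF a h τ h2 hτ.2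
    rw [Finset.mem_biUnion]
    exact ⟨i, Finset.mem_univ _, Finset.mem_filter.2 ⟨hτ.1, hi⟩⟩
  have h2 := (Finset.card_le_card h1).trans Finset.card_biUnion_le
  have h3 : ∀ i ∈ (Finset.univ : Finset (Fin K)),
      ((A N a).filter (fun τ => τ ⟨(i : ℕ) + 1, by omega⟩ < a)).card * N = (a : ℕ) * N.factorial := by
    intro i _
    apply cnt_lt
    intro hc
    have := congrArg Fin.val hc
    simp at this
  have h4 := Nat.mul_le_mul_right N h2
  rw [Finset.sum_mul, Finset.sum_congr rfl h3] at h4
  simpa using h4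

/-- proportion (among permutations with prescribed first value) with minimal overlapping prefix -/
noncomputable def F (N : ℕ) (a : Fin (N + 1)) (k : ℕ) : ℝ :=
  (((A N a).filter (fun τ => MOs (sq τ) k)).card : ℝ) / (N.factorial : ℝ)

/-- proportion with shortest overlap equal to `k` -/
noncomputable def S (N : ℕ) (a : Fin (N + 1)) (k : ℕ) : ℝ :=
  (((A N a).filter (fun τ => Sh (sq τ) (N + 1) k)).card : ℝ) / (N.factorial : ℝ)

lemma M_le (K : ℕ) : M K ≤ K.factorial := by
  rw [← card_A K 0]
  exact Finset.card_filter_le _ _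

lemma F_close {N : ℕ} (a : Fin (N + 1)) {K : ℕ} (h : K ≤ N) (hN : 1 ≤ N) :
    |F N a (K + 1) - (M K : ℝ) / (K.factorial : ℝ)| ≤ (K : ℝ) * (a : ℕ) / N := by
  set Y := (A N a).filter (fun τ => ¬ MF τ (K + 1)) with hY
  have hXY : (X N a (K + 1)).card + Y.card = N.factorial := by
    rw [← card_A N a, X, hY, Finset.card_filter_add_card_filter_not]
  have hsplit : ((A N a).filter (fun τ => MOs (sq τ) (K + 1))).card =
      ((X N a (K + 1)).filter (fun τ => MOs (sq τ) (K + 1))).card +
      (Y.filter (fun τ => MOs (sq τ) (K + 1))).card := by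
    rw [X, hY, Finset.filter_filter, Finset.filter_filter]
    rw [← Finset.card_filter_add_card_filter_not
      (s := (A N a).filter (fun τ => MOs (sq τ) (K + 1)))
      (fun τ => MF τ (K + 1)), Finset.filter_filter, Finset.filter_filter]
    congr 2
    · ext τ; simp only [Finset.mem_filter]; tauto
    · ext τ; simp only [Finset.mem_filter]; tauto
  have hp := prefix_count a (K := K) (by omega)
  have hYN := card_notX a h
  rw [← hY] at hYN
  have hNf : (0 : ℝ) < N.factorial := by exact_mod_cast Nat.factorial_pos N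
  have hKf : (0 : ℝ) < K.factorial := by exact_mod_cast Nat.factorial_pos K
  have hN' : (0 : ℝ) < N := by exact_mod_cast hN
  have hX' : ((X N a (K + 1)).card : ℝ) + Y.card = N.factorial := by exact_mod_cast hXY
  have hp' : (((X N a (K + 1)).filter (fun τ => MOs (sq τ) (K + 1))).card : ℝ) * K.factorial
      = (X N a (K + 1)).card * M K := by exact_mod_cast hp
  have hYN' : (Y.card : ℝ) * N ≤ K * (a * N.factorial) := by exact_mod_cast hYN
  have hM0 : (0 : ℝ) ≤ M K / K.factorial := by positivity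
  have hM1 : (M K : ℝ) / K.factorial ≤ 1 := by
    rw [div_le_one hKf]
    exact_mod_cast M_le K
  have hz1 : ((Y.filter (fun τ => MOs (sq τ) (K + 1))).card : ℝ) ≤ Y.card := by
    exact_mod_cast Finset.card_filter_le _ _
  have hz0 : (0 : ℝ) ≤ ((Y.filter (fun τ => MOs (sq τ) (K + 1))).card : ℝ) := by positivity
  have hX1 : (((X N a (K + 1)).filter (fun τ => MOs (sq τ) (K + 1))).card : ℝ)
      = (X N a (K + 1)).card * (M K / K.factorial) := by
    field_simp
    linarith [hp']
  have hF : F N a (K + 1) - (M K : ℝ) / K.factorial =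
      (((Y.filter (fun τ => MOs (sq τ) (K + 1))).card : ℝ) - Y.card * (M K / K.factorial)) / N.factorial := by
    unfold F
    rw [hsplit]
    push_cast
    rw [hX1, eq_div_iff hNf.ne', sub_mul, div_mul_cancel₀ _ hNf.ne', ← hX']
    ring
  have hfin : (Y.card : ℝ) / N.factorial ≤ (K : ℝ) * (a : ℕ) / N := by
    rw [div_le_div_iff₀ hNf hN']
    linarith [hYN']
  rw [hF]
  refine le_trans ?_ hfin
  rw [abs_div, abs_of_pos hNf]
  apply div_le_div_of_nonneg_right _ hNf.le
  rw [abs_le]
  have hY0 : (0 : ℝ) ≤ Y.card := by positivity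
  constructor
  · nlinarith
  · nlinarith

lemma S_bound {N : ℕ} (a : Fin (N + 1)) {k : ℕ} (hk : 2 ≤ k) (hkN : k ≤ N) :
    S N a k ≤ 1 / ((k - 1).factorial : ℝ) := by
  have hNf : (0 : ℝ) < N.factorial := by exact_mod_cast Nat.factorial_pos N
  have hkf : (0 : ℝ) < (k - 1).factorial := by exact_mod_cast Nat.factorial_pos _
  unfold S
  by_cases h2 : 2 * k ≤ N + 2
  · rw [div_le_div_iff₀ hNf hkf, one_mul]
    have h1 := tail_bound a hk h2
    have h3 : ((A N a).filter (fun τ => Sh (sq τ) (N + 1) k)).card ≤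
        ((A N a).filter (fun τ => Ov (sq τ) (N + 1) k)).card := by
      apply Finset.card_le_card
      intro τ hτ
      rw [Finset.mem_filter] at hτ ⊢
      exact ⟨hτ.1, hτ.2.1⟩
    exact_mod_cast (Nat.mul_le_mul_right _ h3).trans h1
  · have : (A N a).filter (fun τ => Sh (sq τ) (N + 1) k) = ∅ := by
      apply Finset.filter_eq_empty_iff.2
      intro τ _ hc
      exact h2 (sh_half (by omega) hc)
    rw [this]
    simp only [Finset.card_empty, Nat.cast_zero, zero_div]
    positivity

lemma S_eq {N : ℕ} (a : Fin (N + 1)) {k : ℕ} (hk : 2 ≤ k) (hkN : 2 * k ≤ N + 1) :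
    S N a k = F N a k / (k.factorial : ℝ) := by
  have hNf : (0 : ℝ) < N.factorial := by exact_mod_cast Nat.factorial_pos N
  have hkf : (0 : ℝ) < k.factorial := by exact_mod_cast Nat.factorial_pos _
  unfold S F
  rw [div_div, div_eq_div_iff hNf.ne' (by positivity)]
  have h1 := exact_count a (k := k) (by omega) hkN
  have h2 : (A N a).filter (fun τ => Sh (sq τ) (N + 1) k) =
      (A N a).filter (fun τ => MOs (sq τ) k ∧ Ov (sq τ) (N + 1) k) := by
    ext τ
    simp only [Finset.mem_filter]
    rw [sh_iff (by omega)]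
    tauto
  rw [h2]
  have h3 : ((((A N a).filter (fun τ => MOs (sq τ) k ∧ Ov (sq τ) (N + 1) k)).card : ℝ)) * k.factorial
      = ((A N a).filter (fun τ => MOs (sq τ) k)).card := by exact_mod_cast h1
  rw [← h3]
  ring

lemma F_full (N : ℕ) (a : Fin (N + 1)) :
    F N a (N + 1) = 1 - ∑ k ∈ Finset.Icc 2 N, S N a k := by
  have hNf : (0 : ℝ) < N.factorial := by exact_mod_cast Nat.factorial_pos N
  have h1 : (A N a).card = ((A N a).filter (fun τ => MOs (sq τ) (N + 1))).card +
      ∑ k ∈ Finset.Icc 2 N, ((A N a).filter (fun τ => Sh (sq τ) (N + 1) k)).card := by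
    rw [← Finset.card_biUnion]
    · rw [← Finset.card_filter_add_card_filter_not (s := A N a) (fun τ => MOs (sq τ) (N + 1))]
      congr 2
      ext τ
      simp only [Finset.mem_filter, Finset.mem_biUnion, Finset.mem_Icc]
      constructor
      · rintro ⟨h1, h2⟩
        unfold MOs at h2
        push Not at h2
        have h3 : ∃ k, 2 ≤ k ∧ k < N + 1 ∧ Ov (sq τ) (N + 1) k := h2
        refine ⟨Nat.find h3, ⟨(Nat.find_spec h3).1, ?_⟩, h1, (Nat.find_spec h3).2.2, ?_⟩
        · have := (Nat.find_spec h3).2.1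
          omega
        · intro j hj hjk hc
          apply Nat.find_min h3 hjk
          refine ⟨hj, ?_, hc⟩
          have := (Nat.find_spec h3).2.1
          omega
      · rintro ⟨k, ⟨hk1, hk2⟩, h1, h2⟩
        exact ⟨h1, fun hc => hc k hk1 (by omega) h2.1⟩
    · intro k hk l hl hkl
      rw [Function.onFun, Finset.disjoint_left]
      intro τ h1 h2
      simp only [Finset.mem_filter, Finset.coe_Icc, Set.mem_Icc] at h1 h2 hk hl
      rcases lt_or_gt_of_ne hkl with h | h
      · exact h2.2.2 k hk.1 h h1.2.1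
      · exact h1.2.2 l hl.1 h h2.2.1
  unfold F S
  rw [← Finset.sum_div, eq_sub_iff_add_eq, ← add_div, div_eq_one_iff_eq hNf.ne']
  rw [card_A] at h1
  exact_mod_cast h1.symm

end Pool.Agent.H66.MO
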