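import Mathlib

set_option autoImplicit false
open scoped Classical
open Finset

namespace Pool.Agent.H66.NB

variable {V : Type} [Fintype V] (G : SimpleGraph V)

/-- The non-backtracking matrix. -/
noncomputable def nbM : Matrix G.Dart G.Dart ℂ :=
  Matrix.of (fun d e : G.Dart => if d.snd = e.fst ∧ e.snd ≠ d.fst then (1 : ℂ) else 0)

/-- The vertex equation. -/
def HS (l : ℂ) (S : V → ℂ) : Prop :=
  ∀ v, (l ^ 2 - 1) * S v = ∑ u, if G.Adj v u then l * S u - S v else 0

lemma sum_dart (h : V → V → ℂ) :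
    ∑ d : G.Dart, h d.fst d.snd = ∑ v, ∑ u, if G.Adj v u then h v u else 0 := by
  rw [← Fintype.sum_prod_type' (f := fun v u => if G.Adj v u then h v u else 0)]
  rw [← Finset.sum_filter]
  refine Finset.sum_bij (fun d _ => d.toProd) ?_ ?_ ?_ ?_
  · intro d _
    simp only [mem_filter, mem_univ, true_and]
    exact d.adj
  · intro a _ b _ hab
    exact SimpleGraph.Dart.ext _ _ hab
  · intro p hp
    simp only [mem_filter, mem_univ, true_and] at hp
    exact ⟨⟨p, hp⟩, mem_univ _, rfl⟩
  · intro d _
    rfl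

lemma sum_dart_fst (v : V) (h : V → V → ℂ) :
    ∑ d : G.Dart, (if d.fst = v then h d.fst d.snd else 0)
      = ∑ u, if G.Adj v u then h v u else 0 := by
  rw [sum_dart G (fun a b => if a = v then h a b else 0)]
  rw [Finset.sum_eq_single v]
  · apply Finset.sum_congr rfl
    intro u _
    simp
  · intro b _ hb
    apply Finset.sum_eq_zero
    intro u _
    simp [hb]
  · intro h
    exact absurd (mem_univ v) h

/-- Vertex sums of a dart vector. -/
noncomputable def vS (x : G.Dart → ℂ) : V → ℂ := fun v => ∑ e : G.Dart, if e.fst = v then x e else 0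

lemma mulVec_eq (x : G.Dart → ℂ) (d : G.Dart) :
    (nbM G).mulVec x d = vS G x d.snd - x d.symm := by
  unfold vS Matrix.mulVec nbM dotProduct
  simp only [Matrix.of_apply]
  have h1 : ∀ e : G.Dart, (if d.snd = e.fst ∧ e.snd ≠ d.fst then (1 : ℂ) else 0) * x e
      = (if e.fst = d.snd then x e else 0) - (if e = d.symm then x e else 0) := by
    intro e
    by_cases h2 : e.fst = d.snd
    · by_cases h3 : e.snd = d.fst
      · have h4 : e = d.symm := by
          apply SimpleGraph.Dart.ext
          apply Prod.ext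
          · simpa using h2
          · simpa using h3
        rw [if_neg (by tauto), if_pos h2, if_pos h4]
        ring
      · have h4 : e ≠ d.symm := by
          intro h
          apply h3
          rw [h]
          rfl
        rw [if_pos ⟨h2.symm, h3⟩, if_pos h2, if_neg h4]
        ring
    · have h4 : e ≠ d.symm := by
        intro h
        apply h2
        rw [h]
        rfl
      rw [if_neg (by intro h; exact h2 h.1.symm), if_neg h2, if_neg h4]
      ring
  simp_rw [h1]
  rw [Finset.sum_sub_distrib]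
  congr 1
  rw [Finset.sum_ite_eq' univ d.symm x]
  simp

lemma dart_eq_of_eig {l : ℂ} {x : G.Dart → ℂ} (hx : (nbM G).mulVec x = l • x) (d : G.Dart) :
    (l ^ 2 - 1) * x d = l * vS G x d.snd - vS G x d.fst := by
  have h1 := congrFun hx d
  have h2 := congrFun hx d.symm
  rw [mulVec_eq] at h1 h2
  simp only [Pi.smul_apply, smul_eq_mul, SimpleGraph.Dart.symm_symm] at h1 h2
  have h3 : d.symm.snd = d.fst := rfl
  rw [h3] at h2
  linear_combination (-l) * h1 + h2

lemma HS_of_eig {l : ℂ} {x : G.Dart → ℂ} (hx : (nbM G).mulVec x = l • x) :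
    HS G l (vS G x) := by
  intro v
  have h1 : (l ^ 2 - 1) * vS G x v = ∑ d : G.Dart, if d.fst = v then (l ^ 2 - 1) * x d else 0 := by
    conv_lhs => unfold vS
    rw [Finset.mul_sum]
    apply Finset.sum_congr rfl
    intro d _
    split_ifs <;> simp
  rw [h1]
  rw [← sum_dart_fst G v (fun a b => l * vS G x b - vS G x a)]
  apply Finset.sum_congr rfl
  intro d _
  split_ifs with h
  · exact dart_eq_of_eig G hx d
  · rfl

/-- Dart vector of a vertex vector. -/
noncomputable def dx (l : ℂ) (S : V → ℂ) : G.Dart → ℂ := fun d => l * S d.snd - S d.fst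

lemma vS_dx {l : ℂ} {S : V → ℂ} (hS : HS G l S) (v : V) :
    vS G (dx G l S) v = (l ^ 2 - 1) * S v := by
  rw [hS v]
  unfold vS
  exact sum_dart_fst G v (fun a b => l * S b - S a)

lemma eig_of_HS {l : ℂ} {S : V → ℂ} (hS : HS G l S) :
    (nbM G).mulVec (dx G l S) = l • dx G l S := by
  funext d
  rw [mulVec_eq, vS_dx G hS]
  simp only [dx, Pi.smul_apply, smul_eq_mul]
  have h3 : d.symm.snd = d.fst := rfl
  have h4 : d.symm.fst = d.snd := rfl
  rw [h3, h4]
  ring

/-- Main spectral reduction. -/
theorem spec_main (R0 : ℝ) (hR1 : 1 < R0) (hR2 : R0 ≤ 2)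
    (h1 : ∀ l : ℂ, R0 ≤ ‖l‖ → l ≠ 2 → ∀ S : V → ℂ, HS G l S → S = 0)
    (S0 : V → ℝ) (h2 : HS G 2 (fun v => (S0 v : ℂ)))
    (hpos : ∀ v u, G.Adj v u → 0 < 2 * S0 u - S0 v)
    (hne : ∃ v u, G.Adj v u)
    (h3 : ∀ S : V → ℂ, HS G 2 S → ∃ c : ℂ, S = fun v => c * (S0 v : ℂ)) :
    (2 : ℂ) ∈ (nbM G).charpoly.roots ∧ (∀ z ∈ (nbM G).charpoly.roots, ‖z‖ ≤ 2) ∧
    ((nbM G).charpoly.roots.filter (fun z : ℂ => R0 ≤ ‖z‖)).card ≤ 1 := by
  classical
  set f : Module.End ℂ (G.Dart → ℂ) := Matrix.toLin' (nbM G) with hf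
  have hfx : ∀ x, f x = (nbM G).mulVec x := fun x => by rw [hf, Matrix.toLin'_apply]
  have hchar : f.charpoly = (nbM G).charpoly := by rw [hf, Matrix.charpoly_toLin']
  have hmon : (nbM G).charpoly ≠ 0 := (Matrix.charpoly_monic (nbM G)).ne_zero
  have hroot : ∀ z : ℂ, z ∈ (nbM G).charpoly.roots ↔ f.HasEigenvalue z := by
    intro z
    rw [Module.End.hasEigenvalue_iff_isRoot_charpoly, hchar, Polynomial.mem_roots hmon]
  -- eigenvalues of large modulus
  have hbig : ∀ z ∈ (nbM G).charpoly.roots, R0 ≤ ‖z‖ → z = 2 := by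
    intro z hz hz2
    by_contra hne2
    rw [hroot] at hz
    obtain ⟨x, hx⟩ := hz.exists_hasEigenvector
    have hx1 : (nbM G).mulVec x = z • x := by
      rw [← hfx]
      exact hx.apply_eq_smul
    have hS := h1 z hz2 hne2 _ (HS_of_eig G hx1)
    apply hx.2
    funext d
    have h4 := dart_eq_of_eig G hx1 d
    rw [hS] at h4
    simp only [Pi.zero_apply, mul_zero, sub_zero] at h4
    have hz3 : z ^ 2 - 1 ≠ 0 := by
      intro h5
      have h6 : z ^ 2 = 1 := by linear_combination h5
      have h7 : ‖z‖ ^ 2 = 1 := by rw [← norm_pow, h6]; simp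
      nlinarith
    simpa [hz3] using h4
  -- the eigenvector at two
  set x0 : G.Dart → ℂ := dx G 2 (fun v => (S0 v : ℂ)) with hx0
  set r0 : G.Dart → ℝ := fun d => 2 * S0 d.snd - S0 d.fst with hr0
  have hx0r : ∀ d, x0 d = (r0 d : ℂ) := by
    intro d
    rw [hx0, hr0]
    simp [dx]
  have hr0pos : ∀ d, 0 < r0 d := fun d => hpos d.fst d.snd d.adj
  have hx0e : (nbM G).mulVec x0 = (2 : ℂ) • x0 := eig_of_HS G h2
  obtain ⟨a, b, hab⟩ := hne
  let d0 : G.Dart := ⟨(a, b), hab⟩
  have hx0ne : x0 ≠ 0 := by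
    intro h
    have h4 := congrFun h d0
    rw [hx0r] at h4
    have h5 := hr0pos d0
    simp only [Pi.zero_apply, Complex.ofReal_eq_zero] at h4
    linarith
  have h2root : (2 : ℂ) ∈ (nbM G).charpoly.roots := by
    rw [hroot]
    apply Module.End.hasEigenvalue_of_hasEigenvector (x := x0)
    refine ⟨?_, hx0ne⟩
    rw [Module.End.mem_eigenspace_iff, hfx]
    exact hx0e
  refine ⟨h2root, ?_, ?_⟩
  · intro z hz
    by_contra hlt
    push Not at hlt
    have := hbig z hz (by linarith)
    rw [this] at hlt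
    simp at hlt
  -- the eigenspace at two
  have hker : ∀ x, f x = (2 : ℂ) • x → ∃ c : ℂ, x = c • x0 := by
    intro x hx
    rw [hfx] at hx
    obtain ⟨c, hc⟩ := h3 _ (HS_of_eig G hx)
    refine ⟨c / 3, ?_⟩
    funext d
    have h4 := dart_eq_of_eig G hx d
    rw [hc] at h4
    rw [hx0]
    simp only [dx, Pi.smul_apply, smul_eq_mul]
    linear_combination (1 / 3) * h4
  -- left eigenvector
  have hleft : ∀ y : G.Dart → ℂ, ∑ d : G.Dart, x0 d.symm * (f y) d
      = 2 * ∑ d : G.Dart, x0 d.symm * y d := by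
    intro y
    have h4 : ∀ d, (f y) d = ∑ e : G.Dart, (nbM G) d e * y e := by
      intro d
      rw [hfx]
      rfl
    simp_rw [h4, Finset.mul_sum]
    rw [Finset.sum_comm]
    apply Finset.sum_congr rfl
    intro e _
    have h5 : ∑ d : G.Dart, x0 d.symm * (nbM G d e) = 2 * x0 e.symm := by
      have h6 := congrFun hx0e e.symm
      simp only [Pi.smul_apply, smul_eq_mul] at h6
      rw [← h6]
      unfold Matrix.mulVec dotProduct
      have h7 : ∑ d : G.Dart, x0 d.symm * (nbM G d e)
          = ∑ d : G.Dart, x0 d * (nbM G d.symm e) := by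
        apply Finset.sum_bij (fun d _ => d.symm)
        · intro d _
          exact mem_univ _
        · intro a _ b _ h
          exact SimpleGraph.Dart.symm_involutive.injective h
        · intro b _
          exact ⟨b.symm, mem_univ _, SimpleGraph.Dart.symm_symm b⟩
        · intro d _
          rw [SimpleGraph.Dart.symm_symm]
      rw [h7]
      apply Finset.sum_congr rfl
      intro d _
      rw [mul_comm]
      congr 1
      unfold nbM
      simp only [Matrix.of_apply]
      have h8 : d.symm.snd = d.fst := rfl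
      have h9 : d.symm.fst = d.snd := rfl
      have h10 : e.symm.snd = e.fst := rfl
      have h11 : e.symm.fst = e.snd := rfl
      rw [h8, h9, h10, h11]
      by_cases h12 : d.fst = e.fst <;> by_cases h13 : e.snd = d.snd
      · rw [if_neg (by tauto), if_neg (by intro h; exact h.2 h13.symm)]
      · rw [if_pos ⟨h12, h13⟩, if_pos ⟨h12.symm, fun h => h13 h.symm⟩]
      · rw [if_neg (by tauto), if_neg (by intro h; exact h12 h.1.symm)]
      · rw [if_neg (by tauto), if_neg (by intro h; exact h12 h.1.symm)]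
    have h6 : ∀ d : G.Dart, x0 d.symm * (nbM G d e * y e) = (x0 d.symm * nbM G d e) * y e := by
      intro d
      ring
    simp_rw [h6]
    rw [← Finset.sum_mul, h5]
    ring
  have hw0 : ∑ d : G.Dart, x0 d.symm * x0 d ≠ 0 := by
    have h4 : ∑ d : G.Dart, x0 d.symm * x0 d = ((∑ d : G.Dart, r0 d.symm * r0 d : ℝ) : ℂ) := by
      push_cast
      apply Finset.sum_congr rfl
      intro d _
      rw [hx0r, hx0r]
    rw [h4]
    have h5 : 0 < ∑ d : G.Dart, r0 d.symm * r0 d := by
      apply Finset.sum_pos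
      · intro d _
        exact mul_pos (hr0pos _) (hr0pos _)
      · exact ⟨d0, mem_univ _⟩
    exact_mod_cast h5.ne'
  -- no generalised eigenvectors
  have hgen : ∀ y, f (f y - (2 : ℂ) • y) = (2 : ℂ) • (f y - (2 : ℂ) • y) → f y = (2 : ℂ) • y := by
    intro y hy
    obtain ⟨c, hc⟩ := hker _ hy
    have h4 : ∑ d : G.Dart, x0 d.symm * (f y - (2 : ℂ) • y) d = 0 := by
      simp only [Pi.sub_apply, Pi.smul_apply, smul_eq_mul, mul_sub]
      rw [Finset.sum_sub_distrib, hleft, Finset.mul_sum]
      rw [sub_eq_zero]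
      apply Finset.sum_congr rfl
      intro d _
      ring
    rw [hc] at h4
    simp only [Pi.smul_apply, smul_eq_mul] at h4
    have h5 : ∑ d : G.Dart, x0 d.symm * (c * x0 d) = c * ∑ d : G.Dart, x0 d.symm * x0 d := by
      rw [Finset.mul_sum]
      apply Finset.sum_congr rfl
      intro d _
      ring
    rw [h5] at h4
    have h6 : c = 0 := by
      rcases mul_eq_zero.mp h4 with h | h
      · exact h
      · exact absurd h hw0
    rw [h6, zero_smul] at hc
    exact sub_eq_zero.mp hc
  have hpow : ∀ k : ℕ, ∀ y, ((f - (2 : ℂ) • (1 : Module.End ℂ (G.Dart → ℂ))) ^ k) y = 0 →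
      k = 0 ∨ f y = (2 : ℂ) • y := by
    intro k
    induction k with
    | zero => intro y _; exact Or.inl rfl
    | succ k ih =>
      intro y hy
      right
      rw [pow_succ] at hy
      have hy2 : ((f - (2 : ℂ) • (1 : Module.End ℂ (G.Dart → ℂ))) ^ k) (f y - (2 : ℂ) • y) = 0 := by
        simpa using hy
      rcases ih _ hy2 with h | h
      · subst h
        simp only [pow_zero, Module.End.one_apply] at hy2
        exact sub_eq_zero.mp hy2
      · exact hgen y h
  have hmax : (f.maxGenEigenspace 2) ≤ Submodule.span ℂ {x0} := by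
    intro y hy
    rw [Module.End.mem_maxGenEigenspace] at hy
    obtain ⟨k, hk⟩ := hy
    have h4 : f y = (2 : ℂ) • y := by
      rcases hpow k y hk with h | h
      · subst h
        simp only [pow_zero, Module.End.one_apply] at hk
        rw [hk]
        simp
      · exact h
    obtain ⟨c, hc⟩ := hker y h4
    rw [hc]
    exact Submodule.smul_mem _ _ (Submodule.mem_span_singleton_self x0)
  have hmult : (nbM G).charpoly.rootMultiplicity 2 ≤ 1 := by
    rw [← hchar, ← LinearMap.finrank_maxGenEigenspace_eq]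
    calc Module.finrank ℂ (f.maxGenEigenspace 2) ≤ Module.finrank ℂ (Submodule.span ℂ {x0}) :=
          Submodule.finrank_mono hmax
      _ ≤ 1 := (finrank_span_singleton hx0ne).le
  -- counting
  have hcount : ((nbM G).charpoly.roots.filter (fun z : ℂ => R0 ≤ ‖z‖)).card
      ≤ (nbM G).charpoly.roots.count 2 := by
    have h4 : (nbM G).charpoly.roots.filter (fun z : ℂ => R0 ≤ ‖z‖)
        = Multiset.replicate ((nbM G).charpoly.roots.filter (fun z : ℂ => R0 ≤ ‖z‖)).card 2 := by
      rw [Multiset.eq_replicate_card]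
      intro z hz
      rw [Multiset.mem_filter] at hz
      exact hbig z hz.1 hz.2
    have h5 : ((nbM G).charpoly.roots.filter (fun z : ℂ => R0 ≤ ‖z‖)).card
        = ((nbM G).charpoly.roots.filter (fun z : ℂ => R0 ≤ ‖z‖)).count 2 := by
      conv_rhs => rw [h4]
      rw [Multiset.count_replicate_self]
    rw [h5]
    exact Multiset.count_le_of_le 2 (Multiset.filter_le _ _)
  rw [Polynomial.count_roots] at hcount
  exact le_trans hcount hmult

end Pool.Agent.H66.NB
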