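import Mathlib

set_option autoImplicit false
open scoped Classical
open Finset

namespace Pool.Agent.H66.NB

/-! ### Paths -/

lemma path_sum {k : ℕ} (i : Fin k) (g : Fin k → ℂ) :
    (∑ j : Fin k, if (i.val + 1 = j.val ∨ j.val + 1 = i.val) then g j else 0)
      = (if h : i.val + 1 < k then g ⟨i.val + 1, h⟩ else 0)
        + (if h : 0 < i.val then g ⟨i.val - 1, by omega⟩ else 0) := by
  have h1 : ∀ j : Fin k, (if (i.val + 1 = j.val ∨ j.val + 1 = i.val) then g j else 0)
      = (if i.val + 1 = j.val then g j else 0) + (if j.val + 1 = i.val then g j else 0) := by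
    intro j
    by_cases h2 : i.val + 1 = j.val
    · have h3 : ¬ (j.val + 1 = i.val) := by omega
      simp [h2, h3]
    · simp [h2]
  simp_rw [h1]
  rw [Finset.sum_add_distrib]
  congr 1
  · split_ifs with h
    · rw [Finset.sum_eq_single (⟨i.val + 1, h⟩ : Fin k)]
      · simp
      · intro b _ hb
        rw [if_neg]
        intro h4
        apply hb
        exact Fin.ext h4.symm
      · intro h4
        exact absurd (mem_univ _) h4
    · apply Finset.sum_eq_zero
      intro b _
      rw [if_neg]
      intro h4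
      have := b.isLt
      omega
  · split_ifs with h
    · rw [Finset.sum_eq_single (⟨i.val - 1, by omega⟩ : Fin k)]
      · rw [if_pos]
        simp only
        omega
      · intro b _ hb
        rw [if_neg]
        intro h4
        apply hb
        apply Fin.ext
        simp only
        omega
      · intro h4
        exact absurd (mem_univ _) h4
    · apply Finset.sum_eq_zero
      intro b _
      rw [if_neg]
      intro h4
      omega

/-- Vertex equations on a path with `k` internal vertices, end values `s`, `s'`. -/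
def PathEq (k : ℕ) (l s s' : ℂ) (S : Fin k → ℂ) : Prop :=
  ∀ i : Fin k, (l ^ 2 - 1) * S i = (if i.val = 0 then l * s - S i else 0)
    + (if i.val + 1 = k then l * s' - S i else 0)
    + ∑ j : Fin k, if (i.val + 1 = j.val ∨ j.val + 1 = i.val) then l * S j - S i else 0

/-- The values along the path including the ends. -/
noncomputable def ext (k : ℕ) (s s' : ℂ) (S : Fin k → ℂ) : ℕ → ℂ
  | 0 => s
  | n + 1 => if h : n < k then S ⟨n, h⟩ else s'

lemma ext_rec {k : ℕ} {l s s' : ℂ} {S : Fin k → ℂ} (h : PathEq k l s s' S) (n : ℕ) (hn : n < k) :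
    (l ^ 2 + 1) * ext k s s' S (n + 1) = l * (ext k s s' S n + ext k s s' S (n + 2)) := by
  have h1 := h ⟨n, hn⟩
  rw [path_sum] at h1
  simp only at h1
  have e1 : ext k s s' S (n + 1) = S ⟨n, hn⟩ := by simp [ext, hn]
  rw [e1]
  by_cases hlast : n + 1 < k
  · have e2 : ext k s s' S (n + 2) = S ⟨n + 1, hlast⟩ := by simp [ext, hlast]
    rw [e2]
    have hl : ¬ (n + 1 = k) := by omega
    rw [if_neg hl, dif_pos hlast] at h1
    cases n with
    | zero =>
      have e3 : ext k s s' S 0 = s := rfl
      rw [e3]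
      simp only [if_true, lt_irrefl, dif_neg, not_false_eq_true] at h1
      linear_combination h1
    | succ m =>
      have e3 : ext k s s' S (m + 1) = S ⟨m, by omega⟩ := by
        have : m < k := by omega
        simp [ext, this]
      rw [e3]
      have h5 : 0 < m + 1 := by omega
      rw [if_neg (by omega), dif_pos h5] at h1
      simp only [Nat.add_sub_cancel] at h1
      linear_combination h1
  · have hl : n + 1 = k := by omega
    have e2 : ext k s s' S (n + 2) = s' := by
      simp [ext, hlast]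
    rw [e2]
    rw [if_pos hl, dif_neg hlast] at h1
    cases n with
    | zero =>
      have e3 : ext k s s' S 0 = s := rfl
      rw [e3]
      simp only [if_true, lt_irrefl, dif_neg, not_false_eq_true] at h1
      linear_combination h1
    | succ m =>
      have e3 : ext k s s' S (m + 1) = S ⟨m, by omega⟩ := by
        have : m < k := by omega
        simp [ext, this]
      rw [e3]
      have h5 : 0 < m + 1 := by omega
      rw [if_neg (by omega), dif_pos h5] at h1
      simp only [Nat.add_sub_cancel] at h1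
      linear_combination h1

lemma ext_step {k : ℕ} {l s s' : ℂ} {S : Fin k → ℂ} (h : PathEq k l s s' S) (n : ℕ)
    (hn : n ≤ k) :
    l * ext k s s' S (n + 1) - ext k s s' S n
      = l ^ n * (l * ext k s s' S 1 - s) := by
  induction n with
  | zero => simp [ext]
  | succ n ih =>
    have h1 := ext_rec h n (by omega)
    have h2 := ih (by omega)
    have h3 : l * ext k s s' S (n + 2) - ext k s s' S (n + 1)
        = l * (l * ext k s s' S (n + 1) - ext k s s' S n) := by
      linear_combination -h1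
    have h4 : n + 1 + 1 = n + 2 := rfl
    rw [h4, h3, h2]
    ring

lemma ext_sum {k : ℕ} {l s s' : ℂ} {S : Fin k → ℂ} (h : PathEq k l s s' S) (n : ℕ)
    (hn : n ≤ k + 1) :
    (l ^ 2 - 1) * (l ^ n * ext k s s' S n - s)
      = (l ^ (2 * n) - 1) * (l * ext k s s' S 1 - s) := by
  induction n with
  | zero => simp [ext]
  | succ n ih =>
    have h1 := ext_step h n (by omega)
    have h2 := ih (by omega)
    have h3 : l ^ (n + 1) * ext k s s' S (n + 1)
        = l ^ n * (l * ext k s s' S (n + 1) - ext k s s' S n) + l ^ n * ext k s s' S n := by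
      ring
    rw [h3, h1]
    have h4 : l ^ (2 * (n + 1)) = l ^ (2 * n) * l ^ 2 := by ring
    have h5 : l ^ (2 * n) = l ^ n * l ^ n := by ring
    rw [h4]
    rw [h5] at h2 ⊢
    linear_combination h2

lemma path_main {k : ℕ} {l s s' : ℂ} {S : Fin k → ℂ} (h : PathEq k l s s' S) (hk : 0 < k) :
    (l ^ 2 - 1) * (l ^ (k + 1) * s' - s)
      = (l ^ (2 * (k + 1)) - 1) * (l * S ⟨0, hk⟩ - s) := by
  have h1 := ext_sum h (k + 1) le_rfl
  have e1 : ext k s s' S (k + 1) = s' := by simp [ext]
  have e2 : ext k s s' S 1 = S ⟨0, hk⟩ := by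
    have : ext k s s' S (0 + 1) = S ⟨0, hk⟩ := by simp only [ext]; rw [dif_pos hk]
    exact this
  rw [e1, e2] at h1
  exact h1

lemma path_rev {k : ℕ} {l s s' : ℂ} {S : Fin k → ℂ} (h : PathEq k l s s' S) :
    PathEq k l s' s (fun i => S (Fin.rev i)) := by
  intro i
  have h1 := h (Fin.rev i)
  rw [h1]
  have hi := i.isLt
  have hv : (Fin.rev i).val = k - (i.val + 1) := Fin.val_rev i
  have c1 : ((Fin.rev i).val = 0) = (i.val + 1 = k) := by
    rw [hv]; apply propext; constructor <;> intro h <;> omega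
  have c2 : ((Fin.rev i).val + 1 = k) = (i.val = 0) := by
    rw [hv]; apply propext; constructor <;> intro h <;> omega
  have c3 : (∑ j : Fin k, if ((Fin.rev i).val + 1 = j.val ∨ j.val + 1 = (Fin.rev i).val)
        then l * S j - S (Fin.rev i) else 0)
      = ∑ j : Fin k, if (i.val + 1 = j.val ∨ j.val + 1 = i.val)
        then l * S (Fin.rev j) - S (Fin.rev i) else 0 := by
    apply Finset.sum_bij (fun j _ => Fin.rev j)
    · intro j _
      exact mem_univ _
    · intro a _ b _ h
      exact Fin.rev_injective h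
    · intro b _
      exact ⟨Fin.rev b, mem_univ _, Fin.rev_rev b⟩
    · intro j _
      rw [Fin.rev_rev]
      have hj := j.isLt
      have hvj : (Fin.rev j).val = k - (j.val + 1) := Fin.val_rev j
      congr 1
      rw [hv, hvj]
      apply propext
      constructor <;> intro h <;> omega
  simp only [c1, c2, c3]
  ring

lemma one_lt_pow_norm {l : ℂ} (hl : 1 < ‖l‖) {n : ℕ} (hn : n ≠ 0) : l ^ n ≠ 1 := by
  intro h
  have h1 : ‖l‖ ^ n = 1 := by rw [← norm_pow, h]; simp
  have h2 := one_lt_pow₀ hl hn
  linarith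

lemma path_zero {k : ℕ} {l : ℂ} {S : Fin k → ℂ} (hl : 1 < ‖l‖) (h : PathEq k l 0 0 S) :
    ∀ i, S i = 0 := by
  intro i
  have hk : 0 < k := by have := i.isLt; omega
  have h1 := path_main h hk
  simp only [mul_zero, sub_zero] at h1
  have h2 : l ^ (2 * (k + 1)) - 1 ≠ 0 := sub_ne_zero.mpr (one_lt_pow_norm hl (by omega))
  have h3 : l * S ⟨0, hk⟩ = 0 := by
    rcases mul_eq_zero.mp h1.symm with h | h
    · exact absurd h h2
    · exact h
  have h4 := ext_sum h (i.val + 1) (by have := i.isLt; omega)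
  have e1 : ext k 0 0 S 1 = S ⟨0, hk⟩ := by
    have : ext k 0 0 S (0 + 1) = S ⟨0, hk⟩ := by simp only [ext]; rw [dif_pos hk]
    exact this
  have e2 : ext k 0 0 S (i.val + 1) = S i := by simp [ext]
  rw [e1, e2, h3] at h4
  simp only [sub_zero, mul_zero] at h4
  have hl0 : l ≠ 0 := by
    intro h
    rw [h] at hl
    simp at hl
    linarith
  have h5 : l ^ 2 - 1 ≠ 0 := sub_ne_zero.mpr (one_lt_pow_norm hl (by omega))
  simpa [h5, hl0] using h4

/-! ### Gadgets -/

/-- Rooted gadgets: a loop (cycle with `k` new vertices) or a child at the root. -/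
inductive Tr : Type
  | nil : Tr
  | loop (k : ℕ) (r : Tr) : Tr
  | child (c r : Tr) : Tr

/-- The non-root vertices of a gadget. -/
def VT : Tr → Type
  | .nil => Empty
  | .loop k r => Fin k ⊕ VT r
  | .child c r => Option (VT c) ⊕ VT r

instance instFVT : (t : Tr) → Fintype (VT t)
  | .nil => inferInstanceAs (Fintype Empty)
  | .loop k r => letI := instFVT r; inferInstanceAs (Fintype (Fin k ⊕ VT r))
  | .child c r => letI := instFVT r; letI := instFVT c; inferInstanceAs (Fintype (Option (VT c) ⊕ VT r))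

/-- Adjacency to the root. -/
def rt : (t : Tr) → VT t → Prop
  | .nil => fun _ => False
  | .loop k r => fun v => match v with
    | Sum.inl i => i.val = 0 ∨ i.val + 1 = k
    | Sum.inr v => rt r v
  | .child _ r => fun v => match v with
    | Sum.inl none => True
    | Sum.inl (some _) => False
    | Sum.inr v => rt r v

/-- Adjacency between non-root vertices. -/
def ad : (t : Tr) → VT t → VT t → Prop
  | .nil => fun _ _ => False
  | .loop k r => fun v w => match v, w with
    | Sum.inl i, Sum.inl j => i.val + 1 = j.val ∨ j.val + 1 = i.val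
    | Sum.inr v, Sum.inr w => ad r v w
    | Sum.inl _, Sum.inr _ => False
    | Sum.inr _, Sum.inl _ => False
  | .child c r => fun v w => match v, w with
    | Sum.inl none, Sum.inl none => False
    | Sum.inl none, Sum.inl (some w) => rt c w
    | Sum.inl (some v), Sum.inl none => rt c v
    | Sum.inl (some v), Sum.inl (some w) => ad c v w
    | Sum.inr v, Sum.inr w => ad r v w
    | Sum.inl _, Sum.inr _ => False
    | Sum.inr _, Sum.inl _ => False

lemma ad_symm : ∀ (t : Tr) (v w : VT t), ad t v w → ad t w v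
  | .nil => fun v _ _ => v.elim
  | .loop k r => by
    rintro (i | v) (j | w) h
    · exact Or.symm h
    · exact h
    · exact h
    · exact ad_symm r v w h
  | .child c r => by
    rintro ((_ | v) | v) ((_ | w) | w) h
    · exact h
    · exact h
    · exact h
    · exact h
    · exact ad_symm c v w h
    · exact h
    · exact h
    · exact h
    · exact ad_symm r v w h

lemma ad_irrefl : ∀ (t : Tr) (v : VT t), ¬ ad t v v
  | .nil => fun v => v.elim
  | .loop k r => by
    rintro (i | v) h
    · rcases h with h | h <;> omega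
    · exact ad_irrefl r v h
  | .child c r => by
    rintro ((_ | v) | v) h
    · exact h
    · exact ad_irrefl c v h
    · exact ad_irrefl r v h

lemma sum_loop {k : ℕ} {r : Tr} (F : VT (.loop k r) → ℂ) :
    ∑ x, F x = (∑ i : Fin k, F (Sum.inl i)) + ∑ x : VT r, F (Sum.inr x) :=
  Fintype.sum_sum_type F

lemma sum_child {c r : Tr} (F : VT (.child c r) → ℂ) :
    ∑ x, F x = (F (Sum.inl none) + ∑ x : VT c, F (Sum.inl (some x))) + ∑ x : VT r, F (Sum.inr x) := by
  have h := Fintype.sum_sum_type (α₁ := Option (VT c)) (α₂ := VT r) F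
  rw [Fintype.sum_option] at h
  exact h

/-- Flow into the root of the gadget. -/
noncomputable def Phi (t : Tr) (l s : ℂ) (S : VT t → ℂ) : ℂ :=
  ∑ v, if rt t v then l * S v - s else 0

/-- Vertex equations at the non-root vertices. -/
def EqT (t : Tr) (l s : ℂ) (S : VT t → ℂ) : Prop :=
  ∀ v, (l ^ 2 - 1) * S v = (if rt t v then l * s - S v else 0)
    + ∑ w, if ad t v w then l * S w - S v else 0

/-- The response of the gadget is `g`. -/
def Resp (t : Tr) (l g : ℂ) : Prop :=
  ∀ s S, EqT t l s S → Phi t l s S = g * ((l ^ 2 - 1) * s - Phi t l s S)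
    ∧ ((l ^ 2 - 1) * s - Phi t l s S = 0 → s = 0 ∧ ∀ v, S v = 0)

/-- Combination of two responses. -/
noncomputable def W (a b : ℂ) : ℂ := (a + b + 2 * (a * b)) / (1 - a * b)

lemma EqT_loop {k : ℕ} {r : Tr} {l s : ℂ} {S : VT (.loop k r) → ℂ} (hk : 2 ≤ k)
    (h : EqT (.loop k r) l s S) :
    PathEq k l s s (fun i => S (Sum.inl i)) ∧ EqT r l s (fun v => S (Sum.inr v)) := by
  constructor
  · intro i
    have h1 := h (Sum.inl i)
    rw [sum_loop] at h1
    have h2 : ∀ x : VT r, ad (.loop k r) (Sum.inl i) (Sum.inr x) ↔ False := fun x => Iff.rfl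
    have h3 : ∀ j : Fin k, ad (.loop k r) (Sum.inl i) (Sum.inl j) ↔
        (i.val + 1 = j.val ∨ j.val + 1 = i.val) := fun x => Iff.rfl
    have h4 : rt (.loop k r) (Sum.inl i) ↔ (i.val = 0 ∨ i.val + 1 = k) := Iff.rfl
    simp only [h2, h3, h4, if_false, Finset.sum_const_zero, add_zero] at h1
    rw [h1]
    congr 1
    by_cases h5 : i.val = 0
    · have h6 : ¬ (i.val + 1 = k) := by omega
      rw [if_pos (Or.inl h5), if_pos h5, if_neg h6]
      ring
    · by_cases h6 : i.val + 1 = k
      · rw [if_pos (Or.inr h6), if_neg h5, if_pos h6]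
        ring
      · rw [if_neg (by tauto), if_neg h5, if_neg h6]
        ring
  · intro v
    have h1 := h (Sum.inr v)
    rw [sum_loop] at h1
    have h2 : ∀ x : Fin k, ad (.loop k r) (Sum.inr v) (Sum.inl x) ↔ False := fun x => Iff.rfl
    have h3 : ∀ w : VT r, ad (.loop k r) (Sum.inr v) (Sum.inr w) ↔ ad r v w := fun x => Iff.rfl
    have h4 : rt (.loop k r) (Sum.inr v) ↔ rt r v := Iff.rfl
    simp only [h2, h3, h4, if_false, Finset.sum_const_zero, zero_add] at h1
    exact h1

lemma Phi_loop {k : ℕ} {r : Tr} {l s : ℂ} {S : VT (.loop k r) → ℂ} (hk : 2 ≤ k) :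
    Phi (.loop k r) l s S = (l * S (Sum.inl ⟨0, by omega⟩) - s)
      + (l * S (Sum.inl ⟨k - 1, by omega⟩) - s) + Phi r l s (fun v => S (Sum.inr v)) := by
  unfold Phi
  rw [sum_loop]
  congr 1
  have h4 : ∀ i : Fin k, rt (.loop k r) (Sum.inl i) ↔ (i.val = 0 ∨ i.val + 1 = k) :=
    fun _ => Iff.rfl
  simp only [h4]
  have h5 : ∀ i : Fin k, (if (i.val = 0 ∨ i.val + 1 = k) then l * S (Sum.inl i) - s else 0)
      = (if i = ⟨0, by omega⟩ then l * S (Sum.inl i) - s else 0)
        + (if i = ⟨k - 1, by omega⟩ then l * S (Sum.inl i) - s else 0) := by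
    intro i
    by_cases h6 : i.val = 0
    · have h7 : ¬ (i.val + 1 = k) := by omega
      have h8 : i = ⟨0, by omega⟩ := Fin.ext h6
      have h9 : ¬ (i = ⟨k - 1, by omega⟩) := by
        intro h
        have := congrArg Fin.val h
        simp only at this
        omega
      rw [if_pos (Or.inl h6), if_pos h8, if_neg h9]
      ring
    · have h8 : ¬ (i = ⟨0, by omega⟩) := by
        intro h
        exact h6 (congrArg Fin.val h)
      by_cases h7 : i.val + 1 = k
      · have h9 : i = ⟨k - 1, by omega⟩ := by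
          apply Fin.ext
          simp only
          omega
        rw [if_pos (Or.inr h7), if_neg h8, if_pos h9]
        ring
      · have h9 : ¬ (i = ⟨k - 1, by omega⟩) := by
          intro h
          have := congrArg Fin.val h
          simp only at this
          omega
        rw [if_neg (by tauto), if_neg h8, if_neg h9]
        ring
  simp_rw [h5]
  rw [Finset.sum_add_distrib]
  simp

lemma EqT_child {c r : Tr} {l s : ℂ} {S : VT (.child c r) → ℂ}
    (h : EqT (.child c r) l s S) :
    ((l ^ 2 - 1) * S (Sum.inl none) = (l * s - S (Sum.inl none))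
      + Phi c l (S (Sum.inl none)) (fun v => S (Sum.inl (some v)))) ∧
    EqT c l (S (Sum.inl none)) (fun v => S (Sum.inl (some v))) ∧
    EqT r l s (fun v => S (Sum.inr v)) := by
  refine ⟨?_, ?_, ?_⟩
  · have h1 := h (Sum.inl none)
    rw [sum_child] at h1
    have h2 : ∀ x : VT r, ad (.child c r) (Sum.inl none) (Sum.inr x) ↔ False := fun x => Iff.rfl
    have h3 : ∀ x : VT c, ad (.child c r) (Sum.inl none) (Sum.inl (some x)) ↔ rt c x :=
      fun x => Iff.rfl
    have h4 : ad (.child c r) (Sum.inl none) (Sum.inl none) ↔ False := Iff.rfl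
    have h5 : rt (.child c r) (Sum.inl none) ↔ True := Iff.rfl
    simp only [h2, h3, h4, h5, if_false, if_true, Finset.sum_const_zero, add_zero, zero_add] at h1
    exact h1
  · intro v
    have h1 := h (Sum.inl (some v))
    rw [sum_child] at h1
    have h2 : ∀ x : VT r, ad (.child c r) (Sum.inl (some v)) (Sum.inr x) ↔ False := fun x => Iff.rfl
    have h3 : ∀ x : VT c, ad (.child c r) (Sum.inl (some v)) (Sum.inl (some x)) ↔ ad c v x :=
      fun x => Iff.rfl
    have h4 : ad (.child c r) (Sum.inl (some v)) (Sum.inl none) ↔ rt c v := Iff.rfl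
    have h5 : rt (.child c r) (Sum.inl (some v)) ↔ False := Iff.rfl
    simp only [h2, h3, h4, h5, if_false, Finset.sum_const_zero, add_zero, zero_add] at h1
    exact h1
  · intro v
    have h1 := h (Sum.inr v)
    rw [sum_child] at h1
    have h2 : ∀ x : VT c, ad (.child c r) (Sum.inr v) (Sum.inl (some x)) ↔ False := fun x => Iff.rfl
    have h3 : ∀ x : VT r, ad (.child c r) (Sum.inr v) (Sum.inr x) ↔ ad r v x :=
      fun x => Iff.rfl
    have h4 : ad (.child c r) (Sum.inr v) (Sum.inl none) ↔ False := Iff.rfl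
    have h5 : rt (.child c r) (Sum.inr v) ↔ rt r v := Iff.rfl
    simp only [h2, h3, h4, h5, if_false, Finset.sum_const_zero, add_zero, zero_add] at h1
    exact h1

lemma Phi_child {c r : Tr} {l s : ℂ} {S : VT (.child c r) → ℂ} :
    Phi (.child c r) l s S = (l * S (Sum.inl none) - s) + Phi r l s (fun v => S (Sum.inr v)) := by
  unfold Phi
  rw [sum_child]
  congr 1
  have h3 : ∀ x : VT c, rt (.child c r) (Sum.inl (some x)) ↔ False :=
      fun x => Iff.rfl
  have h4 : rt (.child c r) (Sum.inl none) ↔ True := Iff.rfl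
  simp only [h3, h4, if_false, if_true, Finset.sum_const_zero, add_zero]

/-- The algebra of combining two responses at a vertex. -/
lemma wedge_alg {g1 g2 P1 P2 s' : ℂ} (hD : 1 - g1 * g2 ≠ 0)
    (h1 : P1 = g1 * (s' - P1)) (h2 : P2 = g2 * (s' - P2)) :
    (P1 + P2) = W g1 g2 * (s' - (P1 + P2)) ∧
      (s' - (P1 + P2) = 0 → s' - P1 = 0 ∧ s' - P2 = 0) := by
  have e1 : (s' - P1) * (1 - g1 * g2) = (s' - (P1 + P2)) * (1 + g2) := by
    linear_combination h2 + g2 * h1
  have e2 : (s' - P2) * (1 - g1 * g2) = (s' - (P1 + P2)) * (1 + g1) := by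
    linear_combination h1 + g1 * h2
  constructor
  · unfold W
    rw [div_mul_eq_mul_div, eq_div_iff hD]
    linear_combination (1 - g1 * g2) * h1 + (1 - g1 * g2) * h2 + g1 * e1 + g2 * e2
  · intro h
    rw [h, zero_mul] at e1 e2
    constructor
    · rcases mul_eq_zero.mp e1 with h | h
      · exact h
      · exact absurd h hD
    · rcases mul_eq_zero.mp e2 with h | h
      · exact h
      · exact absurd h hD

lemma resp_nil {l : ℂ} (hl : 1 < ‖l‖) : Resp .nil l 0 := by
  intro s S _
  have h1 : Phi .nil l s S = 0 := by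
    unfold Phi
    apply Finset.sum_eq_zero
    intro v _
    exact v.elim
  rw [h1]
  refine ⟨by ring, ?_⟩
  intro h
  have h5 : l ^ 2 - 1 ≠ 0 := sub_ne_zero.mpr (one_lt_pow_norm hl (by omega))
  rw [sub_zero] at h
  refine ⟨?_, fun v => v.elim⟩
  rcases mul_eq_zero.mp h with h | h
  · exact absurd h h5
  · exact h

lemma resp_loop {k : ℕ} {r : Tr} {l u g : ℂ} (hl : 1 < ‖l‖) (hu : l * u = 1) (hk : 2 ≤ k)
    (hr : Resp r l g)
    (hD : 1 - (2 * u ^ (k + 1) / (1 - u ^ (k + 1))) * g ≠ 0) :
    Resp (.loop k r) l (W (2 * u ^ (k + 1) / (1 - u ^ (k + 1))) g) := by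
  intro s S hS
  obtain ⟨hp, hq⟩ := EqT_loop hk hS
  have hlu : l ^ (k + 1) * u ^ (k + 1) = 1 := by rw [← mul_pow, hu, one_pow]
  have hl1 : l ^ (k + 1) ≠ 1 := one_lt_pow_norm hl (by omega)
  have hu1 : 1 - u ^ (k + 1) ≠ 0 := by
    intro h
    apply hl1
    have : u ^ (k + 1) = 1 := by linear_combination -h
    rw [this] at hlu
    simpa using hlu
  have hk0 : 0 < k := by omega
  have m1 := path_main hp hk0
  have m2 := path_main (path_rev hp) hk0
  have hrev : Fin.rev (⟨0, hk0⟩ : Fin k) = ⟨k - 1, by omega⟩ := by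
    apply Fin.ext
    simp
  simp only [hrev] at m2
  rw [Phi_loop hk]
  set a := l * S (Sum.inl ⟨0, by omega⟩) - s with ha
  set b := l * S (Sum.inl ⟨k - 1, by omega⟩) - s with hb
  have h2k : l ^ (2 * (k + 1)) - 1 = (l ^ (k + 1) - 1) * (l ^ (k + 1) + 1) := by ring
  have hl1' : l ^ (k + 1) - 1 ≠ 0 := sub_ne_zero.mpr hl1
  have n1 : (l ^ (k + 1) + 1) * a = (l ^ 2 - 1) * s := by
    rw [h2k] at m1
    apply mul_left_cancel₀ hl1'
    linear_combination -m1
  have n2 : (l ^ (k + 1) + 1) * b = (l ^ 2 - 1) * s := by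
    rw [h2k] at m2
    apply mul_left_cancel₀ hl1'
    linear_combination -m2
  have key1 : a + b = 2 * u ^ (k + 1) / (1 - u ^ (k + 1)) * ((l ^ 2 - 1) * s - (a + b)) := by
    rw [div_mul_eq_mul_div, eq_div_iff hu1]
    linear_combination u ^ (k + 1) * (n1 + n2) - (a + b) * hlu
  obtain ⟨r1, r2⟩ := hr s _ hq
  obtain ⟨w1, w2⟩ := wedge_alg hD key1 r1
  refine ⟨w1, ?_⟩
  intro h
  obtain ⟨z1, z2⟩ := w2 h
  obtain ⟨s0, v0⟩ := r2 z2
  refine ⟨s0, ?_⟩
  subst s0
  intro v
  rcases v with i | v
  · exact path_zero hl hp i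
  · exact v0 v

lemma resp_child {c r : Tr} {l u gc g : ℂ} (hu : l * u = 1)
    (hc : Resp c l gc) (hr : Resp r l g) (hD : 1 - (u ^ 2 * gc) * g ≠ 0) :
    Resp (.child c r) l (W (u ^ 2 * gc) g) := by
  intro s S hS
  obtain ⟨h1, h2, h3⟩ := EqT_child hS
  rw [Phi_child]
  obtain ⟨c1, c2⟩ := hc _ _ h2
  obtain ⟨r1, r2⟩ := hr _ _ h3
  set w := S (Sum.inl none) with hw
  set P := Phi c l w (fun v => S (Sum.inl (some v))) with hP
  have hl0 : l ≠ 0 := left_ne_zero_of_mul_eq_one hu
  have hF : (l ^ 2 - 1) * w - P = l * s - w := by linear_combination h1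
  have key1 : (l * w - s) = u ^ 2 * gc * ((l ^ 2 - 1) * s - (l * w - s)) := by
    have e1 : l * (l * w - s) = gc * (l * s - w) := by
      rw [hF] at c1
      linear_combination h1 + c1
    have e2 : (l ^ 2 - 1) * s - (l * w - s) = l * (l * s - w) := by ring
    rw [e2]
    have e3 : u ^ 2 * gc * (l * (l * s - w)) = u * (l * u) * (gc * (l * s - w)) := by ring
    rw [e3, ← e1, hu]
    linear_combination (-(l * w - s)) * hu
  obtain ⟨w1, w2⟩ := wedge_alg hD key1 r1
  refine ⟨w1, ?_⟩
  intro h
  obtain ⟨z1, z2⟩ := w2 h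
  have e4 : (l ^ 2 - 1) * w - P = 0 := by
    rw [hF]
    have e2 : (l ^ 2 - 1) * s - (l * w - s) = l * (l * s - w) := by ring
    rw [e2] at z1
    rcases mul_eq_zero.mp z1 with h | h
    · exact absurd h hl0
    · exact h
  obtain ⟨w0, v0⟩ := c2 e4
  obtain ⟨s0, v1⟩ := r2 z2
  refine ⟨s0, ?_⟩
  intro v
  rcases v with (_ | v) | v
  · exact w0
  · exact v0 v
  · exact v1 v

end Pool.Agent.H66.NB
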