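import Mathlib
import Pool.Agent.H66.NB2

set_option autoImplicit false
open scoped Classical
open Finset

namespace Pool.Agent.H66.NB

/-! ### Two sided control of responses -/

/-- Value `a` at one half, bound `b` on the disc, Lipschitz around one half. -/
def Cls (u g : ℂ) (a b : ℚ) : Prop :=
  0 ≤ a ∧ a ≤ b ∧ ‖g‖ ≤ (b : ℝ) ∧ ‖g - (a : ℝ)‖ ≤ ((b : ℝ) - (a : ℝ)) * ((14 / 3) * ‖u - 1 / 2‖)

lemma Cls.mono {u g : ℂ} {a b b' : ℚ} (h : Cls u g a b) (hb : b ≤ b') : Cls u g a b' := by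
  obtain ⟨h1, h2, h3, h4⟩ := h
  have hb' : (b : ℝ) ≤ (b' : ℝ) := by exact_mod_cast hb
  refine ⟨h1, h2.trans hb, h3.trans hb', h4.trans ?_⟩
  apply mul_le_mul_of_nonneg_right
  · linarith
  · positivity

lemma Cls.zero (u : ℂ) : Cls u 0 0 0 := by
  refine ⟨le_rfl, le_rfl, ?_, ?_⟩ <;> simp

lemma Cls.const (u : ℂ) (a : ℚ) (ha : 0 ≤ a) : Cls u (a : ℂ) a a := by
  refine ⟨ha, le_rfl, ?_, ?_⟩
  · have : ((a : ℚ) : ℂ) = (((a : ℚ) : ℝ) : ℂ) := by push_cast; rfl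
    rw [this, Complex.norm_real, Real.norm_eq_abs, abs_of_nonneg]
    exact_mod_cast ha
  · have : ((a : ℚ) : ℂ) - (((a : ℚ) : ℝ) : ℂ) = 0 := by push_cast; ring
    rw [this]
    simp

lemma Cls.var {u : ℂ} (hu : ‖u‖ ≤ 5 / 7) : Cls u u (1 / 2) (5 / 7) := by
  refine ⟨by norm_num, by norm_num, ?_, ?_⟩
  · push_cast
    exact hu
  · push_cast
    have h1 : ((5 : ℝ) / 7 - 1 / 2) * (14 / 3 * ‖u - 1 / 2‖) = ‖u - 1 / 2‖ := by ring
    rw [h1]

lemma Cls.add {u g h : ℂ} {a b c d : ℚ} (h1 : Cls u g a b) (h2 : Cls u h c d) :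
    Cls u (g + h) (a + c) (b + d) := by
  obtain ⟨a1, a2, a3, a4⟩ := h1
  obtain ⟨b1, b2, b3, b4⟩ := h2
  refine ⟨by linarith, by linarith, ?_, ?_⟩
  · push_cast
    exact (norm_add_le _ _).trans (by linarith)
  · push_cast
    have h5 : g + h - ((a : ℂ) + (c : ℂ)) = (g - ((a : ℝ) : ℂ)) + (h - ((c : ℝ) : ℂ)) := by
      push_cast
      ring
    rw [h5]
    refine (norm_add_le _ _).trans ?_
    nlinarith

lemma Cls.mul {u g h : ℂ} {a b c d : ℚ} (h1 : Cls u g a b) (h2 : Cls u h c d) :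
    Cls u (g * h) (a * c) (b * d) := by
  obtain ⟨a1, a2, a3, a4⟩ := h1
  obtain ⟨b1, b2, b3, b4⟩ := h2
  have hb : 0 ≤ b := a1.trans a2
  have hd : 0 ≤ d := b1.trans b2
  refine ⟨mul_nonneg a1 b1, mul_le_mul a2 b2 b1 hb, ?_, ?_⟩
  · push_cast
    rw [norm_mul]
    apply mul_le_mul a3 b3 (norm_nonneg _)
    exact_mod_cast hb
  · push_cast
    have h5 : g * h - ((a : ℂ) * (c : ℂ)) = g * (h - ((c : ℝ) : ℂ)) + ((c : ℝ) : ℂ) * (g - ((a : ℝ) : ℂ)) := by
      push_cast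
      ring
    rw [h5]
    refine (norm_add_le _ _).trans ?_
    rw [norm_mul, norm_mul, Complex.norm_real, Real.norm_eq_abs,
      abs_of_nonneg (by exact_mod_cast b1 : (0 : ℝ) ≤ (c : ℝ))]
    set κ := (14 / 3) * ‖u - 1 / 2‖ with hκ
    have hκ0 : 0 ≤ κ := by positivity
    have hbR : (0 : ℝ) ≤ (b : ℝ) := by exact_mod_cast hb
    have hcR : (0 : ℝ) ≤ (c : ℝ) := by exact_mod_cast b1
    have e1 : ‖g‖ * ‖h - ((c : ℝ) : ℂ)‖ ≤ (b : ℝ) * (((d : ℝ) - (c : ℝ)) * κ) :=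
      mul_le_mul a3 b4 (norm_nonneg _) hbR
    have e2 : (c : ℝ) * ‖g - ((a : ℝ) : ℂ)‖ ≤ (c : ℝ) * (((b : ℝ) - (a : ℝ)) * κ) :=
      mul_le_mul_of_nonneg_left a4 hcR
    calc ‖g‖ * ‖h - ((c : ℝ) : ℂ)‖ + (c : ℝ) * ‖g - ((a : ℝ) : ℂ)‖
        ≤ (b : ℝ) * (((d : ℝ) - (c : ℝ)) * κ) + (c : ℝ) * (((b : ℝ) - (a : ℝ)) * κ) := add_le_add e1 e2
      _ = ((b : ℝ) * (d : ℝ) - (a : ℝ) * (c : ℝ)) * κ := by ring

lemma Cls.pow {u g : ℂ} {a b : ℚ} (h : Cls u g a b) (n : ℕ) : Cls u (g ^ n) (a ^ n) (b ^ n) := by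
  induction n with
  | zero =>
    have := Cls.const u 1 (by norm_num)
    simpa using this
  | succ n ih =>
    rw [pow_succ, pow_succ, pow_succ]
    exact ih.mul h

lemma Cls.one_sub_ne {u g : ℂ} {a b : ℚ} (h : Cls u g a b) (hb : b < 1) : 1 - g ≠ 0 := by
  intro h1
  have h2 : g = 1 := by linear_combination -h1
  have h3 := h.2.2.1
  rw [h2] at h3
  have h4 : (b : ℝ) < 1 := by exact_mod_cast hb
  simp at h3
  linarith

lemma Cls.inv {u g : ℂ} {a b : ℚ} (h : Cls u g a b) (hb : b < 1) :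
    Cls u (1 / (1 - g)) (1 / (1 - a)) (1 / (1 - b)) := by
  have hne := h.one_sub_ne hb
  obtain ⟨a1, a2, a3, a4⟩ := h
  have hb1 : 0 < 1 - b := by linarith
  have ha1 : 0 < 1 - a := by linarith
  have hb1R : (0 : ℝ) < 1 - (b : ℝ) := by exact_mod_cast hb1
  have ha1R : (0 : ℝ) < 1 - (a : ℝ) := by exact_mod_cast ha1
  have hn : 1 - (b : ℝ) ≤ ‖1 - g‖ := by
    have := norm_sub_norm_le (1 : ℂ) g
    rw [norm_one] at this
    linarith
  have hn0 : 0 < ‖1 - g‖ := lt_of_lt_of_le hb1R hn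
  refine ⟨by positivity, ?_, ?_, ?_⟩
  · apply one_div_le_one_div_of_le hb1
    linarith
  · rw [norm_div, norm_one]
    push_cast
    exact one_div_le_one_div_of_le hb1R hn
  · have haC : (1 : ℂ) - (a : ℂ) ≠ 0 := by
      have : ((1 - (a : ℝ) : ℝ) : ℂ) ≠ 0 := by exact_mod_cast ha1R.ne'
      push_cast at this
      exact this
    have h5 : 1 / (1 - g) - (((1 / (1 - a) : ℚ) : ℝ) : ℂ) = (g - ((a : ℝ) : ℂ)) / ((1 - g) * (1 - (a : ℂ))) := by
      push_cast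
      field_simp
      ring
    rw [h5, norm_div, norm_mul]
    have h6 : ‖(1 : ℂ) - (a : ℂ)‖ = 1 - (a : ℝ) := by
      have : (1 : ℂ) - (a : ℂ) = ((1 - (a : ℝ) : ℝ) : ℂ) := by push_cast; rfl
      rw [this, Complex.norm_real, Real.norm_eq_abs, abs_of_pos ha1R]
    rw [h6]
    set κ := (14 / 3) * ‖u - 1 / 2‖ with hκ
    have hκ0 : 0 ≤ κ := by positivity
    have e1 : ‖g - ((a : ℝ) : ℂ)‖ / (‖1 - g‖ * (1 - (a : ℝ)))
        ≤ (((b : ℝ) - (a : ℝ)) * κ) / ((1 - (b : ℝ)) * (1 - (a : ℝ))) := by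
      apply div_le_div₀
      · apply mul_nonneg _ hκ0
        have : (a : ℝ) ≤ (b : ℝ) := by exact_mod_cast a2
        linarith
      · exact a4
      · positivity
      · exact mul_le_mul_of_nonneg_right hn ha1R.le
    refine e1.trans (le_of_eq ?_)
    push_cast
    field_simp
    ring

/-- Rational version of `W`. -/
def WQ (a b : ℚ) : ℚ := (a + b + 2 * (a * b)) * (1 / (1 - a * b))

lemma Cls.wedge {u g h : ℂ} {a b c d : ℚ} (h1 : Cls u g a b) (h2 : Cls u h c d)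
    (hbd : b * d < 1) : Cls u (W g h) (WQ a c) (WQ b d) ∧ 1 - g * h ≠ 0 := by
  have hm := h1.mul h2
  refine ⟨?_, hm.one_sub_ne hbd⟩
  have h3 := hm.inv hbd
  have h4 := (h1.add h2).add ((Cls.const u 2 (by norm_num)).mul hm)
  have h5 := h4.mul h3
  have h6 : W g h = (g + h + ((2 : ℚ) : ℂ) * (g * h)) * (1 / (1 - g * h)) := by
    unfold W
    push_cast
    ring
  rw [h6]
  exact h5

/-! ### Certified gadgets -/

/-- Values of a loop gadget with `k` new vertices. -/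
def lpQ (x : ℚ) (k : ℕ) : ℚ := (2 * x ^ (k + 1)) * (1 / (1 - x ^ (k + 1)))

/-- Gadgets with exact value `a` at two and bound `b` on the outer region. -/
inductive Has : Tr → ℚ → ℚ → Prop
  | nil : Has .nil 0 0
  | loop (k : ℕ) (r : Tr) (a b : ℚ) : 2 ≤ k → Has r a b → lpQ (5 / 7) k * b < 1 →
      Has (.loop k r) (WQ (lpQ (1 / 2) k) a) (WQ (lpQ (5 / 7) k) b)
  | child (c r : Tr) (ac bc a b : ℚ) : Has c ac bc → 0 < ac → Has r a b →
      (25 / 49 * bc) * b < 1 →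
      Has (.child c r) (WQ (1 / 4 * ac) a) (WQ (25 / 49 * bc) b)
  | mono (t : Tr) (a b b' : ℚ) : Has t a b → b ≤ b' → Has t a b'

lemma Cls.loop {u : ℂ} (hu : ‖u‖ ≤ 5 / 7) (k : ℕ) :
    Cls u (2 * u ^ (k + 1) / (1 - u ^ (k + 1))) (lpQ (1 / 2) k) (lpQ (5 / 7) k) := by
  have h1 := (Cls.var hu).pow (k + 1)
  have hlt : ((5 : ℚ) / 7) ^ (k + 1) < 1 := by
    apply pow_lt_one₀ (by norm_num) (by norm_num) (by omega)
  have h2 := h1.inv hlt
  have h3 := ((Cls.const u 2 (by norm_num)).mul h1).mul h2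
  have h6 : 2 * u ^ (k + 1) / (1 - u ^ (k + 1))
      = ((2 : ℚ) : ℂ) * u ^ (k + 1) * (1 / (1 - u ^ (k + 1))) := by
    push_cast
    ring
  rw [h6]
  exact h3

lemma Cls.stem {u g : ℂ} {a b : ℚ} (hu : ‖u‖ ≤ 5 / 7) (h : Cls u g a b) :
    Cls u (u ^ 2 * g) (1 / 4 * a) (25 / 49 * b) := by
  have h1 := ((Cls.var hu).pow 2).mul h
  have e1 : ((1 : ℚ) / 2) ^ 2 = 1 / 4 := by norm_num
  have e2 : ((5 : ℚ) / 7) ^ 2 = 25 / 49 := by norm_num
  rw [e1, e2] at h1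
  exact h1

lemma norm_gt_one {l u : ℂ} (hu : ‖u‖ ≤ 5 / 7) (hlu : l * u = 1) : 1 < ‖l‖ := by
  have h1 : ‖l‖ * ‖u‖ = 1 := by rw [← norm_mul, hlu, norm_one]
  by_contra h
  push Not at h
  have h2 : ‖l‖ * ‖u‖ ≤ 1 * (5 / 7) := mul_le_mul h hu (norm_nonneg _) (by norm_num)
  linarith

theorem Has.resp {t : Tr} {a b : ℚ} (h : Has t a b) {l u : ℂ} (hu : ‖u‖ ≤ 5 / 7)
    (hlu : l * u = 1) : ∃ g, Resp t l g ∧ Cls u g a b := by
  have hl := norm_gt_one hu hlu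
  induction h with
  | nil => exact ⟨0, resp_nil hl, Cls.zero u⟩
  | loop k r a b hk _ hlt ih =>
    obtain ⟨g, h1, h2⟩ := ih
    obtain ⟨h3, h4⟩ := (Cls.loop hu k).wedge h2 hlt
    exact ⟨_, resp_loop hl hlu hk h1 h4, h3⟩
  | child c r ac bc a b _ _ _ hlt ih1 ih2 =>
    obtain ⟨gc, c1, c2⟩ := ih1
    obtain ⟨g, h1, h2⟩ := ih2
    obtain ⟨h3, h4⟩ := (c2.stem hu).wedge h2 hlt
    exact ⟨_, resp_child hlu c1 h1 h4, h3⟩
  | mono t a b b' _ hb ih =>
    obtain ⟨g, h1, h2⟩ := ih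
    exact ⟨g, h1, h2.mono hb⟩

/-! ### Integer polynomials as lists -/

/-- Evaluation. -/
noncomputable def ev : List ℤ → ℂ → ℂ
  | [], _ => 0
  | a :: p, u => (a : ℂ) + u * ev p u

def ladd : List ℤ → List ℤ → List ℤ
  | [], q => q
  | a :: p, [] => a :: p
  | a :: p, b :: q => (a + b) :: ladd p q

def lsmul (a : ℤ) : List ℤ → List ℤ
  | [] => []
  | b :: q => (a * b) :: lsmul a q

def lmul : List ℤ → List ℤ → List ℤ
  | [], _ => []
  | a :: p, q => ladd (lsmul a q) (0 :: lmul p q)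

def lsub (p q : List ℤ) : List ℤ := ladd p (lsmul (-1) q)

def lX (k : ℕ) : List ℤ := List.replicate k 0 ++ [1]

lemma ev_ladd (p q : List ℤ) (u : ℂ) : ev (ladd p q) u = ev p u + ev q u := by
  induction p generalizing q with
  | nil => simp [ladd, ev]
  | cons a p ih =>
    cases q with
    | nil => simp [ladd, ev]
    | cons b q =>
      simp only [ladd, ev, ih]
      push_cast
      ring

lemma ev_lsmul (a : ℤ) (p : List ℤ) (u : ℂ) : ev (lsmul a p) u = (a : ℂ) * ev p u := by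
  induction p with
  | nil => simp [lsmul, ev]
  | cons b p ih =>
    simp only [lsmul, ev, ih]
    push_cast
    ring

lemma ev_lmul (p q : List ℤ) (u : ℂ) : ev (lmul p q) u = ev p u * ev q u := by
  induction p with
  | nil => simp [lmul, ev]
  | cons a p ih =>
    simp only [lmul, ev_ladd, ev_lsmul, ev, ih]
    push_cast
    ring

lemma ev_lsub (p q : List ℤ) (u : ℂ) : ev (lsub p q) u = ev p u - ev q u := by
  unfold lsub
  rw [ev_ladd, ev_lsmul]
  push_cast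
  ring

lemma ev_lX (k : ℕ) (u : ℂ) : ev (lX k) u = u ^ k := by
  unfold lX
  induction k with
  | zero => simp [ev]
  | succ k ih =>
    rw [List.replicate_succ, List.cons_append]
    simp only [ev]
    rw [ih]
    push_cast
    ring

/-- Scaled norm on the disc of radius five sevenths: value and scale. -/
def nI : List ℤ → ℕ × ℕ
  | [] => (0, 1)
  | a :: p => (a.natAbs * (7 * (nI p).2) + 5 * (nI p).1, 7 * (nI p).2)

lemma nI_pos (p : List ℤ) : 0 < (nI p).2 := by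
  induction p with
  | nil => simp [nI]
  | cons a p ih =>
    simp only [nI]
    omega

lemma ev_norm (p : List ℤ) {u : ℂ} (hu : ‖u‖ ≤ 5 / 7) : ‖ev p u‖ * ((nI p).2 : ℝ) ≤ ((nI p).1 : ℝ) := by
  induction p with
  | nil => simp [ev, nI]
  | cons a p ih =>
    simp only [ev, nI]
    push_cast
    have h1 : ‖(a : ℂ) + u * ev p u‖ ≤ |(a : ℝ)| + 5 / 7 * ‖ev p u‖ := by
      refine (norm_add_le _ _).trans ?_
      have e1 : ‖(a : ℂ)‖ = |(a : ℝ)| := by
        have : (a : ℂ) = ((a : ℝ) : ℂ) := by push_cast; rfl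
        rw [this, Complex.norm_real, Real.norm_eq_abs]
      rw [e1, norm_mul]
      have := mul_le_mul_of_nonneg_right hu (norm_nonneg (ev p u))
      linarith
    have h2 : ((a.natAbs : ℕ) : ℝ) = |(a : ℝ)| := by
      rw [Nat.cast_natAbs]
      push_cast
      rfl
    have h3 : (0 : ℝ) < ((nI p).2 : ℝ) := by exact_mod_cast nI_pos p
    rw [h2]
    nlinarith [mul_le_mul_of_nonneg_right h1 h3.le]

/-! ### Numerators and denominators of responses -/

/-- Numerator and denominator of the combination. -/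
def lcomb (x y : List ℤ × List ℤ) : List ℤ × List ℤ :=
  (ladd (ladd (lmul x.1 y.2) (lmul y.1 x.2)) (lsmul 2 (lmul x.1 y.1)),
    lsub (lmul x.2 y.2) (lmul x.1 y.1))

/-- Numerator and denominator of the response of a gadget. -/
def nd : Tr → List ℤ × List ℤ
  | .nil => ([], [1])
  | .loop k r => lcomb (lsmul 2 (lX (k + 1)), lsub [1] (lX (k + 1))) (nd r)
  | .child c r => lcomb (lmul (lX 2) (nd c).1, (nd c).2) (nd r)

lemma W_frac {g1 g2 n1 n2 d1 d2 : ℂ} (h1 : g1 * d1 = n1) (h2 : g2 * d2 = n2)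
    (hd1 : d1 ≠ 0) (hd2 : d2 ≠ 0) (hD : 1 - g1 * g2 ≠ 0) :
    W g1 g2 * (d1 * d2 - n1 * n2) = n1 * d2 + n2 * d1 + 2 * (n1 * n2) ∧ d1 * d2 - n1 * n2 ≠ 0 := by
  have e1 : d1 * d2 - n1 * n2 = d1 * d2 * (1 - g1 * g2) := by
    rw [← h1, ← h2]
    ring
  rw [e1]
  refine ⟨?_, mul_ne_zero (mul_ne_zero hd1 hd2) hD⟩
  unfold W
  rw [← h1, ← h2]
  field_simp

theorem Has.resp_nd {t : Tr} {a b : ℚ} (h : Has t a b) {l u : ℂ} (hu : ‖u‖ ≤ 5 / 7)
    (hlu : l * u = 1) : ∃ g, Resp t l g ∧ Cls u g a b ∧ g * ev (nd t).2 u = ev (nd t).1 u ∧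
      ev (nd t).2 u ≠ 0 := by
  have hl := norm_gt_one hu hlu
  induction h with
  | nil => exact ⟨0, resp_nil hl, Cls.zero u, by simp [nd, ev], by simp [nd, ev]⟩
  | loop k r a b hk _ hlt ih =>
    obtain ⟨g, h1, h2, h5, h6⟩ := ih
    obtain ⟨h3, h4⟩ := (Cls.loop hu k).wedge h2 hlt
    refine ⟨_, resp_loop hl hlu hk h1 h4, h3, ?_⟩
    have hlt2 : ((5 : ℚ) / 7) ^ (k + 1) < 1 := by
      apply pow_lt_one₀ (by norm_num) (by norm_num) (by omega)
    have hu1 : 1 - u ^ (k + 1) ≠ 0 := ((Cls.var hu).pow (k + 1)).one_sub_ne hlt2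
    have hx : 2 * u ^ (k + 1) / (1 - u ^ (k + 1)) * (1 - u ^ (k + 1)) = 2 * u ^ (k + 1) :=
      div_mul_cancel₀ _ hu1
    obtain ⟨e1, e2⟩ := W_frac hx h5 hu1 h6 h4
    simp only [nd, lcomb, ev_ladd, ev_lmul, ev_lsub, ev_lsmul, ev_lX]
    simp only [ev]
    push_cast
    constructor
    · linear_combination e1
    · intro h
      apply e2
      linear_combination h
  | child c r ac bc a b _ _ _ hlt ih1 ih2 =>
    obtain ⟨gc, c1, c2, c3, c4⟩ := ih1
    obtain ⟨g, h1, h2, h5, h6⟩ := ih2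
    obtain ⟨h3, h4⟩ := (c2.stem hu).wedge h2 hlt
    refine ⟨_, resp_child hlu c1 h1 h4, h3, ?_⟩
    have hx : u ^ 2 * gc * ev (nd c).2 u = u ^ 2 * ev (nd c).1 u := by
      rw [← c3]
      ring
    obtain ⟨e1, e2⟩ := W_frac hx h5 c4 h6 h4
    simp only [nd, lcomb, ev_ladd, ev_lmul, ev_lsub, ev_lsmul, ev_lX]
    push_cast
    constructor
    · linear_combination e1
    · intro h
      apply e2
      linear_combination h
  | mono t a b b' _ hb ih =>
    obtain ⟨g, h1, h2, h3⟩ := ih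
    exact ⟨g, h1, h2.mono hb, h3⟩

/-! ### Computable certificates for closed gadgets -/

def aQ : Tr → ℚ
  | .nil => 0
  | .loop k r => WQ (lpQ (1 / 2) k) (aQ r)
  | .child c r => WQ (1 / 4 * aQ c) (aQ r)

def bQ : Tr → ℚ
  | .nil => 0
  | .loop k r => WQ (lpQ (5 / 7) k) (bQ r)
  | .child c r => WQ (25 / 49 * bQ c) (bQ r)

def okQ : Tr → Bool
  | .nil => true
  | .loop k r => decide (2 ≤ k) && (okQ r && decide (lpQ (5 / 7) k * bQ r < 1))
  | .child c r => okQ c && (decide (0 < aQ c) && (okQ r && decide ((25 / 49 * bQ c) * bQ r < 1)))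

lemma has_of_ok : ∀ t : Tr, okQ t = true → Has t (aQ t) (bQ t)
  | .nil => fun _ => Has.nil
  | .loop k r => fun h => by
    simp only [okQ, Bool.and_eq_true, decide_eq_true_eq] at h
    exact Has.loop k r _ _ h.1 (has_of_ok r h.2.1) h.2.2
  | .child c r => fun h => by
    simp only [okQ, Bool.and_eq_true, decide_eq_true_eq] at h
    exact Has.child c r _ _ _ _ (has_of_ok c h.1) h.2.1 (has_of_ok r h.2.2.1) h.2.2.2

/-- Nested children with side gadgets. -/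
def ctx : List Tr → Tr → Tr
  | [], X => X
  | R :: rs, X => .child (ctx rs X) R

def aC (x : ℚ) : List Tr → ℚ
  | [] => x
  | R :: rs => WQ (1 / 4 * aC x rs) (aQ R)

def bC (y : ℚ) : List Tr → ℚ
  | [] => y
  | R :: rs => WQ (25 / 49 * bC y rs) (bQ R)

def okC (x y : ℚ) : List Tr → Bool
  | [] => true
  | R :: rs => okC x y rs && (decide (0 < aC x rs) && (okQ R && decide ((25 / 49 * bC y rs) * bQ R < 1)))

lemma has_ctx {x y : ℚ} {X : Tr} (hX : Has X x y) : ∀ rs : List Tr, okC x y rs = true →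
    Has (ctx rs X) (aC x rs) (bC y rs)
  | [] => fun _ => hX
  | R :: rs => fun h => by
    simp only [okC, Bool.and_eq_true, decide_eq_true_eq] at h
    exact Has.child _ _ _ _ _ _ (has_ctx hX rs h.1) h.2.1 (has_of_ok R h.2.2.1) h.2.2.2

/-- Numerator and denominator of the response as Moebius function of the tail. -/
def mob : List Tr → (List ℤ × List ℤ) × (List ℤ × List ℤ)
  | [] => (([], [1]), ([1], []))
  | R :: rs =>
    let m := mob rs
    let q := nd R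
    let a0 := lmul (lX 2) m.1.1
    let a1 := lmul (lX 2) m.1.2
    ((ladd (ladd (lmul a0 q.2) (lmul q.1 m.2.1)) (lsmul 2 (lmul a0 q.1)),
      ladd (ladd (lmul a1 q.2) (lmul q.1 m.2.2)) (lsmul 2 (lmul a1 q.1))),
     (lsub (lmul m.2.1 q.2) (lmul a0 q.1), lsub (lmul m.2.2 q.2) (lmul a1 q.1)))

theorem ctx_resp {x y : ℚ} {X : Tr} (hX : Has X x y) {l u : ℂ} (hu : ‖u‖ ≤ 5 / 7)
    (hlu : l * u = 1) : ∃ z, Cls u z x y ∧ ∀ rs : List Tr, okC x y rs = true →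
      ∃ g, Resp (ctx rs X) l g ∧ Cls u g (aC x rs) (bC y rs) ∧
        g * (ev (mob rs).2.1 u + z * ev (mob rs).2.2 u)
          = ev (mob rs).1.1 u + z * ev (mob rs).1.2 u ∧
        ev (mob rs).2.1 u + z * ev (mob rs).2.2 u ≠ 0 := by
  obtain ⟨z, z1, z2⟩ := hX.resp hu hlu
  refine ⟨z, z2, ?_⟩
  intro rs
  induction rs with
  | nil =>
    intro _
    exact ⟨z, z1, z2, by simp [mob, ev], by simp [mob, ev]⟩
  | cons R rs ih =>
    intro h
    simp only [okC, Bool.and_eq_true, decide_eq_true_eq] at h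
    obtain ⟨gc, c1, c2, c3, c4⟩ := ih h.1
    obtain ⟨g, h1, h2, h5, h6⟩ := (has_of_ok R h.2.2.1).resp_nd hu hlu
    obtain ⟨h3, h4⟩ := (c2.stem hu).wedge h2 h.2.2.2
    refine ⟨_, resp_child hlu c1 h1 h4, h3, ?_⟩
    have hx : u ^ 2 * gc * (ev (mob rs).2.1 u + z * ev (mob rs).2.2 u)
        = u ^ 2 * (ev (mob rs).1.1 u + z * ev (mob rs).1.2 u) := by
      rw [← c3]
      ring
    obtain ⟨e1, e2⟩ := W_frac hx h5 c4 h6 h4
    simp only [mob, ev_ladd, ev_lmul, ev_lsub, ev_lsmul, ev_lX]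
    push_cast
    constructor
    · linear_combination e1
    · intro h
      apply e2
      linear_combination h

end Pool.Agent.H66.NB
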