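import Mathlib
import Pool.Agent.H66.NB3
import Pool.Agent.H66.NB1

set_option autoImplicit false
open scoped Classical
open Finset

namespace Pool.Agent.H66.NB

/-! ### Threads between two hubs -/

/-- Interior vertices of the threads. -/
def TV : List ℕ → Type
  | [] => Empty
  | k :: ks => Fin k ⊕ TV ks

instance instFTV : (ks : List ℕ) → Fintype (TV ks)
  | [] => inferInstanceAs (Fintype Empty)
  | k :: ks => letI := instFTV ks; inferInstanceAs (Fintype (Fin k ⊕ TV ks))

/-- Adjacent to the first hub. -/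
def h0 : (ks : List ℕ) → TV ks → Prop
  | [] => fun _ => False
  | _ :: ks => fun v => match v with
    | Sum.inl i => i.val = 0
    | Sum.inr v => h0 ks v

/-- Adjacent to the second hub. -/
def h1 : (ks : List ℕ) → TV ks → Prop
  | [] => fun _ => False
  | k :: ks => fun v => match v with
    | Sum.inl i => i.val + 1 = k
    | Sum.inr v => h1 ks v

def adT : (ks : List ℕ) → TV ks → TV ks → Prop
  | [] => fun _ _ => False
  | _ :: ks => fun v w => match v, w with
    | Sum.inl i, Sum.inl j => i.val + 1 = j.val ∨ j.val + 1 = i.val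
    | Sum.inr v, Sum.inr w => adT ks v w
    | Sum.inl _, Sum.inr _ => False
    | Sum.inr _, Sum.inl _ => False

lemma adT_symm : ∀ (ks : List ℕ) (v w : TV ks), adT ks v w → adT ks w v
  | [] => fun v _ _ => v.elim
  | k :: ks => by
    rintro (i | v) (j | w) h
    · exact Or.symm h
    · exact h
    · exact h
    · exact adT_symm ks v w h

lemma adT_irrefl : ∀ (ks : List ℕ) (v : TV ks), ¬ adT ks v v
  | [] => fun v => v.elim
  | k :: ks => by
    rintro (i | v) h
    · rcases h with h | h <;> omega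
    · exact adT_irrefl ks v h

lemma sum_TV {k : ℕ} {ks : List ℕ} (F : TV (k :: ks) → ℂ) :
    ∑ x, F x = (∑ i : Fin k, F (Sum.inl i)) + ∑ x : TV ks, F (Sum.inr x) :=
  Fintype.sum_sum_type F

def EqTh (ks : List ℕ) (l s s' : ℂ) (S : TV ks → ℂ) : Prop :=
  ∀ v, (l ^ 2 - 1) * S v = (if h0 ks v then l * s - S v else 0)
    + (if h1 ks v then l * s' - S v else 0) + ∑ w, if adT ks v w then l * S w - S v else 0

noncomputable def P0 (ks : List ℕ) (l s : ℂ) (S : TV ks → ℂ) : ℂ :=
  ∑ v, if h0 ks v then l * S v - s else 0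

noncomputable def P1 (ks : List ℕ) (l s : ℂ) (S : TV ks → ℂ) : ℂ :=
  ∑ v, if h1 ks v then l * S v - s else 0

noncomputable def pS (u : ℂ) : List ℕ → ℂ
  | [] => 0
  | k :: ks => u ^ (k + 1) / (1 - u ^ (2 * (k + 1))) + pS u ks

noncomputable def rS (u : ℂ) : List ℕ → ℂ
  | [] => 0
  | k :: ks => u ^ (2 * (k + 1)) / (1 - u ^ (2 * (k + 1))) + rS u ks

lemma EqTh_cons {k : ℕ} {ks : List ℕ} {l s s' : ℂ} {S : TV (k :: ks) → ℂ}
    (h : EqTh (k :: ks) l s s' S) :
    PathEq k l s s' (fun i => S (Sum.inl i)) ∧ EqTh ks l s s' (fun v => S (Sum.inr v)) := by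
  constructor
  · intro i
    have e1 := h (Sum.inl i)
    rw [sum_TV] at e1
    have e2 : ∀ x : TV ks, adT (k :: ks) (Sum.inl i) (Sum.inr x) ↔ False := fun x => Iff.rfl
    have e3 : ∀ j : Fin k, adT (k :: ks) (Sum.inl i) (Sum.inl j) ↔
        (i.val + 1 = j.val ∨ j.val + 1 = i.val) := fun x => Iff.rfl
    have e4 : h0 (k :: ks) (Sum.inl i) ↔ (i.val = 0) := Iff.rfl
    have e5 : h1 (k :: ks) (Sum.inl i) ↔ (i.val + 1 = k) := Iff.rfl
    simp only [e2, e3, e4, e5, if_false, Finset.sum_const_zero, add_zero] at e1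
    exact e1
  · intro v
    have e1 := h (Sum.inr v)
    rw [sum_TV] at e1
    have e2 : ∀ x : Fin k, adT (k :: ks) (Sum.inr v) (Sum.inl x) ↔ False := fun x => Iff.rfl
    have e3 : ∀ w : TV ks, adT (k :: ks) (Sum.inr v) (Sum.inr w) ↔ adT ks v w := fun x => Iff.rfl
    have e4 : h0 (k :: ks) (Sum.inr v) ↔ h0 ks v := Iff.rfl
    have e5 : h1 (k :: ks) (Sum.inr v) ↔ h1 ks v := Iff.rfl
    simp only [e2, e3, e4, e5, if_false, Finset.sum_const_zero, zero_add] at e1
    exact e1

lemma P0_cons {k : ℕ} {ks : List ℕ} {l s : ℂ} {S : TV (k :: ks) → ℂ} (hk : 0 < k) :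
    P0 (k :: ks) l s S = (l * S (Sum.inl ⟨0, hk⟩) - s) + P0 ks l s (fun v => S (Sum.inr v)) := by
  unfold P0
  rw [sum_TV]
  congr 1
  have e4 : ∀ i : Fin k, h0 (k :: ks) (Sum.inl i) ↔ (i = ⟨0, hk⟩) := by
    intro i
    constructor
    · intro h
      exact Fin.ext h
    · intro h
      rw [h]
      rfl
  simp only [e4]
  simp

lemma P1_cons {k : ℕ} {ks : List ℕ} {l s : ℂ} {S : TV (k :: ks) → ℂ} (hk : 0 < k) :
    P1 (k :: ks) l s S = (l * S (Sum.inl ⟨k - 1, by omega⟩) - s)
      + P1 ks l s (fun v => S (Sum.inr v)) := by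
  unfold P1
  rw [sum_TV]
  congr 1
  have e4 : ∀ i : Fin k, h1 (k :: ks) (Sum.inl i) ↔ (i = ⟨k - 1, by omega⟩) := by
    intro i
    constructor
    · intro h
      apply Fin.ext
      have : i.val + 1 = k := h
      simp only
      omega
    · intro h
      rw [h]
      show k - 1 + 1 = k
      omega
  simp only [e4]
  simp

lemma thread_resp {ks : List ℕ} (hks : ∀ k ∈ ks, 0 < k) {l u s s' : ℂ} {S : TV ks → ℂ}
    (hl : 1 < ‖l‖) (hlu : l * u = 1) (h : EqTh ks l s s' S) :
    P0 ks l s S = (l ^ 2 - 1) * (pS u ks * s' - rS u ks * s) ∧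
    P1 ks l s' S = (l ^ 2 - 1) * (pS u ks * s - rS u ks * s') := by
  induction ks with
  | nil =>
    constructor
    · unfold P0
      rw [Finset.sum_eq_zero]
      · simp [pS, rS]
      · intro v _
        exact v.elim
    · unfold P1
      rw [Finset.sum_eq_zero]
      · simp [pS, rS]
      · intro v _
        exact v.elim
  | cons k ks ih =>
    obtain ⟨hp, hq⟩ := EqTh_cons h
    have hk : 0 < k := hks k List.mem_cons_self
    obtain ⟨i0, i1⟩ := ih (fun j hj => hks j (List.mem_cons_of_mem _ hj)) hq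
    rw [P0_cons hk, P1_cons hk, i0, i1]
    have m1 := path_main hp hk
    have m2 := path_main (path_rev hp) hk
    have hrev : Fin.rev (⟨0, hk⟩ : Fin k) = ⟨k - 1, by omega⟩ := by
      apply Fin.ext
      simp
    simp only [hrev] at m2
    have hLU : l ^ (k + 1) * u ^ (k + 1) = 1 := by rw [← mul_pow, hlu, one_pow]
    have hlt : l ^ (2 * (k + 1)) ≠ 1 := one_lt_pow_norm hl (by omega)
    have hLU2 : l ^ (2 * (k + 1)) * u ^ (2 * (k + 1)) = 1 := by rw [← mul_pow, hlu, one_pow]
    have hu1 : 1 - u ^ (2 * (k + 1)) ≠ 0 := by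
      intro h
      apply hlt
      have : u ^ (2 * (k + 1)) = 1 := by linear_combination -h
      rw [this] at hLU2
      simpa using hLU2
    have hL2 : l ^ (2 * (k + 1)) = l ^ (k + 1) * l ^ (k + 1) := by ring
    have hU2 : u ^ (2 * (k + 1)) = u ^ (k + 1) * u ^ (k + 1) := by ring
    simp only [pS, rS]
    rw [hU2] at hu1 ⊢
    rw [hL2] at m1 m2
    set L := l ^ (k + 1) with hL
    set U := u ^ (k + 1) with hU
    have a1 : l * S (Sum.inl ⟨0, hk⟩) - s
        = (l ^ 2 - 1) * (U / (1 - U * U) * s' - U * U / (1 - U * U) * s) := by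
      have e1 : (l * S (Sum.inl ⟨0, hk⟩) - s) * (1 - U * U) = (l ^ 2 - 1) * (U * s' - U * U * s) := by
        linear_combination (-(U * U)) * m1 + (l ^ 2 - 1) * (U * s') * hLU
          + (l * S (Sum.inl ⟨0, hk⟩) - s) * (-(L * U) - 1) * hLU
      have e2 : (l ^ 2 - 1) * (U / (1 - U * U) * s' - U * U / (1 - U * U) * s)
          = (l ^ 2 - 1) * (U * s' - U * U * s) / (1 - U * U) := by ring
      rw [e2, eq_div_iff hu1]
      exact e1
    have a2 : l * S (Sum.inl ⟨k - 1, by omega⟩) - s'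
        = (l ^ 2 - 1) * (U / (1 - U * U) * s - U * U / (1 - U * U) * s') := by
      have e1 : (l * S (Sum.inl ⟨k - 1, by omega⟩) - s') * (1 - U * U)
          = (l ^ 2 - 1) * (U * s - U * U * s') := by
        linear_combination (-(U * U)) * m2 + (l ^ 2 - 1) * (U * s) * hLU
          + (l * S (Sum.inl ⟨k - 1, by omega⟩) - s') * (-(L * U) - 1) * hLU
      have e2 : (l ^ 2 - 1) * (U / (1 - U * U) * s - U * U / (1 - U * U) * s')
          = (l ^ 2 - 1) * (U * s - U * U * s') / (1 - U * U) := by ring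
      rw [e2, eq_div_iff hu1]
      exact e1
    rw [a1, a2]
    constructor <;> ring

lemma thread_zero {ks : List ℕ} {l : ℂ} {S : TV ks → ℂ}
    (hl : 1 < ‖l‖) (h : EqTh ks l 0 0 S) : ∀ v, S v = 0 := by
  induction ks with
  | nil => exact fun v => v.elim
  | cons k ks ih =>
    obtain ⟨hp, hq⟩ := EqTh_cons h
    rintro (i | v)
    · exact path_zero hl hp i
    · exact ih hq v

/-! ### The graph -/

def WT (t : Tr) (ks : List ℕ) : Type := (Bool × Option (VT t)) ⊕ TV ks

noncomputable instance instFWT (t : Tr) (ks : List ℕ) : Fintype (WT t ks) :=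
  inferInstanceAs (Fintype ((Bool × Option (VT t)) ⊕ TV ks))

/-- Adjacency of hub `b` with a thread vertex. -/
def hb (ks : List ℕ) (b : Bool) (v : TV ks) : Prop :=
  match b with
  | false => h0 ks v
  | true => h1 ks v

def WA (t : Tr) (ks : List ℕ) : WT t ks → WT t ks → Prop
  | Sum.inl (_, none), Sum.inl (_, none) => False
  | Sum.inl (b, none), Sum.inl (b', some v) => b = b' ∧ rt t v
  | Sum.inl (b, some v), Sum.inl (b', none) => b = b' ∧ rt t v
  | Sum.inl (b, some v), Sum.inl (b', some w) => b = b' ∧ ad t v w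
  | Sum.inl (b, none), Sum.inr v => hb ks b v
  | Sum.inl (_, some _), Sum.inr _ => False
  | Sum.inr v, Sum.inl (b, none) => hb ks b v
  | Sum.inr _, Sum.inl (_, some _) => False
  | Sum.inr v, Sum.inr w => adT ks v w

lemma WA_symm (t : Tr) (ks : List ℕ) (v w : WT t ks) (h : WA t ks v w) : WA t ks w v := by
  rcases v with ⟨b, _ | v⟩ | v <;> rcases w with ⟨b', _ | w⟩ | w
  · exact h
  · exact ⟨h.1.symm, h.2⟩
  · exact h
  · exact ⟨h.1.symm, h.2⟩
  · exact ⟨h.1.symm, ad_symm t _ _ h.2⟩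
  · exact h
  · exact h
  · exact h
  · exact adT_symm ks _ _ h

lemma WA_irrefl (t : Tr) (ks : List ℕ) (v : WT t ks) : ¬ WA t ks v v := by
  intro h
  rcases v with ⟨b, _ | v⟩ | v
  · exact h
  · exact ad_irrefl t _ h.2
  · exact adT_irrefl ks _ h

def WG (t : Tr) (ks : List ℕ) : SimpleGraph (WT t ks) where
  Adj := WA t ks
  symm := ⟨fun v w h => WA_symm t ks v w h⟩
  loopless := ⟨fun v h => WA_irrefl t ks v h⟩

lemma sum_WT {t : Tr} {ks : List ℕ} (F : WT t ks → ℂ) :
    ∑ x, F x = ((F (Sum.inl (true, none)) + ∑ v : VT t, F (Sum.inl (true, some v)))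
      + (F (Sum.inl (false, none)) + ∑ v : VT t, F (Sum.inl (false, some v))))
      + ∑ v : TV ks, F (Sum.inr v) := by
  have h := Fintype.sum_sum_type (α₁ := Bool × Option (VT t)) (α₂ := TV ks) F
  rw [Fintype.sum_prod_type, Fintype.sum_bool, Fintype.sum_option, Fintype.sum_option] at h
  exact h

/-- The inhomogeneous vertex equation, with sources at the hubs. -/
def HSc (t : Tr) (ks : List ℕ) (l : ℂ) (c : Bool → ℂ) (S : WT t ks → ℂ) : Prop :=
  ∀ v, (l ^ 2 - 1) * S v = (∑ u, if (WG t ks).Adj v u then l * S u - S v else 0)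
    + (match v with
      | Sum.inl (b, none) => c b
      | _ => 0)

noncomputable def PB (ks : List ℕ) (l s : ℂ) (S : TV ks → ℂ) (b : Bool) : ℂ :=
  ∑ v, if hb ks b v then l * S v - s else 0

lemma HSc_unpack {t : Tr} {ks : List ℕ} {l : ℂ} {c : Bool → ℂ} {S : WT t ks → ℂ}
    (h : HSc t ks l c S) :
    (∀ b, EqT t l (S (Sum.inl (b, none))) (fun v => S (Sum.inl (b, some v)))) ∧
    EqTh ks l (S (Sum.inl (false, none))) (S (Sum.inl (true, none))) (fun v => S (Sum.inr v)) ∧
    (∀ b, (l ^ 2 - 1) * S (Sum.inl (b, none))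
      = Phi t l (S (Sum.inl (b, none))) (fun v => S (Sum.inl (b, some v)))
        + PB ks l (S (Sum.inl (b, none))) (fun v => S (Sum.inr v)) b + c b) := by
  refine ⟨?_, ?_, ?_⟩
  · intro b v
    have e1 := h (Sum.inl (b, some v))
    rw [sum_WT] at e1
    have a1 : ∀ b', (WG t ks).Adj (Sum.inl (b, some v)) (Sum.inl (b', none)) ↔ (b = b' ∧ rt t v) :=
      fun _ => Iff.rfl
    have a2 : ∀ b' w, (WG t ks).Adj (Sum.inl (b, some v)) (Sum.inl (b', some w)) ↔
        (b = b' ∧ ad t v w) := fun _ _ => Iff.rfl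
    have a3 : ∀ w, (WG t ks).Adj (Sum.inl (b, some v)) (Sum.inr w) ↔ False := fun _ => Iff.rfl
    simp only [a1, a2, a3, if_false, Finset.sum_const_zero, add_zero] at e1
    cases b with
    | false =>
      simp only [Bool.false_eq_true, false_and, if_false, Finset.sum_const_zero, add_zero,
        zero_add, true_and] at e1
      exact e1
    | true =>
      simp only [Bool.true_eq_false, false_and, if_false, Finset.sum_const_zero, add_zero,
        true_and] at e1
      exact e1
  · intro v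
    have e1 := h (Sum.inr v)
    rw [sum_WT] at e1
    have a1 : ∀ b', (WG t ks).Adj (Sum.inr v) (Sum.inl (b', none)) ↔ hb ks b' v :=
      fun _ => Iff.rfl
    have a2 : ∀ b' w, (WG t ks).Adj (Sum.inr v) (Sum.inl (b', some w)) ↔ False :=
      fun _ _ => Iff.rfl
    have a3 : ∀ w, (WG t ks).Adj (Sum.inr v) (Sum.inr w) ↔ adT ks v w := fun _ => Iff.rfl
    simp only [a1, a2, a3, if_false, Finset.sum_const_zero, add_zero] at e1
    have a4 : hb ks true v ↔ h1 ks v := Iff.rfl
    have a5 : hb ks false v ↔ h0 ks v := Iff.rfl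
    simp only [a4, a5] at e1
    rw [e1]
    ring
  · intro b
    have e1 := h (Sum.inl (b, none))
    rw [sum_WT] at e1
    have a1 : ∀ b', (WG t ks).Adj (Sum.inl (b, none)) (Sum.inl (b', none)) ↔ False :=
      fun _ => Iff.rfl
    have a2 : ∀ b' w, (WG t ks).Adj (Sum.inl (b, none)) (Sum.inl (b', some w)) ↔
        (b = b' ∧ rt t w) := fun _ _ => Iff.rfl
    have a3 : ∀ w, (WG t ks).Adj (Sum.inl (b, none)) (Sum.inr w) ↔ hb ks b w := fun _ => Iff.rfl
    simp only [a1, a2, a3, if_false, zero_add] at e1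
    rw [e1]
    congr 1
    cases b with
    | false =>
      simp only [Bool.false_eq_true, false_and, if_false, Finset.sum_const_zero,
        zero_add, true_and]
      rfl
    | true =>
      simp only [Bool.true_eq_false, false_and, if_false, Finset.sum_const_zero, add_zero,
        true_and]
      rfl

/-- Response in homogeneous form. -/
def RespC (t : Tr) (l N D : ℂ) : Prop :=
  ∀ s S, EqT t l s S → ∃ c, Phi t l s S = N * c ∧ (l ^ 2 - 1) * s - Phi t l s S = D * c ∧
    (c = 0 → s = 0 ∧ ∀ v, S v = 0)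

lemma respC_child {c r : Tr} {l u gc g : ℂ} (hu : l * u = 1)
    (hc : Resp c l gc) (hr : Resp r l g) (hg : 1 + g ≠ 0) :
    RespC (.child c r) l (u ^ 2 * gc + g + 2 * (u ^ 2 * gc * g)) (1 - u ^ 2 * gc * g) := by
  intro s S hS
  obtain ⟨h1, h2, h3⟩ := EqT_child hS
  rw [Phi_child]
  obtain ⟨c1, c2⟩ := hc _ _ h2
  obtain ⟨r1, r2⟩ := hr _ _ h3
  set w := S (Sum.inl none) with hw
  set P := Phi c l w (fun v => S (Sum.inl (some v))) with hP
  set Q := Phi r l s (fun v => S (Sum.inr v)) with hQ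
  have hl0 : l ≠ 0 := left_ne_zero_of_mul_eq_one hu
  have hF : (l ^ 2 - 1) * w - P = l * s - w := by linear_combination h1
  have key1 : (l * w - s) = u ^ 2 * gc * ((l ^ 2 - 1) * s - (l * w - s)) := by
    have e1 : l * (l * w - s) = gc * (l * s - w) := by
      rw [hF] at c1
      linear_combination h1 + c1
    have e2 : (l ^ 2 - 1) * s - (l * w - s) = l * (l * s - w) := by ring
    rw [e2]
    have e3 : u ^ 2 * gc * (l * (l * s - w)) = u * (l * u) * (gc * (l * s - w)) := by ring
    rw [e3, ← e1, hu]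
    linear_combination (-(l * w - s)) * hu
  set g1 := u ^ 2 * gc with hg1
  set F1 := (l ^ 2 - 1) * s - (l * w - s) with hF1
  set F2 := (l ^ 2 - 1) * s - Q with hF2
  have d1 : (l ^ 2 - 1) * s = (1 + g1) * F1 := by
    linear_combination key1 - hF1
  have d2 : (l ^ 2 - 1) * s = (1 + g) * F2 := by
    linear_combination r1 - hF2
  have d3 : F1 = (1 + g) * (F1 / (1 + g)) := by
    field_simp
  have d4 : F2 = (1 + g1) * (F1 / (1 + g)) := by
    have : (1 + g) * F2 = (1 + g) * ((1 + g1) * (F1 / (1 + g))) := by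
      rw [← d2, d1]
      field_simp
    exact mul_left_cancel₀ hg this
  refine ⟨F1 / (1 + g), ?_, ?_, ?_⟩
  · linear_combination key1 + r1 + g1 * d3 + g * d4
  · linear_combination (-1) * r1 - hF1 + d3 - g * d4
  · intro h0
    rw [h0, mul_zero] at d3 d4
    have e4 : (l ^ 2 - 1) * w - P = 0 := by
      rw [hF]
      have e2 : F1 = l * (l * s - w) := by rw [hF1]; ring
      rw [e2] at d3
      rcases mul_eq_zero.mp d3 with h | h
      · exact absurd h hl0
      · exact h
    obtain ⟨w0, v0⟩ := c2 e4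
    obtain ⟨s0, v1⟩ := r2 d4
    refine ⟨s0, ?_⟩
    intro v
    rcases v with (_ | v) | v
    · exact w0
    · exact v0 v
    · exact v1 v

/-- Hub analysis. -/
lemma hub_main {t : Tr} {ks : List ℕ} {l u N D : ℂ} {c : Bool → ℂ} {S : WT t ks → ℂ}
    (hks : ∀ k ∈ ks, 0 < k)
    (hl : 1 < ‖l‖) (hlu : l * u = 1) (hg : RespC t l N D) (h : HSc t ks l c S) :
    ∃ F : Bool → ℂ,
      (∀ b, (l ^ 2 - 1) * S (Sum.inl (b, none)) = (N + D) * F b) ∧
      ((F false + F true) * (D - (N + D) * (pS u ks - rS u ks)) = c false + c true) ∧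
      ((F false - F true) * (D + (N + D) * (pS u ks + rS u ks)) = c false - c true) ∧
      (F false = 0 → F true = 0 → S = 0) := by
  obtain ⟨u1, u2, u3⟩ := HSc_unpack h
  obtain ⟨p0, p1⟩ := thread_resp hks hl hlu u2
  obtain ⟨C0, a0, b0, z0⟩ := hg _ _ (u1 false)
  obtain ⟨C1, a1, b1, z1⟩ := hg _ _ (u1 true)
  have q0 := u3 false
  have q1 := u3 true
  have w0 : PB ks l (S (Sum.inl (false, none))) (fun v => S (Sum.inr v)) false
      = P0 ks l (S (Sum.inl (false, none))) (fun v => S (Sum.inr v)) := rfl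
  have w1 : PB ks l (S (Sum.inl (true, none))) (fun v => S (Sum.inr v)) true
      = P1 ks l (S (Sum.inl (true, none))) (fun v => S (Sum.inr v)) := rfl
  rw [w0, p0] at q0
  rw [w1, p1] at q1
  have s0 : (l ^ 2 - 1) * S (Sum.inl (false, none)) = (N + D) * C0 := by
    linear_combination a0 + b0
  have s1 : (l ^ 2 - 1) * S (Sum.inl (true, none)) = (N + D) * C1 := by
    linear_combination a1 + b1
  have t0 : D * C0 = (N + D) * (pS u ks * C1 - rS u ks * C0) + c false := by
    linear_combination (-1) * b0 + q0 + pS u ks * s1 - rS u ks * s0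
  have t1 : D * C1 = (N + D) * (pS u ks * C0 - rS u ks * C1) + c true := by
    linear_combination (-1) * b1 + q1 + pS u ks * s0 - rS u ks * s1
  refine ⟨fun b => match b with | false => C0 | true => C1, ?_, ?_, ?_, ?_⟩
  · intro b
    cases b
    · exact s0
    · exact s1
  · simp only
    linear_combination t0 + t1
  · simp only
    linear_combination t0 - t1
  · intro y0 y1
    simp only at y0 y1
    obtain ⟨x0, v0⟩ := z0 y0
    obtain ⟨x1, v1⟩ := z1 y1
    rw [x0, x1] at u2
    have v2 := thread_zero hl u2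
    funext v
    rcases v with ⟨b, _ | v⟩ | v
    · cases b
      · exact x0
      · exact x1
    · cases b
      · exact v0 v
      · exact v1 v
    · exact v2 v

lemma HSc_of_HS {t : Tr} {ks : List ℕ} {l : ℂ} {S : WT t ks → ℂ} (h : HS (WG t ks) l S) :
    HSc t ks l (fun _ => 0) S := by
  intro v
  rw [h v]
  rcases v with ⟨b, _ | v⟩ | v <;> simp

end Pool.Agent.H66.NB
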