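import Mathlib
import Pool.Agent.H66.NB4

set_option autoImplicit false
open scoped Classical
open Finset

namespace Pool.Agent.H66.NB

/-! ### Positivity at two -/

/-- Positive real complex number. -/
def PR (z : ℂ) : Prop := ∃ r : ℝ, 0 < r ∧ z = (r : ℂ)

lemma path_closed {k : ℕ} {r : ℝ} {S : Fin k → ℂ} (hk : 0 < k)
    (h : PathEq k 2 (r : ℂ) (r : ℂ) S) (n : ℕ) (hn : n ≤ k + 1) :
    ext k (r : ℂ) (r : ℂ) S n = ((r * (2 ^ (k + 1) + 4 ^ n) / ((2 ^ (k + 1) + 1) * 2 ^ n) : ℝ) : ℂ) := by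
  have m1 := path_main h hk
  have m2 := ext_sum h n hn
  have e1 : ext k (r : ℂ) (r : ℂ) S 1 = S ⟨0, hk⟩ := by
    have : ext k (r : ℂ) (r : ℂ) S (0 + 1) = S ⟨0, hk⟩ := by simp only [ext]; rw [dif_pos hk]
    exact this
  rw [e1] at m2
  have a1 : (2 : ℂ) ^ (k + 1) - 1 ≠ 0 := by
    have h1 : (2 : ℂ) ^ (k + 1) ≠ 1 := one_lt_pow_norm (by norm_num) (by omega)
    exact sub_ne_zero.mpr h1
  have a2 : (2 : ℂ) ^ (k + 1) + 1 ≠ 0 := by
    have h1 : ((2 ^ (k + 1) + 1 : ℝ) : ℂ) ≠ 0 := by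
      have : (2 : ℝ) ^ (k + 1) + 1 ≠ 0 := by positivity
      exact_mod_cast this
    push_cast at h1
    exact h1
  have h2k : (2 : ℂ) ^ (2 * (k + 1)) - 1 = (2 ^ (k + 1) - 1) * (2 ^ (k + 1) + 1) := by ring
  have n1 : ((2 : ℂ) ^ (k + 1) + 1) * (2 * S ⟨0, hk⟩ - r) = 3 * r := by
    rw [h2k] at m1
    apply mul_left_cancel₀ a1
    linear_combination -m1
  have h2n : (2 : ℂ) ^ (2 * n) = 4 ^ n := by
    rw [pow_mul]
    norm_num
  rw [h2n] at m2
  have a3 : (2 : ℂ) ^ n ≠ 0 := pow_ne_zero _ (by norm_num)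
  have key : ext k (r : ℂ) (r : ℂ) S n * ((2 ^ (k + 1) + 1) * 2 ^ n) = (r : ℂ) * (2 ^ (k + 1) + 4 ^ n) := by
    linear_combination (1 / 3) * (2 ^ (k + 1) + 1) * m2 + (1 / 3) * (4 ^ n - 1) * n1
  push_cast
  rw [eq_div_iff (mul_ne_zero a2 a3)]
  exact key

lemma path_pos {k : ℕ} {s : ℂ} {S : Fin k → ℂ} (hs : PR s) (h : PathEq k 2 s s S) :
    (∀ i, PR (S i)) ∧ (∀ i j : Fin k, (i.val + 1 = j.val ∨ j.val + 1 = i.val) → PR (2 * S j - S i)) ∧
    (∀ i : Fin k, i.val = 0 → PR (2 * S i - s) ∧ PR (2 * s - S i)) ∧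
    (∀ i : Fin k, i.val + 1 = k → PR (2 * S i - s) ∧ PR (2 * s - S i)) := by
  obtain ⟨r, hr, rfl⟩ := hs
  rcases Nat.eq_zero_or_pos k with hk | hk
  · subst hk
    exact ⟨fun i => i.elim0, fun i => i.elim0, fun i => i.elim0, fun i => i.elim0⟩
  have hc := path_closed hk h
  have up : ∀ n, n + 1 ≤ k + 1 → PR (2 * ext k (r : ℂ) (r : ℂ) S (n + 1) - ext k (r : ℂ) (r : ℂ) S n) := by
    intro n hn
    rw [hc (n + 1) hn, hc n (by omega)]
    refine ⟨2 * (r * (2 ^ (k + 1) + 4 ^ (n + 1)) / ((2 ^ (k + 1) + 1) * 2 ^ (n + 1)))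
      - r * (2 ^ (k + 1) + 4 ^ n) / ((2 ^ (k + 1) + 1) * 2 ^ n), ?_, by push_cast; ring⟩
    have e1 : 2 * (r * (2 ^ (k + 1) + 4 ^ (n + 1)) / ((2 ^ (k + 1) + 1) * 2 ^ (n + 1)))
      - r * (2 ^ (k + 1) + 4 ^ n) / ((2 ^ (k + 1) + 1) * 2 ^ n)
      = 3 * r * 4 ^ n / ((2 ^ (k + 1) + 1) * 2 ^ n) := by
      field_simp
      ring
    rw [e1]
    positivity
  have down : ∀ n, n + 1 ≤ k + 1 → PR (2 * ext k (r : ℂ) (r : ℂ) S n - ext k (r : ℂ) (r : ℂ) S (n + 1)) := by
    intro n hn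
    rw [hc (n + 1) hn, hc n (by omega)]
    refine ⟨2 * (r * (2 ^ (k + 1) + 4 ^ n) / ((2 ^ (k + 1) + 1) * 2 ^ n))
      - r * (2 ^ (k + 1) + 4 ^ (n + 1)) / ((2 ^ (k + 1) + 1) * 2 ^ (n + 1)), ?_, by push_cast; ring⟩
    have e1 : 2 * (r * (2 ^ (k + 1) + 4 ^ n) / ((2 ^ (k + 1) + 1) * 2 ^ n))
      - r * (2 ^ (k + 1) + 4 ^ (n + 1)) / ((2 ^ (k + 1) + 1) * 2 ^ (n + 1))
      = 3 * r * 2 ^ (k + 1) / ((2 ^ (k + 1) + 1) * 2 ^ (n + 1)) := by
      field_simp
      ring
    rw [e1]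
    positivity
  have hSi : ∀ i : Fin k, S i = ext k (r : ℂ) (r : ℂ) S (i.val + 1) := by
    intro i
    simp [ext]
  have hs0 : (r : ℂ) = ext k (r : ℂ) (r : ℂ) S 0 := rfl
  have hs1 : (r : ℂ) = ext k (r : ℂ) (r : ℂ) S (k + 1) := by simp [ext]
  refine ⟨?_, ?_, ?_, ?_⟩
  · intro i
    rw [hSi, hc _ (by have := i.isLt; omega)]
    refine ⟨_, ?_, rfl⟩
    positivity
  · intro i j hij
    rw [hSi i, hSi j]
    rcases hij with hij | hij
    · have := up (i.val + 1) (by have := j.isLt; omega)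
      rw [hij] at this ⊢
      exact this
    · have := down (j.val + 1) (by have := i.isLt; omega)
      rw [hij] at this ⊢
      exact this
  · intro i hi
    have h1 := up 0 (by omega)
    have h2 := down 0 (by omega)
    rw [← hs0, zero_add] at h1 h2
    rw [hSi i, hi]
    exact ⟨h1, h2⟩
  · intro i hi
    have h1 := up k (by omega)
    have h2 := down k (by omega)
    rw [← hs1] at h1 h2
    rw [hSi i, hi]
    exact ⟨h2, h1⟩

/-- Positivity of the solutions on a gadget. -/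
def PosG (t : Tr) : Prop := ∀ (s : ℂ), PR s → ∀ S : VT t → ℂ, EqT t 2 s S →
  (∀ v, PR (S v)) ∧ (∀ v, rt t v → PR (2 * S v - s) ∧ PR (2 * s - S v)) ∧
  (∀ v w, ad t v w → PR (2 * S w - S v))

lemma resp_two {t : Tr} {a b : ℚ} (h : Has t a b) : Resp t 2 (a : ℂ) := by
  obtain ⟨g, h1, h2⟩ := h.resp (l := 2) (u := 1 / 2) (by norm_num) (by norm_num)
  have h3 := h2.2.2.2
  simp only [sub_self, norm_zero, mul_zero] at h3
  have h4 : g - ((a : ℝ) : ℂ) = 0 := norm_le_zero_iff.mp h3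
  have h5 : g = (a : ℂ) := by
    rw [sub_eq_zero.mp h4]
    push_cast
    rfl
  rw [← h5]
  exact h1

lemma has_nonneg {t : Tr} {a b : ℚ} (h : Has t a b) : 0 ≤ a := by
  obtain ⟨g, h1, h2⟩ := h.resp (l := 2) (u := 1 / 2) (by norm_num) (by norm_num)
  exact h2.1

lemma posG_loop {k : ℕ} {r : Tr} (hk : 2 ≤ k) (ih : PosG r) : PosG (.loop k r) := by
  intro s hs S hS
  obtain ⟨hp, hq⟩ := EqT_loop hk hS
  obtain ⟨q1, q2, q3⟩ := ih s hs _ hq
  obtain ⟨p1, p2, p3, p4⟩ := path_pos hs hp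
  refine ⟨?_, ?_, ?_⟩
  · rintro (i | v)
    · exact p1 i
    · exact q1 v
  · rintro (i | v) hv
    · rcases hv with hv | hv
      · exact p3 i hv
      · exact p4 i hv
    · exact q2 v hv
  · rintro (i | v) (j | w) hvw
    · exact p2 i j hvw
    · exact hvw.elim
    · exact hvw.elim
    · exact q3 v w hvw

lemma posG_child {c r : Tr} {ac : ℚ} (hc : Resp c 2 (ac : ℂ)) (hac : 0 < ac) (ih1 : PosG c)
    (ih2 : PosG r) : PosG (.child c r) := by
  intro s hs S hS
  obtain ⟨e1, e2, e3⟩ := EqT_child hS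
  obtain ⟨q1, q2, q3⟩ := ih2 s hs _ e3
  have hR := (hc _ _ e2).1
  set w := S (Sum.inl none) with hw
  set P := Phi c 2 w (fun v => S (Sum.inl (some v))) with hP
  obtain ⟨r0, hr0, rfl⟩ := hs
  have hacR : (0 : ℝ) < (ac : ℝ) := by exact_mod_cast hac
  have k1 : w * (4 + (ac : ℂ)) = 2 * (r0 : ℂ) * (1 + (ac : ℂ)) := by
    linear_combination e1 + hR + (ac : ℂ) * e1
  have hne : (4 : ℂ) + (ac : ℂ) ≠ 0 := by
    have : ((4 + (ac : ℝ) : ℝ) : ℂ) ≠ 0 := by
      have h5 : (4 : ℝ) + (ac : ℝ) ≠ 0 := by positivity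
      exact_mod_cast h5
    push_cast at this
    exact this
  have k2 : w = ((2 * r0 * (1 + (ac : ℝ)) / (4 + (ac : ℝ)) : ℝ) : ℂ) := by
    push_cast
    rw [eq_div_iff hne]
    exact k1
  have hwp : PR w := ⟨_, by positivity, k2⟩
  have hw1 : PR (2 * w - (r0 : ℂ)) := by
    refine ⟨3 * r0 * (ac : ℝ) / (4 + (ac : ℝ)), by positivity, ?_⟩
    rw [k2]
    push_cast
    field_simp
    ring
  have hw2 : PR (2 * (r0 : ℂ) - w) := by
    refine ⟨6 * r0 / (4 + (ac : ℝ)), by positivity, ?_⟩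
    rw [k2]
    push_cast
    field_simp
    ring
  obtain ⟨c1, c2, c3⟩ := ih1 w hwp _ e2
  refine ⟨?_, ?_, ?_⟩
  · rintro ((_ | v) | v)
    · exact hwp
    · exact c1 v
    · exact q1 v
  · rintro ((_ | v) | v) hv
    · exact ⟨hw1, hw2⟩
    · exact hv.elim
    · exact q2 v hv
  · rintro ((_ | v) | v) ((_ | x) | x) hvx
    · exact hvx.elim
    · exact (c2 x hvx).1
    · exact hvx.elim
    · exact (c2 v hvx).2
    · exact c3 v x hvx
    · exact hvx.elim
    · exact hvx.elim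
    · exact hvx.elim
    · exact q3 v x hvx

theorem Has.pos {t : Tr} {a b : ℚ} (h : Has t a b) : PosG t := by
  induction h with
  | nil =>
    intro s _ S _
    exact ⟨fun v => v.elim, fun v => v.elim, fun v => v.elim⟩
  | loop k r a b hk _ hlt ih => exact posG_loop hk ih
  | child c r ac bc a b hc hac _ hlt ih1 ih2 => exact posG_child (resp_two hc) hac ih1 ih2
  | mono t a b b' _ _ ih => exact ih

lemma thread_pos {ks : List ℕ} {s : ℂ} (hs : PR s) {S : TV ks → ℂ} (h : EqTh ks 2 s s S) :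
    (∀ v, PR (S v)) ∧ (∀ v, h0 ks v → PR (2 * S v - s) ∧ PR (2 * s - S v)) ∧
    (∀ v, h1 ks v → PR (2 * S v - s) ∧ PR (2 * s - S v)) ∧
    (∀ v w, adT ks v w → PR (2 * S w - S v)) := by
  induction ks with
  | nil => exact ⟨fun v => v.elim, fun v => v.elim, fun v => v.elim, fun v => v.elim⟩
  | cons k ks ih =>
    obtain ⟨hp, hq⟩ := EqTh_cons h
    obtain ⟨q1, q2, q3, q4⟩ := ih hq
    obtain ⟨p1, p2, p3, p4⟩ := path_pos hs hp
    refine ⟨?_, ?_, ?_, ?_⟩
    · rintro (i | v)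
      · exact p1 i
      · exact q1 v
    · rintro (i | v) hv
      · exact p3 i hv
      · exact q2 v hv
    · rintro (i | v) hv
      · exact p4 i hv
      · exact q3 v hv
    · rintro (i | v) (j | w) hvw
      · exact p2 i j hvw
      · exact hvw.elim
      · exact hvw.elim
      · exact q4 v w hvw

/-! ### Degrees and connectivity -/

structure Emb {X : Type} (t : Tr) (H : SimpleGraph X) (r : X) (ι : VT t → X) : Prop where
  hrt : ∀ v, rt t v → H.Adj r (ι v)
  had : ∀ v w, ad t v w → H.Adj (ι v) (ι w)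
  inj : Function.Injective ι
  ne : ∀ v, ι v ≠ r

lemma Emb.loop_rest {X : Type} {k : ℕ} {t : Tr} {H : SimpleGraph X} {r : X} {ι : VT (.loop k t) → X}
    (e : Emb (.loop k t) H r ι) : Emb t H r (fun v => ι (Sum.inr v)) :=
  ⟨fun v hv => e.hrt (Sum.inr v) hv, fun v w h => e.had (Sum.inr v) (Sum.inr w) h,
    fun _ _ h => Sum.inr_injective (e.inj h), fun _ => e.ne _⟩

lemma Emb.child_rest {X : Type} {c t : Tr} {H : SimpleGraph X} {r : X} {ι : VT (.child c t) → X}
    (e : Emb (.child c t) H r ι) : Emb t H r (fun v => ι (Sum.inr v)) :=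
  ⟨fun v hv => e.hrt (Sum.inr v) hv, fun v w h => e.had (Sum.inr v) (Sum.inr w) h,
    fun _ _ h => Sum.inr_injective (e.inj h), fun _ => e.ne _⟩

lemma Emb.child_sub {X : Type} {c t : Tr} {H : SimpleGraph X} {r : X} {ι : VT (.child c t) → X}
    (e : Emb (.child c t) H r ι) : Emb c H (ι (Sum.inl none)) (fun v => ι (Sum.inl (some v))) :=
  ⟨fun v hv => e.had (Sum.inl none) (Sum.inl (some v)) hv,
    fun v w h => e.had (Sum.inl (some v)) (Sum.inl (some w)) h,
    fun a b h => Option.some_injective _ (Sum.inl_injective (e.inj h)),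
    fun v h => by
      have h1 := Sum.inl_injective (e.inj h)
      exact absurd h1 (by simp)⟩

/-- Structurally admissible gadgets. -/
inductive Ok : Tr → Prop
  | nil : Ok .nil
  | loop (k : ℕ) (r : Tr) : 2 ≤ k → Ok r → Ok (.loop k r)
  | child (c r : Tr) : Ok c → (∃ v, rt c v) → Ok r → Ok (.child c r)

lemma has_root {t : Tr} {a b : ℚ} (h : Has t a b) : 0 < a → ∃ v, rt t v := by
  induction h with
  | nil => intro h; exact absurd h (lt_irrefl _)
  | loop k r a b hk _ hlt ih =>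
    intro _
    exact ⟨Sum.inl ⟨0, by omega⟩, Or.inl rfl⟩
  | child c r ac bc a b hc hac _ hlt ih1 ih2 =>
    intro _
    exact ⟨Sum.inl none, trivial⟩
  | mono t a b b' _ _ ih => exact ih

lemma Has.ok {t : Tr} {a b : ℚ} (h : Has t a b) : Ok t := by
  induction h with
  | nil => exact Ok.nil
  | loop k r a b hk _ hlt ih => exact Ok.loop k r hk ih
  | child c r ac bc a b hc hac _ hlt ih1 ih2 => exact Ok.child c r ih1 (has_root hc hac) ih2
  | mono t a b b' _ _ ih => exact ih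

lemma has_deg {X : Type} {H : SimpleGraph X} {t : Tr} (h : Ok t) :
    ∀ (r : X) (ι : VT t → X), Emb t H r ι →
    ∀ v, ∃ p q, p ≠ q ∧ H.Adj (ι v) p ∧ H.Adj (ι v) q := by
  induction h with
  | nil => intro r ι _ v; exact v.elim
  | loop k t hk _ ih =>
    intro r ι e v
    rcases v with i | v
    · have hi := i.isLt
      by_cases h0 : i.val = 0
      · refine ⟨r, ι (Sum.inl ⟨1, by omega⟩), (e.ne _).symm, ?_, ?_⟩
        · exact (e.hrt (Sum.inl i) (Or.inl h0)).symm
        · exact e.had (Sum.inl i) (Sum.inl ⟨1, by omega⟩) (Or.inl (by simp only; omega))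
      · by_cases h1 : i.val + 1 = k
        · refine ⟨r, ι (Sum.inl ⟨i.val - 1, by omega⟩), (e.ne _).symm, ?_, ?_⟩
          · exact (e.hrt (Sum.inl i) (Or.inr h1)).symm
          · exact e.had (Sum.inl i) (Sum.inl ⟨i.val - 1, by omega⟩) (Or.inr (by simp only; omega))
        · refine ⟨ι (Sum.inl ⟨i.val + 1, by omega⟩), ι (Sum.inl ⟨i.val - 1, by omega⟩), ?_, ?_, ?_⟩
          · intro h
            have h2 := Sum.inl_injective (e.inj h)
            have h3 := congrArg Fin.val h2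
            simp only at h3
            omega
          · exact e.had (Sum.inl i) (Sum.inl ⟨i.val + 1, by omega⟩) (Or.inl rfl)
          · exact e.had (Sum.inl i) (Sum.inl ⟨i.val - 1, by omega⟩) (Or.inr (by simp only; omega))
    · exact ih r _ e.loop_rest v
  | child c t _ hrt _ ih1 ih2 =>
    intro r ι e v
    rcases v with (_ | v) | v
    · obtain ⟨v, hv⟩ := hrt
      refine ⟨r, ι (Sum.inl (some v)), (e.ne _).symm, ?_, ?_⟩
      · exact (e.hrt (Sum.inl none) trivial).symm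
      · exact e.had (Sum.inl none) (Sum.inl (some v)) hv
    · exact ih1 _ _ e.child_sub v
    · exact ih2 r _ e.child_rest v

lemma has_conn {X : Type} {H : SimpleGraph X} {t : Tr} (h : Ok t) :
    ∀ (r : X) (ι : VT t → X), Emb t H r ι → ∀ v, H.Reachable r (ι v) := by
  induction h with
  | nil => intro r ι _ v; exact v.elim
  | loop k t hk _ ih =>
    intro r ι e v
    rcases v with i | v
    · have key : ∀ n (hn : n < k), H.Reachable r (ι (Sum.inl ⟨n, hn⟩)) := by
        intro n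
        induction n with
        | zero =>
          intro hn
          exact (e.hrt (Sum.inl ⟨0, hn⟩) (Or.inl rfl)).reachable
        | succ n ihn =>
          intro hn
          have h1 := ihn (by omega)
          have h2 : H.Adj (ι (Sum.inl ⟨n, by omega⟩)) (ι (Sum.inl ⟨n + 1, hn⟩)) :=
            e.had _ _ (Or.inl rfl)
          exact h1.trans h2.reachable
      exact key i.val i.isLt
    · exact ih r _ e.loop_rest v
  | child c t _ _ _ ih1 ih2 =>
    intro r ι e v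
    have h0 : H.Reachable r (ι (Sum.inl none)) := (e.hrt (Sum.inl none) trivial).reachable
    rcases v with (_ | v) | v
    · exact h0
    · exact h0.trans (ih1 _ _ e.child_sub v)
    · exact ih2 r _ e.child_rest v

structure EmbT {X : Type} (ks : List ℕ) (H : SimpleGraph X) (r0 r1 : X) (ι : TV ks → X) : Prop where
  hh0 : ∀ v, h0 ks v → H.Adj r0 (ι v)
  hh1 : ∀ v, h1 ks v → H.Adj r1 (ι v)
  had : ∀ v w, adT ks v w → H.Adj (ι v) (ι w)
  inj : Function.Injective ι
  ne0 : ∀ v, ι v ≠ r0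
  ne1 : ∀ v, ι v ≠ r1

lemma EmbT.rest {X : Type} {k : ℕ} {ks : List ℕ} {H : SimpleGraph X} {r0 r1 : X}
    {ι : TV (k :: ks) → X} (e : EmbT (k :: ks) H r0 r1 ι) :
    EmbT ks H r0 r1 (fun v => ι (Sum.inr v)) :=
  ⟨fun v hv => e.hh0 (Sum.inr v) hv, fun v hv => e.hh1 (Sum.inr v) hv,
    fun v w h => e.had (Sum.inr v) (Sum.inr w) h,
    fun _ _ h => Sum.inr_injective (e.inj h), fun _ => e.ne0 _, fun _ => e.ne1 _⟩

lemma thread_deg {X : Type} {H : SimpleGraph X} {r0 r1 : X} (hr : r0 ≠ r1) {ks : List ℕ} :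
    ∀ (ι : TV ks → X), EmbT ks H r0 r1 ι → ∀ v, ∃ p q, p ≠ q ∧ H.Adj (ι v) p ∧ H.Adj (ι v) q := by
  induction ks with
  | nil => intro ι _ v; exact v.elim
  | cons k ks ih =>
    intro ι e v
    rcases v with i | v
    · have hi := i.isLt
      by_cases h0' : i.val = 0
      · by_cases h1' : i.val + 1 = k
        · exact ⟨r0, r1, hr, (e.hh0 (Sum.inl i) h0').symm, (e.hh1 (Sum.inl i) h1').symm⟩
        · refine ⟨r0, ι (Sum.inl ⟨1, by omega⟩), (e.ne0 _).symm, (e.hh0 (Sum.inl i) h0').symm, ?_⟩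
          exact e.had (Sum.inl i) (Sum.inl ⟨1, by omega⟩) (Or.inl (by simp only; omega))
      · by_cases h1' : i.val + 1 = k
        · refine ⟨r1, ι (Sum.inl ⟨i.val - 1, by omega⟩), (e.ne1 _).symm,
            (e.hh1 (Sum.inl i) h1').symm, ?_⟩
          exact e.had (Sum.inl i) (Sum.inl ⟨i.val - 1, by omega⟩) (Or.inr (by simp only; omega))
        · refine ⟨ι (Sum.inl ⟨i.val + 1, by omega⟩), ι (Sum.inl ⟨i.val - 1, by omega⟩), ?_, ?_, ?_⟩
          · intro h
            have h2 := Sum.inl_injective (e.inj h)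
            have h3 := congrArg Fin.val h2
            simp only at h3
            omega
          · exact e.had (Sum.inl i) (Sum.inl ⟨i.val + 1, by omega⟩) (Or.inl rfl)
          · exact e.had (Sum.inl i) (Sum.inl ⟨i.val - 1, by omega⟩) (Or.inr (by simp only; omega))
    · exact ih _ e.rest v

lemma thread_path {X : Type} {H : SimpleGraph X} {r0 r1 : X} {k : ℕ} {ks : List ℕ}
    {ι : TV (k :: ks) → X} (e : EmbT (k :: ks) H r0 r1 ι) (n : ℕ) (hn : n < k) :
    H.Reachable r0 (ι (Sum.inl ⟨n, hn⟩)) := by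
  induction n with
  | zero => exact (e.hh0 (Sum.inl ⟨0, hn⟩) rfl).reachable
  | succ n ihn =>
    have h1 := ihn (by omega)
    have h2 : H.Adj (ι (Sum.inl ⟨n, by omega⟩)) (ι (Sum.inl ⟨n + 1, hn⟩)) :=
      e.had _ _ (Or.inl rfl)
    exact h1.trans h2.reachable

lemma thread_conn {X : Type} {H : SimpleGraph X} {r0 r1 : X} {ks : List ℕ} :
    ∀ (ι : TV ks → X), EmbT ks H r0 r1 ι → ∀ v, H.Reachable r0 (ι v) := by
  induction ks with
  | nil => intro ι _ v; exact v.elim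
  | cons k ks ih =>
    intro ι e v
    rcases v with i | v
    · exact thread_path e i.val i.isLt
    · exact ih _ e.rest v

lemma emb_WG (t : Tr) (ks : List ℕ) (b : Bool) :
    Emb t (WG t ks) (Sum.inl (b, none)) (fun v => Sum.inl (b, some v)) :=
  ⟨fun v hv => ⟨rfl, hv⟩, fun v w h => ⟨rfl, h⟩,
    fun x y h => Option.some_injective _ (Prod.mk.inj (Sum.inl_injective h)).2,
    fun v h => by
      have h1 := (Prod.mk.inj (Sum.inl_injective h)).2
      exact absurd h1 (by simp)⟩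

lemma embT_WG (t : Tr) (ks : List ℕ) :
    EmbT ks (WG t ks) (Sum.inl (false, none)) (Sum.inl (true, none)) (fun v => Sum.inr v) :=
  ⟨fun v hv => hv, fun v hv => hv, fun v w h => h,
    fun x y h => Sum.inr_injective h,
    fun v h => by exact absurd h (by simp), fun v h => by exact absurd h (by simp)⟩

theorem WG_connected {t : Tr} {k : ℕ} {ks : List ℕ} (hk : 0 < k) (h : Ok t) :
    (WG t (k :: ks)).Connected := by
  have e := embT_WG t (k :: ks)
  have hub1 : (WG t (k :: ks)).Reachable (Sum.inl (false, none)) (Sum.inl (true, none)) := by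
    have h2 := thread_path e (k - 1) (by omega)
    have h3 : (WG t (k :: ks)).Adj (Sum.inl (true, none)) (Sum.inr (Sum.inl ⟨k - 1, by omega⟩)) := by
      apply e.hh1
      show k - 1 + 1 = k
      omega
    exact h2.trans h3.symm.reachable
  have key : ∀ v, (WG t (k :: ks)).Reachable (Sum.inl (false, none)) v := by
    rintro (⟨b, _ | v⟩ | v)
    · cases b
      · exact SimpleGraph.Reachable.refl _
      · exact hub1
    · cases b
      · exact has_conn h _ _ (emb_WG t (k :: ks) false) v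
      · exact hub1.trans (has_conn h _ _ (emb_WG t (k :: ks) true) v)
    · exact thread_conn _ e v
  have : Nonempty (WT t (k :: ks)) := ⟨Sum.inl (false, none)⟩
  exact ⟨fun v w => (key v).symm.trans (key w)⟩

theorem WG_deg {t : Tr} {k : ℕ} {ks : List ℕ} (hk : 0 < k) (h : Ok t) (ha : ∃ v, rt t v)
    (v : WT t (k :: ks)) : 2 ≤ (WG t (k :: ks)).degree v := by
  have e := embT_WG t (k :: ks)
  have key : ∃ p q, p ≠ q ∧ (WG t (k :: ks)).Adj v p ∧ (WG t (k :: ks)).Adj v q := by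
    rcases v with ⟨b, _ | v⟩ | v
    · obtain ⟨w, hw⟩ := ha
      cases b
      · exact ⟨Sum.inl (false, some w), Sum.inr (Sum.inl ⟨0, hk⟩), Sum.inl_ne_inr,
          ⟨rfl, hw⟩, e.hh0 _ rfl⟩
      · refine ⟨Sum.inl (true, some w), Sum.inr (Sum.inl ⟨k - 1, by omega⟩), Sum.inl_ne_inr,
          ⟨rfl, hw⟩, e.hh1 _ ?_⟩
        show k - 1 + 1 = k
        omega
    · exact has_deg h _ _ (emb_WG t (k :: ks) b) v
    · exact thread_deg (fun h => Bool.false_ne_true (Prod.mk.inj (Sum.inl_injective h)).1) _ e v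
  obtain ⟨p, q, hpq, hp, hq⟩ := key
  have h1 : 1 < ((WG t (k :: ks)).neighborFinset v).card := by
    rw [Finset.one_lt_card]
    exact ⟨p, by simpa using hp, q, by simpa using hq, hpq⟩
  exact h1

end Pool.Agent.H66.NB
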