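import Mathlib
import Pool.Agent.H66.NB5

set_option autoImplicit false
set_option maxRecDepth 100000
open scoped Classical
open Finset

namespace Pool.Agent.H66.NB

/-! ### The concrete gadgets -/

def g3 : Tr := .loop 2 .nil
def g5s : Tr := .child (.loop 4 .nil) .nil
def g1 : Tr := .loop 3 (.child (.child (.child (.child (.loop 4 .nil) .nil) .nil) .nil)
  (.child (.loop 4 (.child (.child (.loop 3 .nil) .nil) .nil)) .nil))
def g4 : Tr := .child (.child (.child (.loop 2 .nil) (.child (.child (.loop 3 .nil) .nil) .nil)) .nil)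
  .nil
def g47 : Tr := .child (.loop 3 .nil) (.child (.loop 6 .nil) .nil)

/-- Side gadgets between the hub and the tail. -/
def hubM : List Tr := [g1, .nil, .nil, g4, .nil]
def hubL : List Tr := g3 :: hubM

/-- Side gadgets of one period of the tail. -/
def stepL : List Tr := [.loop 6 .nil, .nil, g5s, .nil, g47, .nil, g5s, .nil]

/-- The initial tail. -/
def base : Tr := .loop 6 (.child (.child (.child (.loop 4 .nil) (.child (.child
  (.child (.loop 6 .nil) (.child (.loop 4 (.loop 4 .nil)) .nil)) .nil) .nil)) .nil) .nil)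

def chain : ℕ → Tr
  | 0 => base
  | n + 1 => ctx stepL (chain n)

/-- The gadget at each hub. -/
def hubG (n : ℕ) : Tr := ctx hubL (chain n)

/-- Threads. -/
def ths : List ℕ := [1, 1, 2, 2, 3, 3]

lemma base_ok : okQ base = true := by decide +kernel
lemma base_a : aQ base = 1 / 59 := by decide +kernel
lemma base_b : bQ base ≤ 13 / 25 := by decide +kernel
lemma step_ok : okC (1 / 59) (13 / 25) stepL = true := by decide +kernel
lemma step_a : aC (1 / 59) stepL = 1 / 59 := by decide +kernel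
lemma step_b : bC (13 / 25) stepL ≤ 13 / 25 := by decide +kernel
lemma hub_ok : okC (1 / 59) (13 / 25) hubM = true := by decide +kernel
lemma hub_a : 0 < aC (1 / 59) hubM := by decide +kernel
lemma g3_ok : okQ g3 = true := by decide +kernel
lemma g3_a : 0 ≤ aQ g3 := by decide +kernel

theorem has_chain (n : ℕ) : Has (chain n) (1 / 59) (13 / 25) := by
  induction n with
  | zero =>
    have h := has_of_ok base base_ok
    rw [base_a] at h
    exact Has.mono _ _ _ _ h base_b
  | succ n ih =>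
    have h := has_ctx ih stepL step_ok
    rw [step_a] at h
    exact Has.mono _ _ _ _ h step_b

theorem has_mid (n : ℕ) : Has (ctx hubM (chain n)) (aC (1 / 59) hubM) (bC (13 / 25) hubM) :=
  has_ctx (has_chain n) hubM hub_ok

lemma hubG_eq (n : ℕ) : hubG n = .child (ctx hubM (chain n)) g3 := rfl

theorem ok_hub (n : ℕ) : Ok (hubG n) := by
  rw [hubG_eq]
  exact Ok.child _ _ (has_mid n).ok (has_root (has_mid n) hub_a) (has_of_ok g3 g3_ok).ok

theorem root_hub (n : ℕ) : ∃ v, rt (hubG n) v := ⟨Sum.inl none, trivial⟩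

theorem pos_hub (n : ℕ) : PosG (hubG n) := by
  rw [hubG_eq]
  exact posG_child (resp_two (has_mid n)) hub_a (has_mid n).pos (has_of_ok g3 g3_ok).pos

lemma card_ctx (rs : List Tr) (X : Tr) : Fintype.card (VT X) + rs.length ≤ Fintype.card (VT (ctx rs X)) := by
  induction rs with
  | nil => exact le_of_eq rfl
  | cons R rs ih =>
    have h1 : Fintype.card (VT (ctx (R :: rs) X))
        = Fintype.card (Option (VT (ctx rs X)) ⊕ VT R) := Fintype.card_congr (Equiv.refl _)
    rw [h1, Fintype.card_sum, Fintype.card_option, List.length_cons]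
    omega

lemma card_chain (n : ℕ) : n ≤ Fintype.card (VT (chain n)) := by
  induction n with
  | zero => omega
  | succ n ih =>
    have h := card_ctx stepL (chain n)
    have h2 : stepL.length = 8 := rfl
    rw [h2] at h
    have h3 : chain (n + 1) = ctx stepL (chain n) := rfl
    rw [h3]
    omega

lemma card_WT (n : ℕ) : n ≤ Fintype.card (WT (hubG n) ths) := by
  have h1 : Fintype.card (WT (hubG n) ths)
      = Fintype.card ((Bool × Option (VT (hubG n))) ⊕ TV ths) := Fintype.card_congr (Equiv.refl _)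
  rw [h1, Fintype.card_sum, Fintype.card_prod, Fintype.card_option, Fintype.card_bool]
  have h2 := card_ctx hubL (chain n)
  have h3 := card_chain n
  have h4 : hubG n = ctx hubL (chain n) := rfl
  rw [h4]
  omega

/-! ### Certificates -/

def eOdd : List ℤ := [1000, 0, -2000, 1000, 4000, 0, -4000, 0, 8000, 4000, -7000, -2000, 1000, 17000, 36000, -39000, -57000, 98000, 72000, -105000, -21000, 134000, 47000, -83000, 131000, 61000, -583000, 589000, 1519000, -1717000, -1081000, 3413000, -1298000, -3347000, 6319000, 2544000, -10696000, 1839000, 20919000, -10570000, -35130000, 38979000, 36704000, -73874000, 47946000, 87668000]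

def eEven : List ℤ := [1000, -2000, 1000, 1000, -1000, 3000, -7000, 3000, 9000, -11000, 0, 9000, -13000, 16034, 1000, -47034, 80102, -38864, -85831, 224373, -206661, -107729, 502610, -498017, 37712, 576475, -1357287, 1707782, 331137, -4497418, 5687138, -14049, -8416332, 12164860, -7295351, -7817898, 29934604, -39525333, 7314056, 68757330, -128974406, 75773764, 119240795, -313053321, 276118057, 67300780, -558158467, 896293018, -584870159, -854471237, 2744270460, -2706653471, -980195298, 6182800051, -7799728077, 2285981126, 9371560168, -20744944089, 19354288369, 6964838302, -50876007023, 71545969494, -19298880769, -101370081268, 194531110347, -131686550020, -122033403852, 432187358470, -525849230669, 111856862094, 835548711923, -1668253397322, 1157505773556, 1282630421135, -4155129111199, 4322269927573, 289766492167, -8041852054736, 13112014197388, -7774740420023, -11492036817857]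

def cEven : List ℤ := [59, 118, 177, 177, 118, -177, -413, -472, -413, -177, 649, 885, 531, 411, -362, -1965, -1568, -180, 248, 1344, 2352, 1620, 807, -1728, -2713, -39, -2593, -4543, 6065, 1073, -10360, 3293, 3307, -13956, -5537, 8111, -5746, 2403, -540, -7688, 21512, 1446, -17578, 23288, 21466, -29254, 14768, 34078, -20968, 27944, 898, -37986, 36374, 33404, -54044, -3566, 61200, -19268, -11912, 8276, 39896, 59288, 28064, -14144, 110336, 142480, -55104, 55744, 116032, 4832, -1856, 1920, 3840]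


/-- Nonvanishing certificate. -/
def okCert (A B e : List ℤ) (S p q : ℕ) : Bool :=
  decide (q * (nI (lsub (lmul e A) [(S : ℤ)])).1 * (nI (lmul e B)).2
    + p * (nI (lmul e B)).1 * (nI (lsub (lmul e A) [(S : ℤ)])).2
    < q * S * ((nI (lsub (lmul e A) [(S : ℤ)])).2 * (nI (lmul e B)).2))

lemma cert_ne {A B e : List ℤ} {S p q : ℕ} (h : okCert A B e S p q = true) (hq : 0 < q)
    {u z : ℂ} (hu : ‖u‖ ≤ 5 / 7) (hz : ‖z‖ * (q : ℝ) ≤ (p : ℝ)) : ev A u + z * ev B u ≠ 0 := by
  intro h0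
  unfold okCert at h
  rw [decide_eq_true_eq] at h
  have hx := ev_norm (lsub (lmul e A) [(S : ℤ)]) hu
  have hy := ev_norm (lmul e B) hu
  have px := nI_pos (lsub (lmul e A) [(S : ℤ)])
  have py := nI_pos (lmul e B)
  have e1 : (S : ℂ) = -(ev (lsub (lmul e A) [(S : ℤ)]) u) - z * ev (lmul e B) u := by
    rw [ev_lsub, ev_lmul, ev_lmul]
    simp only [ev]
    push_cast
    linear_combination ev e u * h0
  set X := ev (lsub (lmul e A) [(S : ℤ)]) u with hX
  set Y := ev (lmul e B) u with hY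
  set x1 := (nI (lsub (lmul e A) [(S : ℤ)])).1 with hx1
  set x2 := (nI (lsub (lmul e A) [(S : ℤ)])).2 with hx2
  set y1 := (nI (lmul e B)).1 with hy1
  set y2 := (nI (lmul e B)).2 with hy2
  have e2 : (S : ℝ) ≤ ‖X‖ + ‖z‖ * ‖Y‖ := by
    have e3 : ‖(S : ℂ)‖ = (S : ℝ) := by simp
    rw [← e3, e1]
    have e4 : -X - z * Y = -(X + z * Y) := by ring
    rw [e4, norm_neg]
    refine (norm_add_le _ _).trans ?_
    rw [norm_mul]
  have hR : (q : ℝ) * x1 * y2 + p * y1 * x2 < q * S * (x2 * y2) := by exact_mod_cast h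
  have pxR : (0 : ℝ) < (x2 : ℝ) := by exact_mod_cast px
  have pyR : (0 : ℝ) < (y2 : ℝ) := by exact_mod_cast py
  have qR : (0 : ℝ) < (q : ℝ) := by exact_mod_cast hq
  have f1 : (q : ℝ) * (‖X‖ * x2) * y2 ≤ q * x1 * y2 := by
    apply mul_le_mul_of_nonneg_right _ pyR.le
    exact mul_le_mul_of_nonneg_left hx qR.le
  have f2 : (‖z‖ * (q : ℝ)) * (‖Y‖ * y2) * x2 ≤ p * y1 * x2 := by
    apply mul_le_mul_of_nonneg_right _ pxR.le
    exact mul_le_mul hz hy (by positivity) (by positivity)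
  have f3 : (q : ℝ) * S * (x2 * y2) ≤ (q : ℝ) * (‖X‖ + ‖z‖ * ‖Y‖) * (x2 * y2) := by
    apply mul_le_mul_of_nonneg_right _ (by positivity)
    exact mul_le_mul_of_nonneg_left e2 qR.le
  have f4 : (q : ℝ) * (‖X‖ + ‖z‖ * ‖Y‖) * (x2 * y2)
      = (q : ℝ) * (‖X‖ * x2) * y2 + (‖z‖ * (q : ℝ)) * (‖Y‖ * y2) * x2 := by ring
  linarith

lemma ev_zero_of {p : List ℤ} (h : (nI p).1 = 0) {u : ℂ} (hu : ‖u‖ ≤ 5 / 7) : ev p u = 0 := by
  have h1 := ev_norm p hu
  have h2 : (0 : ℝ) < ((nI p).2 : ℝ) := by exact_mod_cast nI_pos p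
  rw [h] at h1
  have h3 : ‖ev p u‖ ≤ 0 := by
    by_contra h4
    push Not at h4
    have := mul_pos h4 h2
    simp at h1
    linarith
  exact norm_le_zero_iff.mp h3

/-- Denominator and numerator of the even thread sum. -/
def td : List ℤ := lmul (ladd [1] (lX 2)) (lmul (ladd [1] (lX 3)) (ladd [1] (lX 4)))
def tn : List ℤ := lsmul 2 (ladd (lmul (lX 2) (lmul (ladd [1] (lX 3)) (ladd [1] (lX 4))))
  (ladd (lmul (lX 3) (lmul (ladd [1] (lX 2)) (ladd [1] (lX 4))))
    (lmul (lX 4) (lmul (ladd [1] (lX 2)) (ladd [1] (lX 3))))))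
/-- Denominator and numerator of the odd thread sum. -/
def sd : List ℤ := lmul (lsub [1] (lX 4)) (lsub [1] (lX 3))
def sn : List ℤ := lsmul 2 (ladd (lmul (lX 2) (lmul (ladd [1] (lX 2)) (lsub [1] (lX 3))))
  (ladd (lmul (lX 3) (lsub [1] (lX 4))) (lmul (lX 4) (lsub [1] (lX 3)))))

def oA : List ℤ := ladd (lmul sd (mob hubL).2.1) (lmul sn (ladd (mob hubL).2.1 (mob hubL).1.1))
def oB : List ℤ := ladd (lmul sd (mob hubL).2.2) (lmul sn (ladd (mob hubL).2.2 (mob hubL).1.2))
def eA : List ℤ := lsub (lmul td (mob hubL).2.1) (lmul tn (ladd (mob hubL).2.1 (mob hubL).1.1))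
def eB : List ℤ := lsub (lmul td (mob hubL).2.2) (lmul tn (ladd (mob hubL).2.2 (mob hubL).1.2))

lemma cert_odd : okCert oA oB eOdd 1000 13 25 = true := by decide +kernel
lemma cert_even : okCert cEven eB eEven 59000 5194 75 = true := by decide +kernel
lemma even_fac : (nI (lsub (ladd (lsmul 59 eA) eB) (lmul [1, -2] cEven))).1 = 0 := by
  decide +kernel

lemma pow_ne_one_u {u : ℂ} (hu : ‖u‖ ≤ 5 / 7) (n : ℕ) (hn : n ≠ 0) : u ^ n ≠ 1 ∧ u ^ n ≠ -1 := by
  have h1 : ‖u‖ ^ n < 1 := pow_lt_one₀ (norm_nonneg _) (by linarith) hn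
  constructor
  · intro h
    have h2 : ‖u ^ n‖ = 1 := by rw [h]; simp
    rw [norm_pow] at h2
    linarith
  · intro h
    have h2 : ‖u ^ n‖ = 1 := by rw [h]; simp
    rw [norm_pow] at h2
    linarith

lemma even_sum {u : ℂ} (hu : ‖u‖ ≤ 5 / 7) :
    (pS u ths - rS u ths) * ev td u = ev tn u ∧ ev td u ≠ 0 := by
  have a2 : (1 : ℂ) + u ^ 2 ≠ 0 := fun h => (pow_ne_one_u hu 2 (by norm_num)).2 (by linear_combination h)
  have a3 : (1 : ℂ) + u ^ 3 ≠ 0 := fun h => (pow_ne_one_u hu 3 (by norm_num)).2 (by linear_combination h)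
  have a4 : (1 : ℂ) + u ^ 4 ≠ 0 := fun h => (pow_ne_one_u hu 4 (by norm_num)).2 (by linear_combination h)
  have b2 : (1 : ℂ) - u ^ 2 ≠ 0 := fun h => (pow_ne_one_u hu 2 (by norm_num)).1 (by linear_combination -h)
  have b3 : (1 : ℂ) - u ^ 3 ≠ 0 := fun h => (pow_ne_one_u hu 3 (by norm_num)).1 (by linear_combination -h)
  have b4 : (1 : ℂ) - u ^ 4 ≠ 0 := fun h => (pow_ne_one_u hu 4 (by norm_num)).1 (by linear_combination -h)
  have key : ∀ U : ℂ, 1 + U ≠ 0 → 1 - U ≠ 0 → U / (1 - U ^ 2) - U ^ 2 / (1 - U ^ 2) = U / (1 + U) := by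
    intro U h1 h2
    have h3 : 1 - U ^ 2 = (1 - U) * (1 + U) := by ring
    rw [h3]
    field_simp
  have k2 := key (u ^ 2) a2 b2
  have k3 := key (u ^ 3) a3 b3
  have k4 := key (u ^ 4) a4 b4
  have e1 : pS u ths - rS u ths = 2 * (u ^ 2 / (1 + u ^ 2) + u ^ 3 / (1 + u ^ 3) + u ^ 4 / (1 + u ^ 4)) := by
    rw [← k2, ← k3, ← k4]
    simp only [ths, pS, rS, ← pow_mul]
    ring
  have e2 : ev td u = (1 + u ^ 2) * ((1 + u ^ 3) * (1 + u ^ 4)) := by
    simp only [td, ev_lmul, ev_ladd, ev_lX, ev]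
    push_cast
    ring
  have e3 : ev tn u = 2 * (u ^ 2 * ((1 + u ^ 3) * (1 + u ^ 4)) + (u ^ 3 * ((1 + u ^ 2) * (1 + u ^ 4))
      + u ^ 4 * ((1 + u ^ 2) * (1 + u ^ 3)))) := by
    simp only [tn, ev_lmul, ev_ladd, ev_lX, ev, ev_lsmul]
    push_cast
    ring
  constructor
  · rw [e1, e2, e3]
    field_simp
    ring
  · rw [e2]
    exact mul_ne_zero a2 (mul_ne_zero a3 a4)

lemma odd_sum {u : ℂ} (hu : ‖u‖ ≤ 5 / 7) :
    (pS u ths + rS u ths) * ev sd u = ev sn u ∧ ev sd u ≠ 0 := by
  have a2 : (1 : ℂ) + u ^ 2 ≠ 0 := fun h => (pow_ne_one_u hu 2 (by norm_num)).2 (by linear_combination h)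
  have a3 : (1 : ℂ) + u ^ 3 ≠ 0 := fun h => (pow_ne_one_u hu 3 (by norm_num)).2 (by linear_combination h)
  have a4 : (1 : ℂ) + u ^ 4 ≠ 0 := fun h => (pow_ne_one_u hu 4 (by norm_num)).2 (by linear_combination h)
  have b2 : (1 : ℂ) - u ^ 2 ≠ 0 := fun h => (pow_ne_one_u hu 2 (by norm_num)).1 (by linear_combination -h)
  have b3 : (1 : ℂ) - u ^ 3 ≠ 0 := fun h => (pow_ne_one_u hu 3 (by norm_num)).1 (by linear_combination -h)
  have b4 : (1 : ℂ) - u ^ 4 ≠ 0 := fun h => (pow_ne_one_u hu 4 (by norm_num)).1 (by linear_combination -h)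
  have key : ∀ U : ℂ, 1 + U ≠ 0 → 1 - U ≠ 0 → U / (1 - U ^ 2) + U ^ 2 / (1 - U ^ 2) = U / (1 - U) := by
    intro U h1 h2
    have h3 : 1 - U ^ 2 = (1 - U) * (1 + U) := by ring
    rw [h3]
    field_simp
  have k2 := key (u ^ 2) a2 b2
  have k3 := key (u ^ 3) a3 b3
  have k4 := key (u ^ 4) a4 b4
  have e1 : pS u ths + rS u ths = 2 * (u ^ 2 / (1 - u ^ 2) + u ^ 3 / (1 - u ^ 3) + u ^ 4 / (1 - u ^ 4)) := by
    rw [← k2, ← k3, ← k4]
    simp only [ths, pS, rS, ← pow_mul]
    ring
  have e2 : ev sd u = (1 - u ^ 4) * (1 - u ^ 3) := by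
    simp only [sd, ev_lmul, ev_lsub, ev_lX, ev]
    push_cast
    ring
  have e3 : ev sn u = 2 * (u ^ 2 * ((1 + u ^ 2) * (1 - u ^ 3)) + (u ^ 3 * (1 - u ^ 4)
      + u ^ 4 * (1 - u ^ 3))) := by
    simp only [sn, ev_lmul, ev_ladd, ev_lX, ev, ev_lsmul, ev_lsub]
    push_cast
    ring
  have e4 : u ^ 2 / (1 - u ^ 2) * (1 - u ^ 4) = u ^ 2 * (1 + u ^ 2) := by
    have : (1 : ℂ) - u ^ 4 = (1 - u ^ 2) * (1 + u ^ 2) := by ring
    rw [this]
    field_simp
  have e5 : u ^ 3 / (1 - u ^ 3) * (1 - u ^ 3) = u ^ 3 := div_mul_cancel₀ _ b3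
  have e6 : u ^ 4 / (1 - u ^ 4) * (1 - u ^ 4) = u ^ 4 := div_mul_cancel₀ _ b4
  constructor
  · rw [e1, e2, e3]
    linear_combination 2 * (1 - u ^ 3) * e4 + 2 * (1 - u ^ 4) * e5 + 2 * (1 - u ^ 3) * e6
  · rw [e2]
    exact mul_ne_zero b4 b3

/-- All the analytic information at one value of the parameter. -/
theorem hub_info (n : ℕ) {l u : ℂ} (hu : ‖u‖ ≤ 5 / 7) (hlu : l * u = 1) :
    ∃ N D, RespC (hubG n) l N D ∧ (D + (N + D) * (pS u ths + rS u ths) ≠ 0) ∧
      (u ≠ 1 / 2 → D - (N + D) * (pS u ths - rS u ths) ≠ 0) ∧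
      (u = 1 / 2 → D - (N + D) * (pS u ths - rS u ths) = 0 ∧ PR (N + D)) := by
  obtain ⟨z, hz, hall⟩ := ctx_resp (has_chain n) hu hlu
  obtain ⟨gc, c1, c2, c3, c4⟩ := hall hubM hub_ok
  obtain ⟨g, r1, r2, r3, r4⟩ := (has_of_ok g3 g3_ok).resp_nd hu hlu
  obtain ⟨e1, e2⟩ := even_sum hu
  obtain ⟨o1, o2⟩ := odd_sum hu
  have hg1 : 1 + g ≠ 0 := by
    intro h
    have h1 : ev (nd g3).1 u + ev (nd g3).2 u = 1 + u ^ 3 := by
      simp only [g3, nd, lcomb, ev_ladd, ev_lmul, ev_lsub, ev_lsmul, ev_lX, ev]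
      push_cast
      ring
    have h2 : (1 + g) * ev (nd g3).2 u = 1 + u ^ 3 := by
      linear_combination r3 + h1
    rw [h, zero_mul] at h2
    exact (pow_ne_one_u hu 3 (by norm_num)).2 (by linear_combination -h2)
  set N := u ^ 2 * gc + g + 2 * (u ^ 2 * gc * g) with hN
  set D := 1 - u ^ 2 * gc * g with hD
  set q := (ev (mob hubM).2.1 u + z * ev (mob hubM).2.2 u) * ev (nd g3).2 u with hq
  have hq0 : q ≠ 0 := mul_ne_zero c4 r4
  have hNq : ev (mob hubL).1.1 u + z * ev (mob hubL).1.2 u = q * N := by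
    simp only [hubL, mob, ev_ladd, ev_lmul, ev_lsmul, ev_lX]
    rw [hq, hN]
    push_cast
    have x1 : ev (mob hubM).1.1 u = gc * (ev (mob hubM).2.1 u + z * ev (mob hubM).2.2 u)
        - z * ev (mob hubM).1.2 u := by linear_combination -c3
    rw [x1, ← r3]
    ring
  have hDq : ev (mob hubL).2.1 u + z * ev (mob hubL).2.2 u = q * D := by
    simp only [hubL, mob, ev_ladd, ev_lmul, ev_lsmul, ev_lX, ev_lsub]
    rw [hq, hD]
    have x1 : ev (mob hubM).1.1 u = gc * (ev (mob hubM).2.1 u + z * ev (mob hubM).2.2 u)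
        - z * ev (mob hubM).1.2 u := by linear_combination -c3
    rw [x1, ← r3]
    ring
  have hoA : ev oA u = ev sd u * ev (mob hubL).2.1 u
      + ev sn u * (ev (mob hubL).2.1 u + ev (mob hubL).1.1 u) := by
    simp only [oA, ev_ladd, ev_lmul]
  have hoB : ev oB u = ev sd u * ev (mob hubL).2.2 u
      + ev sn u * (ev (mob hubL).2.2 u + ev (mob hubL).1.2 u) := by
    simp only [oB, ev_ladd, ev_lmul]
  have heA : ev eA u = ev td u * ev (mob hubL).2.1 u
      - ev tn u * (ev (mob hubL).2.1 u + ev (mob hubL).1.1 u) := by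
    simp only [eA, ev_ladd, ev_lmul, ev_lsub]
  have heB : ev eB u = ev td u * ev (mob hubL).2.2 u
      - ev tn u * (ev (mob hubL).2.2 u + ev (mob hubL).1.2 u) := by
    simp only [eB, ev_ladd, ev_lmul, ev_lsub]
  have hfac : 59 * ev eA u + ev eB u = (1 - 2 * u) * ev cEven u := by
    have h1 := ev_zero_of even_fac hu
    rw [ev_lsub, ev_ladd, ev_lsmul, ev_lmul] at h1
    simp only [ev] at h1
    push_cast at h1
    linear_combination h1
  have hEven : ev eA u + z * ev eB u = ev td u * q * (D - (N + D) * (pS u ths - rS u ths)) := by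
    rw [heA, heB]
    linear_combination (q * (N + D)) * e1 + (ev td u - ev tn u) * hDq - ev tn u * hNq
  have hOdd : ev oA u + z * ev oB u = ev sd u * q * (D + (N + D) * (pS u ths + rS u ths)) := by
    rw [hoA, hoB]
    linear_combination (-(q * (N + D))) * o1 + (ev sd u + ev sn u) * hDq + ev sn u * hNq
  refine ⟨N, D, respC_child hlu c1 r1 hg1, ?_, ?_, ?_⟩
  · intro h
    rw [h, mul_zero] at hOdd
    refine cert_ne cert_odd (by norm_num) hu ?_ hOdd
    have := hz.2.2.1
    push_cast at this ⊢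
    linarith
  · intro hne h
    rw [h, mul_zero] at hEven
    have hne2 : (1 : ℂ) - 2 * u ≠ 0 := by
      intro h1
      apply hne
      linear_combination (-1 / 2) * h1
    have h2 : ev cEven u + (59 * (z - 1 / 59) / (1 - 2 * u)) * ev eB u = 0 := by
      have h3 : (1 - 2 * u) * (ev cEven u + (59 * (z - 1 / 59) / (1 - 2 * u)) * ev eB u) = 0 := by
        have h4 : (1 - 2 * u) * (ev cEven u + (59 * (z - 1 / 59) / (1 - 2 * u)) * ev eB u)
            = (1 - 2 * u) * ev cEven u + 59 * (z - 1 / 59) * ev eB u := by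
          field_simp
        rw [h4]
        linear_combination 59 * hEven - hfac
      rcases mul_eq_zero.mp h3 with h4 | h4
      · exact absurd h4 hne2
      · exact h4
    refine cert_ne cert_even (by norm_num) hu ?_ h2
    have h5 := hz.2.2.2
    push_cast at h5
    rw [norm_div, norm_mul]
    have h6 : ‖(1 : ℂ) - 2 * u‖ = 2 * ‖u - 1 / 2‖ := by
      have : (1 : ℂ) - 2 * u = (-2) * (u - 1 / 2) := by ring
      rw [this, norm_mul]
      simp
    have h7 : 0 < ‖u - 1 / 2‖ := by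
      rw [norm_pos_iff]
      intro h8
      apply hne
      linear_combination h8
    rw [h6]
    have h8 : ‖(59 : ℂ)‖ = 59 := by simp
    rw [h8, div_mul_eq_mul_div, div_le_iff₀ (by positivity)]
    push_cast
    nlinarith
  · intro h
    have hz2 : z = 1 / 59 := by
      have h5 := hz.2.2.2
      rw [h] at h5
      simp only [sub_self, norm_zero, mul_zero] at h5
      have h6 := sub_eq_zero.mp (norm_le_zero_iff.mp h5)
      rw [h6]
      push_cast
      ring
    have h1 : ev eA u + z * ev eB u = 0 := by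
      rw [hz2]
      have h9 : (1 : ℂ) - 2 * u = 0 := by rw [h]; ring
      rw [h9, zero_mul] at hfac
      linear_combination (1 / 59) * hfac
    rw [h1] at hEven
    constructor
    · rcases mul_eq_zero.mp hEven.symm with h2 | h2
      · rcases mul_eq_zero.mp h2 with h3 | h3
        · exact absurd h3 e2
        · exact absurd h3 hq0
      · exact h2
    · have hgc : gc = ((aC (1 / 59) hubM : ℚ) : ℝ) := by
        have h5 := c2.2.2.2
        rw [h] at h5
        simp only [sub_self, norm_zero, mul_zero] at h5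
        exact sub_eq_zero.mp (norm_le_zero_iff.mp h5)
      have hgg : g = ((aQ g3 : ℚ) : ℝ) := by
        have h5 := r2.2.2.2
        rw [h] at h5
        simp only [sub_self, norm_zero, mul_zero] at h5
        exact sub_eq_zero.mp (norm_le_zero_iff.mp h5)
      have p1 : (0 : ℝ) < ((aC (1 / 59) hubM : ℚ) : ℝ) := by exact_mod_cast hub_a
      have p2 : (0 : ℝ) ≤ ((aQ g3 : ℚ) : ℝ) := by exact_mod_cast g3_a
      refine ⟨(1 + 1 / 4 * ((aC (1 / 59) hubM : ℚ) : ℝ)) * (1 + ((aQ g3 : ℚ) : ℝ)), by positivity, ?_⟩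
      rw [hN, hD, hgc, hgg, h]
      push_cast
      ring

end Pool.Agent.H66.NB
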