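import Mathlib
import Pool.Agent.H66.NB6

set_option autoImplicit false
open scoped Classical
open Finset

namespace Pool.Agent.H66.NB

lemma HS_comb {V : Type} [Fintype V] {G : SimpleGraph V} {l : ℂ} {S T : V → ℂ} (a b : ℂ)
    (hS : HS G l S) (hT : HS G l T) : HS G l (fun v => a * S v + b * T v) := by
  intro v
  have h1 := hS v
  have h2 := hT v
  have h3 : ∀ u, (if G.Adj v u then l * (a * S u + b * T u) - (a * S v + b * T v) else 0)
      = a * (if G.Adj v u then l * S u - S v else 0)
        + b * (if G.Adj v u then l * T u - T v else 0) := by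
    intro u
    split_ifs <;> ring
  simp only [h3]
  rw [Finset.sum_add_distrib, ← Finset.mul_sum, ← Finset.mul_sum, ← h1, ← h2]
  ring

lemma ths_pos : ∀ k ∈ ths, 0 < k := by
  intro k hk
  simp only [ths, List.mem_cons, List.not_mem_nil, or_false] at hk
  omega

/-- The defect operator at two. -/
noncomputable def Lap {V : Type} [Fintype V] (G : SimpleGraph V) : (V → ℂ) →ₗ[ℂ] (V → ℂ) where
  toFun S := fun v => (2 ^ 2 - 1) * S v - ∑ u, if G.Adj v u then 2 * S u - S v else 0
  map_add' S T := by
    funext v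
    simp only [Pi.add_apply]
    have h3 : ∀ u, (if G.Adj v u then 2 * (S u + T u) - (S v + T v) else 0)
        = (if G.Adj v u then 2 * S u - S v else 0)
        + (if G.Adj v u then 2 * T u - T v else 0) := by
      intro u
      split_ifs <;> ring
    simp only [h3]
    rw [Finset.sum_add_distrib]
    ring
  map_smul' c S := by
    funext v
    simp only [Pi.smul_apply, smul_eq_mul, RingHom.id_apply]
    have h3 : ∀ u, (if G.Adj v u then 2 * (c * S u) - (c * S v) else 0)
        = c * (if G.Adj v u then 2 * S u - S v else 0) := by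
      intro u
      split_ifs <;> ring
    simp only [h3]
    rw [← Finset.mul_sum]
    ring

theorem uniq_big (n : ℕ) (l : ℂ) (hl : 7 / 5 ≤ ‖l‖) (hne : l ≠ 2)
    (S : WT (hubG n) ths → ℂ) (hS : HS (WG (hubG n) ths) l S) : S = 0 := by
  have hl0 : l ≠ 0 := by
    intro h
    rw [h] at hl
    simp at hl
    linarith
  have hlu : l * l⁻¹ = 1 := mul_inv_cancel₀ hl0
  have hu : ‖l⁻¹‖ ≤ 5 / 7 := by
    rw [norm_inv]
    rw [inv_le_comm₀ (by linarith) (by norm_num)]
    linarith
  have hu2 : l⁻¹ ≠ 1 / 2 := by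
    intro h
    apply hne
    have := congrArg (fun x => x⁻¹) h
    simp at this
    exact this
  obtain ⟨N, D, h1, h2, h3, _⟩ := hub_info n hu hlu
  obtain ⟨F, f1, f2, f3, f4⟩ := hub_main ths_pos (norm_gt_one hu hlu) hlu h1 (HSc_of_HS hS)
  have g1 : F false + F true = 0 := by
    have : (F false + F true) * (D - (N + D) * (pS l⁻¹ ths - rS l⁻¹ ths)) = 0 := by
      rw [f2]; ring
    rcases mul_eq_zero.mp this with h | h
    · exact h
    · exact absurd h (h3 hu2)
  have g2 : F false - F true = 0 := by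
    have : (F false - F true) * (D + (N + D) * (pS l⁻¹ ths + rS l⁻¹ ths)) = 0 := by
      rw [f3]; ring
    rcases mul_eq_zero.mp this with h | h
    · exact h
    · exact absurd h h2
  apply f4
  · linear_combination (1 / 2) * g1 + (1 / 2) * g2
  · linear_combination (1 / 2) * g1 - (1 / 2) * g2

/-- Information at two. -/
theorem at_two (n : ℕ) : ∃ N D : ℂ, RespC (hubG n) 2 N D ∧
    (D + (N + D) * (pS (1 / 2) ths + rS (1 / 2) ths) ≠ 0) ∧
    D - (N + D) * (pS (1 / 2) ths - rS (1 / 2) ths) = 0 ∧ PR (N + D) := by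
  obtain ⟨N, D, h1, h2, _, h4⟩ := hub_info n (l := 2) (u := 1 / 2) (by norm_num) (by norm_num)
  exact ⟨N, D, h1, h2, (h4 rfl).1, (h4 rfl).2⟩

theorem exists_two (n : ℕ) : ∃ S : WT (hubG n) ths → ℂ, S ≠ 0 ∧ HS (WG (hubG n) ths) 2 S := by
  obtain ⟨N, D, h1, h2, h3, h4⟩ := at_two n
  by_contra hcon
  push Not at hcon
  have hinj : Function.Injective (Lap (WG (hubG n) ths)) := by
    rw [injective_iff_map_eq_zero]
    intro S hS
    by_contra hne
    apply hcon S hne
    intro v
    have h5 := congrFun hS v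
    simp only [Lap, LinearMap.coe_mk, AddHom.coe_mk, Pi.zero_apply] at h5
    exact sub_eq_zero.mp h5
  have hsurj : Function.Surjective (Lap (WG (hubG n) ths)) :=
    LinearMap.injective_iff_surjective.mp hinj
  obtain ⟨S, hS⟩ := hsurj (fun v => match v with
      | Sum.inl (_, none) => 1
      | _ => 0)
  have hc : HSc (hubG n) ths 2 (fun _ => 1) S := by
    intro v
    have h5 := congrFun hS v
    simp only [Lap, LinearMap.coe_mk, AddHom.coe_mk] at h5
    rcases v with ⟨b, _ | v⟩ | v
    · simp only at h5 ⊢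
      linear_combination h5
    · simp only at h5 ⊢
      linear_combination h5
    · simp only at h5 ⊢
      linear_combination h5
  obtain ⟨F, f1, f2, f3, f4⟩ := hub_main ths_pos (by norm_num : (1 : ℝ) < ‖(2 : ℂ)‖)
    (by norm_num : (2 : ℂ) * (1 / 2) = 1) h1 hc
  rw [h3, mul_zero] at f2
  norm_num at f2

/-- The positive solution at two. -/
theorem pos_two (n : ℕ) : ∃ S0 : WT (hubG n) ths → ℝ,
    HS (WG (hubG n) ths) 2 (fun v => (S0 v : ℂ)) ∧
    (∀ v u, (WG (hubG n) ths).Adj v u → 0 < 2 * S0 u - S0 v) ∧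
    (∀ S : WT (hubG n) ths → ℂ, HS (WG (hubG n) ths) 2 S → ∃ c : ℂ, S = fun v => c * (S0 v : ℂ)) := by
  obtain ⟨N, D, h1, h2, h3, h4⟩ := at_two n
  have hmain := fun (S : WT (hubG n) ths → ℂ) (hS : HS (WG (hubG n) ths) 2 S) =>
    hub_main ths_pos (by norm_num : (1 : ℝ) < ‖(2 : ℂ)‖)
    (by norm_num : (2 : ℂ) * (1 / 2) = 1) h1 (HSc_of_HS hS)
  have hND : N + D ≠ 0 := by
    obtain ⟨r, hr, h⟩ := h4
    rw [h]
    exact_mod_cast hr.ne'
  obtain ⟨S, hS0, hS⟩ := exists_two n
  obtain ⟨F, f1, f2, f3, f4⟩ := hmain S hS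
  have g2 : F false - F true = 0 := by
    have : (F false - F true) * (D + (N + D) * (pS (1 / 2) ths + rS (1 / 2) ths)) = 0 := by
      rw [f3]; ring
    rcases mul_eq_zero.mp this with h | h
    · exact h
    · exact absurd h h2
  have hF : F false ≠ 0 := by
    intro h
    apply hS0
    apply f4 h
    rw [h] at g2
    linear_combination -g2
  -- normalised solution
  set T : WT (hubG n) ths → ℂ := fun v => (F false)⁻¹ * S v + 0 * S v with hT
  have hTS : HS (WG (hubG n) ths) 2 T := HS_comb _ _ hS hS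
  set s : ℂ := (N + D) / 3 with hs
  have hsP : PR s := by
    obtain ⟨r, hr, h⟩ := h4
    refine ⟨r / 3, by positivity, ?_⟩
    rw [hs, h]
    push_cast
    ring
  have hhub : ∀ b, T (Sum.inl (b, none)) = s := by
    intro b
    have e1 := f1 b
    have e2 : F b = F false := by
      cases b
      · rfl
      · linear_combination -g2
    rw [e2] at e1
    rw [hT, hs]
    simp only
    field_simp
    linear_combination e1
  obtain ⟨u1, u2, u3⟩ := HSc_unpack (HSc_of_HS hTS)
  rw [hhub, hhub] at u2
  obtain ⟨t1, t2, t3, t4⟩ := thread_pos hsP u2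
  have hgad : ∀ b, _ := fun b => pos_hub n s hsP _ (by have := u1 b; rw [hhub b] at this; exact this)
  have hPR : ∀ v, PR (T v) := by
    rintro (⟨b, _ | v⟩ | v)
    · rw [hhub b]
      exact hsP
    · exact (hgad b).1 v
    · exact t1 v
  have hadj : ∀ v u, (WG (hubG n) ths).Adj v u → PR (2 * T u - T v) := by
    rintro (⟨b, _ | v⟩ | v) (⟨b', _ | u⟩ | u) h
    · exact h.elim
    · obtain ⟨h5, h6⟩ := h
      subst h5
      rw [hhub b]
      exact ((hgad b).2.1 u h6).1
    · rw [hhub b]
      cases b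
      · exact (t2 u h).1
      · exact (t3 u h).1
    · obtain ⟨h5, h6⟩ := h
      subst h5
      rw [hhub b]
      exact ((hgad b).2.1 v h6).2
    · obtain ⟨h5, h6⟩ := h
      subst h5
      exact (hgad b).2.2 v u h6
    · exact h.elim
    · rw [hhub b']
      cases b'
      · exact (t2 v h).2
      · exact (t3 v h).2
    · exact h.elim
    · exact t4 v u h
  have hre : ∀ v, T v = ((T v).re : ℂ) := by
    intro v
    obtain ⟨r, _, h⟩ := hPR v
    rw [h]
    simp
  refine ⟨fun v => (T v).re, ?_, ?_, ?_⟩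
  · have : (fun v => (((T v).re : ℝ) : ℂ)) = T := by
      funext v
      exact (hre v).symm
    rw [this]
    exact hTS
  · intro v u h
    obtain ⟨r, hr, h5⟩ := hadj v u h
    have h6 := congrArg Complex.re h5
    simp at h6
    simp only
    linarith
  · intro S' hS'
    have hs0 : s ≠ 0 := by
      obtain ⟨r, hr, h⟩ := hsP
      rw [h]
      exact_mod_cast hr.ne'
    refine ⟨S' (Sum.inl (false, none)) / s, ?_⟩
    have hQ := HS_comb 1 (-(S' (Sum.inl (false, none)) / s)) hS' hTS
    obtain ⟨F', k1, k2, k3, k4⟩ := hmain _ hQ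
    have m1 : F' false = 0 := by
      have := k1 false
      rw [hhub false] at this
      have h7 : S' (Sum.inl (false, none)) / s * s = S' (Sum.inl (false, none)) :=
        div_mul_cancel₀ _ hs0
      have h8 : (N + D) * F' false = 0 := by
        linear_combination -this - (2 ^ 2 - 1) * h7
      rcases mul_eq_zero.mp h8 with h | h
      · exact absurd h hND
      · exact h
    have m2 : F' false - F' true = 0 := by
      have : (F' false - F' true) * (D + (N + D) * (pS (1 / 2) ths + rS (1 / 2) ths)) = 0 := by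
        rw [k3]; ring
      rcases mul_eq_zero.mp this with h | h
      · exact h
      · exact absurd h h2
    have m3 : F' true = 0 := by linear_combination m1 - m2
    have m4 := k4 m1 m3
    funext v
    have m5 := congrFun m4 v
    simp only [Pi.zero_apply] at m5
    rw [← hre v]
    linear_combination m5

theorem family (n : ℕ) :
    (2 : ℂ) ∈ (nbM (WG (hubG n) ths)).charpoly.roots ∧
    (∀ z ∈ (nbM (WG (hubG n) ths)).charpoly.roots, ‖z‖ ≤ 2) ∧
    ((nbM (WG (hubG n) ths)).charpoly.roots.filter (fun z : ℂ => 7 / 5 ≤ ‖z‖)).card ≤ 1 := by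
  obtain ⟨S0, h1, h2, h3⟩ := pos_two n
  refine spec_main _ (7 / 5) (by norm_num) (by norm_num) (fun l hl hne S hS => uniq_big n l hl hne S hS)
    S0 h1 h2 ?_ h3
  obtain ⟨w, hw⟩ := root_hub n
  exact ⟨Sum.inl (false, none), Sum.inl (false, some w), ⟨rfl, hw⟩⟩

end Pool.Agent.H66.NB
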